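import Pool.Agent.Lib.H31V.Fin1

/-!
# ZS: the final theorem of part 1 (interface for part 2)
-/

open Finset

namespace Pool.Agent.Lib.H31V

/-- **Zeta sums by Vinogradov's method** (final theorem of part 1; `zeta_sum` of `Fin1.lean`). -/
theorem zeta_sum_interface : ∃ c C : ℝ, 0 < c ∧ c ≤ 1 / 4 ∧ 1 ≤ C ∧ ∀ (t : ℝ) (N N' : ℕ), 2 ≤ t → 2 ≤ N →
    (N : ℝ) ≤ t → N ≤ N' → N' ≤ 2 * N →
    ‖S t N N'‖ ≤ C * (N : ℝ) ^ (1 - c * (Real.log N / Real.log t) ^ 2) :=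
  zeta_sum

end Pool.Agent.Lib.H31V
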