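import Pool.Agent.Lib.H31V.Defs

/-!
# A1: translation invariance
-/

open Finset

namespace Pool.Agent.Lib.H31V

/-- The power sum of a translated tuple. -/
theorem a1_sum_pow {ι : Type*} [Fintype ι] (x : ι → ℤ) (a : ℤ) (m : ℕ) :
    ∑ i, (x i + a) ^ m =
      ∑ r ∈ range (m + 1), (∑ i, x i ^ r) * (a ^ (m - r) * (m.choose r : ℤ)) := by
  have h : ∀ i, (x i + a) ^ m =
      ∑ r ∈ range (m + 1), x i ^ r * (a ^ (m - r) * (m.choose r : ℤ)) := by
    intro i
    rw [add_pow]
    exact Finset.sum_congr rfl fun r _ => by ring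
  rw [Finset.sum_congr rfl fun i _ => h i, Finset.sum_comm]
  exact Finset.sum_congr rfl fun r _ => by rw [Finset.sum_mul]

/-- Translation invariance of the system of power sums, two blocks of variables.
Proof: `(x + a)^m = ∑_{r ≤ m} C(m, r) x^r a^(m-r)` (`add_pow`), sum over the variables and exchange
the sums; for `1 ≤ r ≤ m ≤ k` the inner sums `∑ x^r + ∑ u^r` and `∑ y^r + ∑ v^r` are equal by
hypothesis, for `r = 0` both are `card ι + card κ`. -/
theorem ps_translate_two (k : ℕ) {ι κ : Type*} [Fintype ι] [Fintype κ] (x y : ι → ℤ) (u v : κ → ℤ)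
    (a : ℤ) (h : ps k x + ps k u = ps k y + ps k v) :
    ps k (fun i => x i + a) + ps k (fun i => u i + a) =
      ps k (fun i => y i + a) + ps k (fun i => v i + a) := by
  have hr : ∀ r, r ≤ k → ∑ i, x i ^ r + ∑ i, u i ^ r = ∑ i, y i ^ r + ∑ i, v i ^ r := by
    intro r hr
    rcases Nat.eq_zero_or_pos r with h0 | h0
    · subst h0
      simp
    · have h1 := congrFun h ⟨r - 1, by omega⟩
      simp only [ps, Pi.add_apply, Nat.sub_add_cancel h0] at h1
      exact h1
  funext j
  simp only [ps, Pi.add_apply]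
  rw [a1_sum_pow x, a1_sum_pow u, a1_sum_pow y, a1_sum_pow v, ← Finset.sum_add_distrib,
    ← Finset.sum_add_distrib]
  refine Finset.sum_congr rfl fun r hr' => ?_
  rw [← add_mul, ← add_mul, hr r (by
    have h1 := Finset.mem_range.1 hr'
    have h2 := j.2
    omega)]

/-- One block: the case `κ = Fin 0` (or directly, same proof). -/
theorem ps_translate (k : ℕ) {ι : Type*} [Fintype ι] (x y : ι → ℤ) (a : ℤ) (h : ps k x = ps k y) :
    ps k (fun i => x i + a) = ps k (fun i => y i + a) := by
  have h0 : ∀ w : Fin 0 → ℤ, ps k w = 0 := by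
    intro w
    funext j
    simp [ps]
  have h1 := ps_translate_two k x y (fun i : Fin 0 => (i.elim0 : ℤ)) (fun i : Fin 0 => (i.elim0 : ℤ))
    a (by rw [h0, h])
  rw [h0, add_zero, add_zero] at h1
  exact h1

/-- `JB` is monotone. -/
theorem JB_mono (k s : ℕ) {B B' : Finset ℤ} (h : B ⊆ B') : JB k s B ≤ JB k s B' := by
  classical
  unfold JB
  refine Finset.card_le_card ?_
  intro z hz
  simp only [Finset.mem_filter, Finset.mem_product, tup, Fintype.mem_piFinset] at hz ⊢
  exact ⟨⟨fun i => h (hz.1.1 i), fun i => h (hz.1.2 i)⟩, hz.2⟩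

/-- Any set of integers inside an interval of `P` consecutive integers has `JB ≤ J k s P`.
Proof: the map `(x, y) ↦ (x - a, y - a)` is injective, maps `tup s B × tup s B` into
`tup s [1,P] × tup s [1,P]` and preserves `ps x = ps y` (`ps_translate` with `-a`). -/
theorem JB_le_J (k s : ℕ) (B : Finset ℤ) (a : ℤ) (P : ℕ) (hB : B ⊆ Icc (a + 1) (a + P)) :
    JB k s B ≤ J k s P := by
  classical
  unfold J JB
  refine Finset.card_le_card_of_injOn
    (fun z => ((fun i => z.1 i + -a), (fun i => z.2 i + -a))) ?_ ?_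
  · intro z hz
    simp only [Finset.coe_filter, Set.mem_ofPred_eq, Finset.mem_product, tup,
      Fintype.mem_piFinset] at hz ⊢
    refine ⟨⟨fun i => ?_, fun i => ?_⟩, ps_translate k z.1 z.2 (-a) hz.2⟩
    · have h1 := Finset.mem_Icc.1 (hB (hz.1.1 i))
      rw [Finset.mem_Icc]
      constructor <;> linarith [h1.1, h1.2]
    · have h1 := Finset.mem_Icc.1 (hB (hz.1.2 i))
      rw [Finset.mem_Icc]
      constructor <;> linarith [h1.1, h1.2]
  · intro z _ w _ hzw
    simp only [Prod.mk.injEq] at hzw
    refine Prod.ext ?_ ?_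
    · funext i
      have := congrFun hzw.1 i
      linarith
    · funext i
      have := congrFun hzw.2 i
      linarith

end Pool.Agent.Lib.H31V
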