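import Pool.Agent.Lib.H31V.Defs

/-!
# A10: choosing a prime
-/

open Finset

namespace Pool.Agent.Lib.H31V

theorem A10_fib {α β : Type*} [DecidableEq β] (T : Finset α) (P : α → Prop) (g : α → β)
    {i1 : DecidablePred (fun z : α × α => P z.1 ∧ P z.2 ∧ g z.1 = g z.2)}
    {i2 : ∀ h, DecidablePred (fun a => P a ∧ g a = h)} :
    (@Finset.filter (α × α) (fun z => P z.1 ∧ P z.2 ∧ g z.1 = g z.2) i1 (T ×ˢ T)).card =
      ∑ h ∈ T.image g, ((@Finset.filter α (fun a => P a ∧ g a = h) (i2 h) T).card) ^ 2 := by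
  have hmaps : ∀ z ∈ @Finset.filter (α × α) (fun z => P z.1 ∧ P z.2 ∧ g z.1 = g z.2) i1 (T ×ˢ T),
      g z.1 ∈ T.image g := by
    intro z hz
    rw [Finset.mem_filter, Finset.mem_product] at hz
    exact Finset.mem_image_of_mem g hz.1.1
  rw [Finset.card_eq_sum_card_fiberwise hmaps]
  refine Finset.sum_congr rfl fun h _ => ?_
  rw [sq, ← Finset.card_product]
  congr 1
  ext z
  simp only [Finset.mem_filter, Finset.mem_product]
  constructor
  · rintro ⟨⟨⟨h1, h2⟩, h3, h4, h5⟩, h6⟩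
    exact ⟨⟨h1, h3, h6⟩, h2, h4, by rw [← h5]; exact h6⟩
  · rintro ⟨⟨h1, h3, h6⟩, h2, h4, h7⟩
    exact ⟨⟨⟨h1, h2⟩, h3, h4, by rw [h6, h7]⟩, h6⟩

/-- An injective tuple from `[1, P]` is distinct modulo some prime of `Q`.
Proof: otherwise every `p ∈ Q` divides some difference `x_i - x_j`, `i < j`, hence divides
`D = ∏_{i<j} (x_i - x_j) ≠ 0`, and `∏_{p ∈ Q} p ∣ D`. Now `|D| ≤ P^(k(k-1)/2)` and
`(∏ p)^k ≥ P^(card Q) ≥ P^(k^3)`, so `P^(k^3) ≤ P^(k·k(k-1)/2)`, impossible for `P ≥ 2`, `k ≥ 1`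
(`k·k(k-1)/2 < k^3`). (If `k = 1`, `DistMod` is empty and `Q` is not empty.) -/
theorem exists_distMod (k P : ℕ) (hk1 : 1 ≤ k) (hP : 2 ≤ P) (Q : Finset ℕ)
    (hQ : ∀ p ∈ Q, p.Prime ∧ P ≤ p ^ k) (hcard : k ^ 3 ≤ Q.card) (x : Fin k → ℤ)
    (hx : x ∈ tup k (Icc (1 : ℤ) P)) (hinj : Function.Injective x) :
    ∃ p ∈ Q, DistMod p x := by
  by_contra hcon
  push Not at hcon
  -- every prime divides a difference
  have hdiv : ∀ p ∈ Q, ∃ i j : Fin k, i < j ∧ (p : ℤ) ∣ x i - x j := by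
    intro p hp
    have h1 := hcon p hp
    unfold DistMod at h1
    push Not at h1
    obtain ⟨i, j, hij, hd⟩ := h1
    rcases lt_or_gt_of_ne hij with h | h
    · exact ⟨i, j, h, hd⟩
    · refine ⟨j, i, h, ?_⟩
      have h2 : x j - x i = -(x i - x j) := by ring
      rw [h2]
      exact (dvd_neg).2 hd
  have hx' : ∀ i, 1 ≤ x i ∧ x i ≤ P := by
    intro i
    have h1 := (Fintype.mem_piFinset.1 hx) i
    exact Finset.mem_Icc.1 h1
  obtain ⟨S, hS⟩ : ∃ S : Finset (Fin k × Fin k), S = Finset.univ.filter (fun q => q.1 < q.2) :=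
    ⟨_, rfl⟩
  obtain ⟨D, hD⟩ : ∃ D : ℕ, D = ∏ q ∈ S, (x q.1 - x q.2).natAbs := ⟨_, rfl⟩
  have hD0 : 0 < D := by
    rw [hD]
    refine Finset.prod_pos fun q hq => ?_
    rw [hS, Finset.mem_filter] at hq
    have h1 : x q.1 - x q.2 ≠ 0 := by
      intro h0
      exact hq.2.ne (hinj (sub_eq_zero.1 h0))
    exact Int.natAbs_pos.2 h1
  have hDle : D ≤ P ^ S.card := by
    rw [hD]
    refine Finset.prod_le_pow_card _ _ _ fun q _ => ?_
    have h1 := hx' q.1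
    have h2 := hx' q.2
    omega
  have hprod : ∏ p ∈ Q, p ∣ D := by
    refine Finset.prod_primes_dvd D (fun p hp => (hQ p hp).1.prime) fun p hp => ?_
    obtain ⟨i, j, hij, hd⟩ := hdiv p hp
    rw [hD]
    have h1 : (i, j) ∈ S := by
      rw [hS, Finset.mem_filter]
      exact ⟨Finset.mem_univ _, hij⟩
    refine Dvd.dvd.trans ?_ (Finset.dvd_prod_of_mem (fun q : Fin k × Fin k => (x q.1 - x q.2).natAbs) h1)
    exact Int.natCast_dvd.1 hd
  have hle : ∏ p ∈ Q, p ≤ D := Nat.le_of_dvd hD0 hprod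
  have hpow : P ^ Q.card ≤ P ^ (S.card * k) := by
    calc P ^ Q.card = ∏ _p ∈ Q, P := by rw [Finset.prod_const]
      _ ≤ ∏ p ∈ Q, p ^ k := Finset.prod_le_prod (fun _ _ => Nat.zero_le _) fun p hp => (hQ p hp).2
      _ = (∏ p ∈ Q, p) ^ k := by rw [Finset.prod_pow]
      _ ≤ (P ^ S.card) ^ k := Nat.pow_le_pow_left (hle.trans hDle) k
      _ = P ^ (S.card * k) := by rw [← pow_mul]
  have hexp : Q.card ≤ S.card * k := (Nat.pow_le_pow_iff_right (by omega)).1 hpow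
  have hScard : S.card < k * k := by
    have h1 : S ⊂ (Finset.univ : Finset (Fin k × Fin k)) := by
      rw [Finset.ssubset_univ_iff, hS]
      intro h0
      have h2 : ((⟨0, hk1⟩, ⟨0, hk1⟩) : Fin k × Fin k) ∈
          Finset.univ.filter (fun q : Fin k × Fin k => q.1 < q.2) := by
        rw [h0]
        exact Finset.mem_univ _
      rw [Finset.mem_filter] at h2
      exact lt_irrefl _ h2.2
    have h3 := Finset.card_lt_card h1
    rw [Finset.card_univ, Fintype.card_prod, Fintype.card_fin] at h3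
    exact h3
  have hfin : S.card * k < k * k * k := Nat.mul_lt_mul_of_pos_right hScard hk1
  have h3 : k ^ 3 = k * k * k := by ring
  omega

/-- Proof: for a vector `h` let `r(h)`, `r_p(h)` be the numbers of `(x, u)` with
`ps x + ps u = h` and `x` injective, resp. distinct mod `p`. `exists_distMod`:
`r(h) ≤ ∑_{p ∈ Q} r_p(h)`, Cauchy-Schwarz: `r(h)^2 ≤ card Q * ∑_p r_p(h)^2`; sum over `h`
(`J1 = ∑_h r(h)^2`, `Jp = ∑_h r_p(h)^2`, `h` in the finite set of all values). -/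
theorem J1_le (k s P : ℕ) (hk1 : 1 ≤ k) (hP : 2 ≤ P) (Q : Finset ℕ)
    (hQ : ∀ p ∈ Q, p.Prime ∧ P ≤ p ^ k) (hcard : k ^ 3 ≤ Q.card) :
    J1 k s P ≤ Q.card * ∑ p ∈ Q, Jp k s P p := by
  classical
  obtain ⟨T, hT⟩ : ∃ T : Finset ((Fin k → ℤ) × (Fin s → ℤ)),
      T = tup k (Icc (1 : ℤ) P) ×ˢ tup s (Icc (1 : ℤ) P) := ⟨_, rfl⟩
  obtain ⟨g, hg⟩ : ∃ g : (Fin k → ℤ) × (Fin s → ℤ) → (Fin k → ℤ),
      g = fun a => ps k a.1 + ps k a.2 := ⟨_, rfl⟩
  have e1 : J1 k s P = ∑ h ∈ T.image g,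
      ((T.filter (fun a => Function.Injective a.1 ∧ g a = h)).card) ^ 2 := by
    subst hT hg
    unfold J1
    exact A10_fib (tup k (Icc (1 : ℤ) P) ×ˢ tup s (Icc (1 : ℤ) P))
      (fun a : (Fin k → ℤ) × (Fin s → ℤ) => Function.Injective a.1)
      (fun a : (Fin k → ℤ) × (Fin s → ℤ) => ps k a.1 + ps k a.2)
  have e2 : ∀ p, Jp k s P p = ∑ h ∈ T.image g,
      ((T.filter (fun a => DistMod p a.1 ∧ g a = h)).card) ^ 2 := by
    intro p
    subst hT hg
    unfold Jp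
    exact A10_fib (tup k (Icc (1 : ℤ) P) ×ˢ tup s (Icc (1 : ℤ) P))
      (fun a : (Fin k → ℤ) × (Fin s → ℤ) => DistMod p a.1)
      (fun a : (Fin k → ℤ) × (Fin s → ℤ) => ps k a.1 + ps k a.2)
  rw [e1, Finset.sum_congr rfl fun p _ => e2 p, Finset.sum_comm, Finset.mul_sum]
  refine Finset.sum_le_sum fun h _ => ?_
  have h1 : (T.filter (fun a => Function.Injective a.1 ∧ g a = h)).card ≤
      ∑ p ∈ Q, (T.filter (fun a => DistMod p a.1 ∧ g a = h)).card := by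
    refine le_trans (Finset.card_le_card ?_) Finset.card_biUnion_le
    intro a ha
    rw [Finset.mem_filter] at ha
    have ha1 : a.1 ∈ tup k (Icc (1 : ℤ) P) := by
      have := ha.1
      rw [hT, Finset.mem_product] at this
      exact this.1
    obtain ⟨p, hp, hd⟩ := exists_distMod k P hk1 hP Q hQ hcard a.1 ha1 ha.2.1
    rw [Finset.mem_biUnion]
    exact ⟨p, hp, Finset.mem_filter.2 ⟨ha.1, hd, ha.2.2⟩⟩
  have h2 : (∑ p ∈ Q, (T.filter (fun a => DistMod p a.1 ∧ g a = h)).card) ^ 2 ≤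
      Q.card * ∑ p ∈ Q, ((T.filter (fun a => DistMod p a.1 ∧ g a = h)).card) ^ 2 := by
    have h3 := sq_sum_le_card_mul_sum_sq (s := Q)
      (f := fun p => (((T.filter (fun a => DistMod p a.1 ∧ g a = h)).card : ℕ) : ℤ))
    exact_mod_cast h3
  exact (Nat.pow_le_pow_left h1 2).trans h2

end Pool.Agent.Lib.H31V
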