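import Pool.Agent.Lib.H31V.Defs

/-!
# A11: tuples with few different entries
-/

open Finset

namespace Pool.Agent.Lib.H31V

open Classical in
/-- Tuples with fewer than `k` different entries. Proof: such an `x` is `w ∘ c` with
`c : Fin b → Fin (k-1)` (if `k = 1` there is none unless `b = 0`; then the tuple is the empty one
and the bound is `1`) and `w : Fin (k-1) → [1,P]`: `≤ (k-1)^b P^(k-1) ≤ k^b P^(k-1)` tuples.
(`1 ≤ P` is needed to extend `w` when there are fewer than `k-1` values.) -/
theorem few_distinct (k b P : ℕ) (hk1 : 1 ≤ k) (hP : 1 ≤ P) :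
    ((tup b (Icc (1 : ℤ) P)).filter (fun x => (univ.image x).card < k)).card ≤
      k ^ b * P ^ (k - 1) := by
  have hsub : ((tup b (Icc (1 : ℤ) P)).filter (fun x => (univ.image x).card < k)) ⊆
      ((univ : Finset (Fin b → Fin (k - 1))) ×ˢ tup (k - 1) (Icc (1 : ℤ) P)).image
        (fun z => fun i => z.2 (z.1 i)) := by
    intro x hx
    rw [mem_filter] at hx
    obtain ⟨hx1, hx2⟩ := hx
    have hmem : ∀ i, x i ∈ Icc (1 : ℤ) P := by
      intro i
      exact Fintype.mem_piFinset.mp hx1 i
    have hle : (univ.image x).card ≤ k - 1 := by omega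
    have hxi : ∀ i, x i ∈ univ.image x := fun i => mem_image_of_mem x (mem_univ i)
    rw [mem_image]
    refine ⟨(fun i => Fin.castLE hle ((univ.image x).equivFin ⟨x i, hxi i⟩),
      fun j => if h : j.val < (univ.image x).card then
        (((univ.image x).equivFin.symm ⟨j.val, h⟩ : (univ.image x : Finset ℤ)) : ℤ) else 1), ?_, ?_⟩
    · rw [mem_product]
      refine ⟨mem_univ _, ?_⟩
      unfold tup
      rw [Fintype.mem_piFinset]
      intro j
      dsimp only
      split_ifs with h
      · have h2 := ((univ.image x).equivFin.symm ⟨j.val, h⟩).2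
        obtain ⟨i, -, hi⟩ := mem_image.mp h2
        rw [← hi]
        exact hmem i
      · rw [mem_Icc]
        constructor
        · norm_num
        · exact_mod_cast hP
    · funext i
      dsimp only
      have hlt : (Fin.castLE hle ((univ.image x).equivFin ⟨x i, hxi i⟩)).val <
          (univ.image x).card := by
        rw [Fin.val_castLE]
        exact ((univ.image x).equivFin ⟨x i, hxi i⟩).2
      rw [dif_pos hlt]
      have h3 : (⟨(Fin.castLE hle ((univ.image x).equivFin ⟨x i, hxi i⟩)).val, hlt⟩ :
          Fin (univ.image x).card) = (univ.image x).equivFin ⟨x i, hxi i⟩ := by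
        apply Fin.ext
        rfl
      rw [h3, Equiv.symm_apply_apply]
  refine (card_le_card hsub).trans ?_
  refine card_image_le.trans ?_
  rw [card_product]
  have h1 : (univ : Finset (Fin b → Fin (k - 1))).card ≤ k ^ b := by
    rw [card_univ, Fintype.card_fun, Fintype.card_fin, Fintype.card_fin]
    exact Nat.pow_le_pow_left (Nat.sub_le k 1) b
  have h2 : (tup (k - 1) (Icc (1 : ℤ) P)).card = P ^ (k - 1) := by
    unfold tup
    rw [Fintype.card_piFinset]
    simp
  rw [h2]
  exact Nat.mul_le_mul_right _ h1

end Pool.Agent.Lib.H31V
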