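import Pool.Agent.Lib.H31V.A11

/-!
# A11b: reduction to injective first blocks
-/

open Finset

namespace Pool.Agent.Lib.H31V

private lemma A11b_sum {α β : Type*} [DecidableEq β] (T : Finset α) (f : α → β) (H : Finset β) :
    ∑ h ∈ H, ((T.filter (fun x => f x = h)).card) ^ 2 =
      ((T ×ˢ T).filter (fun z => f z.1 = f z.2 ∧ f z.1 ∈ H)).card := by
  have h1 := Finset.sum_card_fiberwise_eq_card_filter
    ((T ×ˢ T).filter (fun z => f z.1 = f z.2)) H (fun z => f z.1)
  rw [Finset.filter_filter] at h1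
  rw [← h1]
  refine Finset.sum_congr rfl (fun h _ => ?_)
  rw [sq, ← Finset.card_product]
  congr 1
  ext z
  simp only [Finset.mem_product, Finset.mem_filter]
  constructor
  · rintro ⟨⟨h1, h2⟩, h3, h4⟩
    exact ⟨⟨⟨h1, h3⟩, by rw [h2, h4]⟩, h2⟩
  · rintro ⟨⟨⟨h1, h3⟩, h5⟩, h2⟩
    exact ⟨⟨h1, h2⟩, h3, by rw [← h5, h2]⟩

private lemma A11b_eq {α β : Type*} [DecidableEq β] (T : Finset α) (f : α → β) (H : Finset β)
    (hH : ∀ x ∈ T, f x ∈ H) :
    ((T ×ˢ T).filter (fun z => f z.1 = f z.2)).card =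
      ∑ h ∈ H, ((T.filter (fun x => f x = h)).card) ^ 2 := by
  rw [A11b_sum]
  congr 1
  ext z
  simp only [Finset.mem_product, Finset.mem_filter]
  constructor
  · rintro ⟨⟨h1, h2⟩, h3⟩
    exact ⟨⟨h1, h2⟩, h3, hH _ h1⟩
  · rintro ⟨⟨h1, h2⟩, h3, _⟩
    exact ⟨⟨h1, h2⟩, h3⟩

private lemma A11b_le {α β : Type*} [DecidableEq β] (T : Finset α) (f : α → β) (H : Finset β) :
    ∑ h ∈ H, ((T.filter (fun x => f x = h)).card) ^ 2 ≤
    ((T ×ˢ T).filter (fun z => f z.1 = f z.2)).card := by
  rw [A11b_sum]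
  refine Finset.card_le_card (fun z => ?_)
  simp only [Finset.mem_product, Finset.mem_filter]
  rintro ⟨⟨h1, h2⟩, h3, _⟩
  exact ⟨⟨h1, h2⟩, h3⟩

private lemma A11b_inj {k n : ℕ} (x : Fin n → ℤ) (hx : k ≤ (univ.image x).card) :
    ∃ ι : Fin k → Fin n, Function.Injective (x ∘ ι) := by
  have h1 : Fintype.card (Fin k) ≤ Fintype.card ((univ.image x : Finset ℤ) : Type _) := by
    rw [Fintype.card_fin, Fintype.card_coe]
    exact hx
  obtain ⟨e⟩ := Function.Embedding.nonempty_of_card_le h1
  have h2 : ∀ i : Fin k, ∃ a : Fin n, x a = (e i : ℤ) := by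
    intro i
    have := (e i).2
    obtain ⟨a, _, ha⟩ := Finset.mem_image.1 this
    exact ⟨a, ha⟩
  choose ι hι using h2
  refine ⟨ι, fun i j hij => ?_⟩
  have h3 : x (ι i) = x (ι j) := hij
  rw [hι, hι] at h3
  exact e.injective (Subtype.ext h3)

private lemma A11b_compl {k s : ℕ} (ι : Fin k → Fin (k + s)) (hι : Function.Injective ι) :
    ∃ c : Fin s → Fin (k + s), Function.Bijective (Sum.elim ι c) := by
  classical
  have h1 : ((univ.image ι)ᶜ : Finset (Fin (k + s))).card = s := by
    rw [Finset.card_compl, Finset.card_image_of_injective _ hι, Finset.card_univ,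
      Fintype.card_fin, Fintype.card_fin]
    omega
  have h2 : Fintype.card (((univ.image ι)ᶜ : Finset (Fin (k + s))) : Type _) = s := by
    rw [Fintype.card_coe]; exact h1
  let E := Fintype.equivFinOfCardEq h2
  refine ⟨fun i => (E.symm i : Fin (k + s)), ?_⟩
  rw [Fintype.bijective_iff_injective_and_card]
  constructor
  · refine hι.sumElim ?_ ?_
    · intro i j hij
      exact E.symm.injective (Subtype.ext hij)
    · intro a b hab
      have h3 := (E.symm b).2
      rw [Finset.mem_compl] at h3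
      exact h3 (by
        have : ((E.symm b : (((univ.image ι)ᶜ : Finset (Fin (k + s))) : Type _)) : Fin (k + s)) = ι a :=
          hab.symm
        rw [this]
        exact Finset.mem_image_of_mem _ (Finset.mem_univ _))
  · simp

private lemma A11b_ps {k s : ℕ} (x : Fin (k + s) → ℤ) (ι : Fin k → Fin (k + s))
    (c : Fin s → Fin (k + s)) (h : Function.Bijective (Sum.elim ι c)) :
    ps k (x ∘ ι) + ps k (x ∘ c) = ps k x := by
  funext j
  simp only [ps, Pi.add_apply]
  rw [← h.sum_comp (fun i => x i ^ (j.val + 1)), Fintype.sum_sum_type]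
  rfl

open Classical in
private lemma A11b_count (k s P : ℕ) (h : Fin k → ℤ) :
    (((tup (k + s) (Icc (1 : ℤ) P)).filter
      (fun x => ¬ (univ.image x).card < k)).filter (fun x => ps k x = h)).card ≤
    (k + s) ^ k * ((((tup k (Icc (1 : ℤ) P) ×ˢ tup s (Icc (1 : ℤ) P)).filter
      (fun z => Function.Injective z.1)).filter (fun z => ps k z.1 + ps k z.2 = h)).card) := by
  have h0 : (k + s) ^ k = (Finset.univ : Finset (Fin k → Fin (k + s))).card := by
    rw [Finset.card_univ]; simp
  rw [h0, ← Finset.card_product]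
  have hι : ∀ x : Fin (k + s) → ℤ, ∃ ι : Fin k → Fin (k + s),
      k ≤ (univ.image x).card → Function.Injective (x ∘ ι) := by
    intro x
    by_cases hx : k ≤ (univ.image x).card
    · obtain ⟨ι, h⟩ := A11b_inj x hx
      exact ⟨ι, fun _ => h⟩
    · exact ⟨Fin.castAdd s, fun h => absurd h hx⟩
  choose ι hι using hι
  have hc : ∀ ι : Fin k → Fin (k + s), ∃ c : Fin s → Fin (k + s),
      Function.Injective ι → Function.Bijective (Sum.elim ι c) := by
    intro ι
    by_cases hx : Function.Injective ι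
    · obtain ⟨c, h⟩ := A11b_compl ι hx
      exact ⟨c, fun _ => h⟩
    · exact ⟨Fin.natAdd k, fun h => absurd h hx⟩
  choose c hc using hc
  refine Finset.card_le_card_of_injOn (fun x => (ι x, (x ∘ ι x, x ∘ c (ι x)))) ?_ ?_
  · intro x hx
    simp only [Finset.coe_filter, Finset.mem_filter, Set.mem_ofPred_eq, tup, Fintype.mem_piFinset]
      at hx
    obtain ⟨⟨h1, h2⟩, h3⟩ := hx
    have h4 := hι x (not_lt.1 h2)
    have h5 : Function.Injective (ι x) := Function.Injective.of_comp h4
    simp only [Finset.coe_product, Finset.coe_univ, Set.mem_prod, Set.mem_univ, true_and,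
      Finset.mem_coe, Finset.mem_filter, Finset.mem_product, tup, Fintype.mem_piFinset]
    refine ⟨⟨⟨fun i => h1 _, fun i => h1 _⟩, h4⟩, ?_⟩
    rw [A11b_ps x (ι x) (c (ι x)) (hc _ h5)]
    exact h3
  · intro x hx y hy hxy
    simp only [Finset.coe_filter, Finset.mem_filter, Set.mem_ofPred_eq, tup, Fintype.mem_piFinset]
      at hx
    obtain ⟨⟨h1, h2⟩, h3⟩ := hx
    have h4 := hι x (not_lt.1 h2)
    have h5 : Function.Injective (ι x) := Function.Injective.of_comp h4
    have h6 := hc _ h5
    simp only [Prod.mk.injEq] at hxy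
    obtain ⟨e1, e2, e3⟩ := hxy
    rw [← e1] at e2 e3
    funext a
    obtain ⟨b, rfl⟩ := h6.2 a
    cases b with
    | inl b => exact congrFun e2 b
    | inr b => exact congrFun e3 b

/-- Proof: for `h : Fin k → ℤ` let `r(h)` = number of `x ∈ tup (k+s) [1,P]` with `ps x = h`,
`r''(h)` = those with fewer than `k` different entries, `r'(h)` = the others. `r^2 ≤ 2r'^2 + 2r''^2`
and `∑_h r''(h)^2 ≤ (∑_h r''(h))^2 ≤ (k^(k+s) P^(k-1))^2` (`few_distinct`). If `x` has at least `k`
different entries there is an injection `ι : Fin k → Fin (k+s)` with `x ∘ ι` injective; extend it to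
a permutation `τ` of `Fin (k+s)` (`Equiv.Perm`, e.g. `Function.Injective` embeddings extend:
`Equiv.extendSubtype`/`Function.Embedding`...), `x ∘ τ` has an injective first block (first `k`
coordinates via `Fin.castAdd s`, the rest via `Fin.natAdd k`; `Fin.append`) and the same power sums.
So `r'(h) ≤ (number of injections ≤ (k+s)^k) * r1(h)`, `r1(h)` = number of `(x, u)` with `x`
injective, `ps x + ps u = h`; and `∑_h r1(h)^2 = J1`. -/
theorem J_split (k s P : ℕ) (hk1 : 1 ≤ k) (hP : 1 ≤ P) :
    J k (k + s) P ≤ 2 * (k ^ (k + s) * P ^ (k - 1)) ^ 2 + 2 * ((k + s) ^ k) ^ 2 * J1 k s P := by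
  classical
  set T := tup (k + s) (Icc (1 : ℤ) P) with hT
  set T1 := (tup k (Icc (1 : ℤ) P) ×ˢ tup s (Icc (1 : ℤ) P)).filter
      (fun z => Function.Injective z.1) with hT1
  set H := T.image (ps k) with hH
  have e1 : J k (k + s) P = ∑ h ∈ H, ((T.filter (fun x => ps k x = h)).card) ^ 2 := by
    rw [← A11b_eq T (ps k) H (fun x hx => Finset.mem_image_of_mem _ hx)]
    unfold J JB
    congr 1
  have e2 : ∑ h ∈ H, ((T1.filter (fun z => ps k z.1 + ps k z.2 = h)).card) ^ 2 ≤ J1 k s P := by
    refine le_trans (A11b_le T1 (fun z => ps k z.1 + ps k z.2) H) (le_of_eq ?_)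
    unfold J1
    congr 1
    ext z
    simp only [hT1, Finset.mem_filter, Finset.mem_product]
    tauto
  have e3 : ∀ h ∈ H, ((T.filter (fun x => ps k x = h)).card) ^ 2 ≤
      2 * (((T.filter (fun x => (univ.image x).card < k)).filter (fun x => ps k x = h)).card) ^ 2 +
      2 * ((k + s) ^ k) ^ 2 * ((T1.filter (fun z => ps k z.1 + ps k z.2 = h)).card) ^ 2 := by
    intro h _
    have f1 := A11b_count k s P h
    rw [← hT, ← hT1] at f1
    have f2 : (T.filter (fun x => ps k x = h)).card =
        ((T.filter (fun x => (univ.image x).card < k)).filter (fun x => ps k x = h)).card +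
        ((T.filter (fun x => ¬ (univ.image x).card < k)).filter (fun x => ps k x = h)).card := by
      rw [← Finset.card_filter_add_card_filter_not (s := T.filter (fun x => ps k x = h))
        (fun x => (univ.image x).card < k)]
      rw [Finset.filter_filter, Finset.filter_filter, Finset.filter_filter, Finset.filter_filter]
      congr 1
      · congr 1
        ext x
        simp only [Finset.mem_filter]
        tauto
      · congr 1
        ext x
        simp only [Finset.mem_filter]
        tauto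
    rw [f2]
    generalize ((T.filter (fun x => (univ.image x).card < k)).filter (fun x => ps k x = h)).card = a
      at *
    generalize ((T.filter (fun x => ¬ (univ.image x).card < k)).filter (fun x => ps k x = h)).card = b
      at *
    generalize (T1.filter (fun z => ps k z.1 + ps k z.2 = h)).card = r at *
    have f3 : (a + b) ^ 2 ≤ 2 * a ^ 2 + 2 * b ^ 2 := by
      have : ((a : ℤ) + b) ^ 2 ≤ 2 * (a : ℤ) ^ 2 + 2 * (b : ℤ) ^ 2 := by
        nlinarith [sq_nonneg ((a : ℤ) - b)]
      exact_mod_cast this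
    have f4 : b ^ 2 ≤ ((k + s) ^ k * r) ^ 2 := Nat.pow_le_pow_left f1 2
    calc (a + b) ^ 2 ≤ 2 * a ^ 2 + 2 * b ^ 2 := f3
      _ ≤ 2 * a ^ 2 + 2 * ((k + s) ^ k * r) ^ 2 := by omega
      _ = 2 * a ^ 2 + 2 * ((k + s) ^ k) ^ 2 * r ^ 2 := by ring
  have e4 : ∑ h ∈ H, (((T.filter (fun x => (univ.image x).card < k)).filter
      (fun x => ps k x = h)).card) ^ 2 ≤ (k ^ (k + s) * P ^ (k - 1)) ^ 2 := by
    have f1 := few_distinct k (k + s) P hk1 hP
    have f2 : ((T.filter (fun x => (univ.image x).card < k)).card) ≤ k ^ (k + s) * P ^ (k - 1) := by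
      refine le_trans (le_of_eq ?_) f1
      congr 1
    refine le_trans (A11b_le _ _ _) ?_
    refine le_trans (Finset.card_filter_le _ _) ?_
    rw [Finset.card_product, ← sq]
    exact Nat.pow_le_pow_left f2 2
  rw [e1]
  calc ∑ h ∈ H, ((T.filter (fun x => ps k x = h)).card) ^ 2
      ≤ ∑ h ∈ H, (2 * (((T.filter (fun x => (univ.image x).card < k)).filter
          (fun x => ps k x = h)).card) ^ 2 +
        2 * ((k + s) ^ k) ^ 2 * ((T1.filter (fun z => ps k z.1 + ps k z.2 = h)).card) ^ 2) :=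
        Finset.sum_le_sum e3
    _ = 2 * ∑ h ∈ H, (((T.filter (fun x => (univ.image x).card < k)).filter
          (fun x => ps k x = h)).card) ^ 2 +
        2 * ((k + s) ^ k) ^ 2 *
          ∑ h ∈ H, ((T1.filter (fun z => ps k z.1 + ps k z.2 = h)).card) ^ 2 := by
        rw [Finset.sum_add_distrib, Finset.mul_sum, Finset.mul_sum]
    _ ≤ 2 * (k ^ (k + s) * P ^ (k - 1)) ^ 2 + 2 * ((k + s) ^ k) ^ 2 * J1 k s P := by
        exact add_le_add (Nat.mul_le_mul_left _ e4) (Nat.mul_le_mul_left _ e2)

end Pool.Agent.Lib.H31V
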