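import Pool.Agent.Lib.H31V.Defs

/-!
# A12: many primes in `(z, 2z]`
-/

open Finset

namespace Pool.Agent.Lib.H31V

private theorem A12_binom (n : ℕ) (n_large : 2 < n) :
    Nat.centralBinom n ≤ (2 * n) ^ Nat.sqrt (2 * n) * 4 ^ (2 * n / 3) *
      (2 * n) ^ ((Ioc n (2 * n)).filter Nat.Prime).card := by
  have n_pos : 0 < n := (Nat.zero_le _).trans_lt n_large
  have n2_pos : 1 ≤ 2 * n := by omega
  obtain ⟨f, hf⟩ : ∃ f : ℕ → ℕ, f = fun x => x ^ n.centralBinom.factorization x := ⟨_, rfl⟩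
  have hfn : ∀ p, ¬ p.Prime → f p = 1 := by
    intro p hp
    rw [hf]
    show p ^ n.centralBinom.factorization p = 1
    rw [Nat.factorization_eq_zero_of_not_prime n.centralBinom hp, _root_.pow_zero]
  have hfle : ∀ p, f p ≤ 2 * n := by
    intro p
    rw [hf]
    exact Nat.pow_factorization_choose_le (by omega)
  have h0 : ∏ p ∈ Finset.range (2 * n + 1), f p = n.centralBinom := by
    rw [hf]
    exact n.prod_pow_factorization_centralBinom
  have h1 : ∏ p ∈ Finset.range (2 * n + 1), f p =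
      (∏ p ∈ Finset.range (2 * n / 3 + 1), f p) * ∏ p ∈ (Ioc n (2 * n)).filter Nat.Prime, f p := by
    rw [← Finset.prod_union]
    · symm
      apply Finset.prod_subset
      · intro x hx
        rw [Finset.mem_union, Finset.mem_range, Finset.mem_filter, Finset.mem_Ioc] at hx
        rw [Finset.mem_range]
        omega
      · intro x hx h2x
        rw [Finset.mem_union, not_or, Finset.mem_range, Finset.mem_filter, Finset.mem_Ioc,
          not_and] at h2x
        rw [Finset.mem_range] at hx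
        by_cases hp : x.Prime
        · have hxn : x ≤ n := by
            by_contra hcon
            exact h2x.2 ⟨by omega, by omega⟩ hp
          have h3 : 2 * n < 3 * x := by omega
          rw [hf]
          show x ^ n.centralBinom.factorization x = 1
          rw [Nat.factorization_centralBinom_of_two_mul_self_lt_three_mul n_large hxn h3,
            _root_.pow_zero]
        · exact hfn x hp
    · rw [Finset.disjoint_left]
      intro x hx hx'
      rw [Finset.mem_range] at hx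
      rw [Finset.mem_filter, Finset.mem_Ioc] at hx'
      omega
  have h2 : ∏ p ∈ (Ioc n (2 * n)).filter Nat.Prime, f p ≤
      (2 * n) ^ ((Ioc n (2 * n)).filter Nat.Prime).card := by
    rw [← Finset.prod_const]
    exact Finset.prod_le_prod' fun p _ => hfle p
  have h3 : ∏ p ∈ Finset.range (2 * n / 3 + 1), f p ≤ (2 * n) ^ Nat.sqrt (2 * n) * 4 ^ (2 * n / 3) := by
    obtain ⟨S, hS⟩ : ∃ S, S = (Finset.range (2 * n / 3 + 1)).filter Nat.Prime := ⟨_, rfl⟩
    have h4 : ∏ x ∈ S, f x = ∏ x ∈ Finset.range (2 * n / 3 + 1), f x := by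
      rw [hS]
      refine Finset.prod_filter_of_ne fun p _ h => ?_
      by_contra hp
      exact h (hfn p hp)
    rw [← h4, ← Finset.prod_filter_mul_prod_filter_not S (· ≤ Nat.sqrt (2 * n))]
    apply mul_le_mul'
    · refine (Finset.prod_le_prod' fun p _ => hfle p).trans ?_
      have h5 : (Finset.Icc 1 (Nat.sqrt (2 * n))).card = Nat.sqrt (2 * n) := by
        rw [Nat.card_Icc, Nat.add_sub_cancel]
      rw [Finset.prod_const]
      refine pow_right_mono₀ n2_pos ((Finset.card_le_card fun x hx => ?_).trans h5.le)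
      obtain ⟨h6, h7⟩ := Finset.mem_filter.1 hx
      rw [hS] at h6
      exact Finset.mem_Icc.mpr ⟨(Finset.mem_filter.1 h6).2.one_lt.le, h7⟩
    · refine le_trans ?_ (primorial_le_four_pow (2 * n / 3))
      refine (Finset.prod_le_prod' fun p hp => (?_ : f p ≤ p)).trans ?_
      · obtain ⟨h6, h7⟩ := Finset.mem_filter.1 hp
        rw [hS] at h6
        rw [hf]
        refine (pow_right_mono₀ (Finset.mem_filter.1 h6).2.one_lt.le ?_).trans (pow_one p).le
        exact Nat.factorization_choose_le_one (Nat.sqrt_lt'.mp <| not_le.1 h7)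
      · rw [hS]
        refine Finset.prod_le_prod_of_subset_of_one_le' (Finset.filter_subset _ _) ?_
        exact fun p hp _ => (Finset.mem_filter.1 hp).2.one_lt.le
  rw [← h0, h1]
  exact Nat.mul_le_mul h3 h2

/-- At least `√z` primes in `(z, 2z]` for large `z` (Chebyshev). Proof: as Bertrand's postulate in
Mathlib (`Nat.centralBinom`): `4^z/(2z) ≤ C(2z,z)` (`Nat.four_pow_lt_mul_centralBinom`), and in the
factorisation of `C(2z,z)` the primes `p ≤ √(2z)` contribute `≤ (2z)^(√(2z))`, the primes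
`√(2z) < p ≤ 2z/3` at most `4^(2z/3)` (`primorial_le_4_pow`), the primes in `(2z/3, z]` nothing, so
the primes in `(z, 2z]` have product `≥ 4^(z/3)/(2z)^(√(2z)+1)`; each is `≤ 2z`. If there were fewer
than `√z` of them: `4^(z/3) ≤ (2z)^(√(2z) + √z + 2)`, false for large `z`. (Or use a Chebyshev or
prime number theorem of another Lib, e.g. `Lib/H68T/PNTE`.) -/
theorem primes_supply : ∃ z₀ : ℕ, ∀ z : ℕ, z₀ ≤ z →
    Nat.sqrt z ≤ ((Ioc z (2 * z)).filter Nat.Prime).card := by
  refine ⟨10 ^ 8, fun z hz => ?_⟩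
  by_contra hcon
  rw [not_le] at hcon
  have hz4 : 4 ≤ z := by omega
  have h1 : 4 ^ z < z * Nat.centralBinom z := Nat.four_pow_lt_mul_centralBinom z hz4
  have h2 := A12_binom z (by omega)
  have h3 : 4 ^ z < z * ((2 * z) ^ Nat.sqrt (2 * z) * 4 ^ (2 * z / 3) * (2 * z) ^ Nat.sqrt z) := by
    refine h1.trans_le (Nat.mul_le_mul_left _ (h2.trans ?_))
    exact Nat.mul_le_mul_left _ (Nat.pow_le_pow_right (by omega) hcon.le)
  have h4 : ((4 : ℝ) ^ z) < z * ((2 * z) ^ Nat.sqrt (2 * z) * 4 ^ (2 * z / 3) *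
      (2 * z) ^ Nat.sqrt z) := by exact_mod_cast h3
  have hzr : (0 : ℝ) < z := by exact_mod_cast (by omega : 0 < z)
  have h2z : (0 : ℝ) < 2 * z := by linarith
  have h5 := Real.log_lt_log (by positivity) h4
  rw [Real.log_pow, Real.log_mul hzr.ne' (by positivity), Real.log_mul (by positivity) (by positivity),
    Real.log_mul (by positivity) (by positivity), Real.log_pow, Real.log_pow, Real.log_pow] at h5
  obtain ⟨t, ht⟩ : ∃ t : ℝ, t = Real.sqrt (Real.sqrt z) := ⟨_, rfl⟩
  have ht2 : t ^ 2 = Real.sqrt z := by rw [ht, Real.sq_sqrt (Real.sqrt_nonneg _)]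
  have ht4 : t ^ 4 = (z : ℝ) := by
    have h6 : t ^ 4 = (t ^ 2) ^ 2 := by ring
    rw [h6, ht2, Real.sq_sqrt hzr.le]
  have ht100 : 100 ≤ t := by
    rw [ht]
    refine Real.le_sqrt_of_sq_le (Real.le_sqrt_of_sq_le ?_)
    have : ((10 ^ 8 : ℕ) : ℝ) ≤ z := by exact_mod_cast hz
    norm_num at this ⊢
    exact this
  have hL : Real.log (2 * z) ≤ 8 * t := by
    have h6 : (2 : ℝ) * z ≤ (2 * t) ^ 4 := by
      rw [mul_pow, ht4]
      linarith
    have h7 : Real.log (2 * z) ≤ Real.log ((2 * t) ^ 4) := Real.log_le_log h2z h6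
    rw [Real.log_pow] at h7
    have h8 := Real.log_le_sub_one_of_pos (show 0 < 2 * t by linarith)
    push_cast at h7
    linarith
  have hL1 : Real.log z ≤ Real.log (2 * z) := Real.log_le_log hzr (by linarith)
  have hL0 : 0 ≤ Real.log (2 * z) := by
    have : (1 : ℝ) ≤ z := by exact_mod_cast (by omega : 1 ≤ z)
    exact Real.log_nonneg (by linarith)
  have hs1 : (Nat.sqrt (2 * z) : ℝ) ≤ 2 * t ^ 2 := by
    have h6 : (Nat.sqrt (2 * z) : ℝ) ≤ Real.sqrt ((2 * z : ℕ) : ℝ) := Real.nat_sqrt_le_real_sqrt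
    refine h6.trans ?_
    rw [Real.sqrt_le_left (by positivity)]
    push_cast
    have h7 : (2 * t ^ 2) ^ 2 = 4 * z := by rw [← ht4]; ring
    rw [h7]
    linarith
  have hs2 : (Nat.sqrt z : ℝ) ≤ t ^ 2 := by
    rw [ht2]
    exact Real.nat_sqrt_le_real_sqrt
  have hlog4 : (1.38 : ℝ) ≤ Real.log 4 := by
    have h6 : Real.log 4 = 2 * Real.log 2 := by
      rw [show (4 : ℝ) = 2 ^ 2 by norm_num, Real.log_pow]
      norm_num
    have h7 := Real.log_two_gt_d9
    rw [h6]
    norm_num at h7 ⊢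
    linarith
  have hfl : ((2 * z / 3 : ℕ) : ℝ) ≤ 2 * z / 3 := by
    have h6 := Nat.cast_div_le (α := ℝ) (m := 2 * z) (n := 3)
    push_cast at h6
    exact h6
  have e1 : (Nat.sqrt (2 * z) : ℝ) * Real.log (2 * z) ≤ 2 * t ^ 2 * (8 * t) :=
    mul_le_mul hs1 hL hL0 (by positivity)
  have e2 : (Nat.sqrt z : ℝ) * Real.log (2 * z) ≤ t ^ 2 * (8 * t) :=
    mul_le_mul hs2 hL hL0 (by positivity)
  have e3 : ((2 * z / 3 : ℕ) : ℝ) * Real.log 4 ≤ 2 * z / 3 * Real.log 4 :=
    mul_le_mul_of_nonneg_right hfl (by linarith)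
  have e4 : (z : ℝ) / 3 * 1.38 ≤ z / 3 * Real.log 4 :=
    mul_le_mul_of_nonneg_left hlog4 (by positivity)
  have e5 : (z : ℝ) / 3 * 1.38 < 8 * t + 24 * t ^ 3 := by
    nlinarith
  rw [← ht4] at e5
  have e6 : t ^ 4 = t ^ 3 * t := by ring
  have e7 : 100 * t ^ 3 ≤ t ^ 3 * t := by
    rw [mul_comm]
    exact mul_le_mul_of_nonneg_left ht100 (by positivity)
  have e8 : t ≤ t ^ 3 := by
    nlinarith [sq_nonneg t, mul_pos (show (0 : ℝ) < t by linarith) (show (0 : ℝ) < t by linarith)]
  rw [e6] at e5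
  linarith

end Pool.Agent.Lib.H31V
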