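import Pool.Agent.Lib.H31V.A9
import Pool.Agent.Lib.H31V.A10
import Pool.Agent.Lib.H31V.A11b
import Pool.Agent.Lib.H31V.A12

/-!
# A13: the recursive inequality
-/

open Finset

namespace Pool.Agent.Lib.H31V

/-- Proof: `z = ⌈P^(1/k)⌉`, so `P ≤ z^k` and `z ≥ C k^6 ≥ max(z₀, k^6)` (choose `C ≥ max(z₀, 1)`,
`z₀` of `primes_supply`); `Nat.sqrt z ≥ k^3`, so there is a set `Q` of exactly `k^3` primes in
`(z, 2z]` (`Finset.exists_subset_card_eq`). Every `p ∈ Q` has `k < p`, `P ≤ z^k ≤ p^k`,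
`p ≤ 2z ≤ 2(P^(1/k) + 1) ≤ 4 P^(1/k)`. `J_split`, `J1_le`, `Jp_le`, with `p` the element of `Q` for
which the right side of `Jp_le` is largest:
`J ≤ 2 k^(2(k+s)) P^(2k-2) + 2 (k+s)^(2k) (k^3)^2 p^(2s) P^k k! p^(k(k-1)/2) J k s (P/p+1)`, and the
constants are `≤ exp(C k^3)` since `k + s ≤ 10 k^2`:
`2 k^(20 k^2)`, `2 (10 k^2)^(2k) k^6 k^k` (use `log k ≤ k`). -/
theorem vmvt_step : ∃ C : ℝ, 1 ≤ C ∧ ∀ k s P : ℕ, 2 ≤ k → 1 ≤ s → s ≤ 9 * k ^ 2 →
    (C * (k : ℝ) ^ 6) ^ k ≤ P →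
    ∃ p : ℕ, p.Prime ∧ P ≤ p ^ k ∧ (p : ℝ) ≤ 4 * (P : ℝ) ^ (1 / (k : ℝ)) ∧
      (J k (k + s) P : ℝ) ≤ Real.exp (C * (k : ℝ) ^ 3) * ((P : ℝ) ^ (2 * k - 2) +
        (P : ℝ) ^ k * (p : ℝ) ^ (2 * s + k * (k - 1) / 2) * (J k s (P / p + 1) : ℝ)) := by
  obtain ⟨z₀, hz₀⟩ := primes_supply
  refine ⟨(z₀ : ℝ) + 21, by linarith [Nat.cast_nonneg (α := ℝ) z₀], ?_⟩
  intro k s P hk hs hs9 hP
  have hk1 : (1 : ℝ) ≤ k := by exact_mod_cast (by omega : 1 ≤ k)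
  have hk0 : (0 : ℝ) < k := by linarith
  have hz00 : (0 : ℝ) ≤ z₀ := Nat.cast_nonneg z₀
  obtain ⟨C, hC⟩ : ∃ C : ℝ, C = (z₀ : ℝ) + 21 := ⟨_, rfl⟩
  rw [← hC] at hP ⊢
  have hC1 : (21 : ℝ) ≤ C := by linarith
  have hCz : (z₀ : ℝ) ≤ C := by linarith
  obtain ⟨r, hr⟩ : ∃ r : ℝ, r = (P : ℝ) ^ (1 / (k : ℝ)) := ⟨_, rfl⟩
  rw [← hr]
  have hr0 : 0 ≤ r := by rw [hr]; positivity
  have hrk : r ^ k = P := by
    rw [hr, ← Real.rpow_natCast, ← Real.rpow_mul (by positivity), one_div,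
      inv_mul_cancel₀ hk0.ne', Real.rpow_one]
  have hk6 : (1 : ℝ) ≤ (k : ℝ) ^ 6 := one_le_pow₀ hk1
  have hCk : C * (k : ℝ) ^ 6 ≤ r := by
    by_contra h
    push Not at h
    have h1 : r ^ k < (C * (k : ℝ) ^ 6) ^ k := pow_lt_pow_left₀ h hr0 (by omega)
    linarith
  have hCC : C ≤ C * (k : ℝ) ^ 6 := le_mul_of_one_le_right (by linarith) hk6
  have hr1 : (21 : ℝ) ≤ r := by linarith
  obtain ⟨z, hz⟩ : ∃ z : ℕ, z = ⌈r⌉₊ := ⟨_, rfl⟩
  have hzr : r ≤ z := by rw [hz]; exact Nat.le_ceil r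
  have hzr1 : (z : ℝ) < r + 1 := by rw [hz]; exact Nat.ceil_lt_add_one hr0
  have hz6 : k ^ 6 ≤ z := by
    have h1 : (k : ℝ) ^ 6 ≤ C * (k : ℝ) ^ 6 := le_mul_of_one_le_left (by positivity) (by linarith)
    have h2 : ((k ^ 6 : ℕ) : ℝ) ≤ z := by push_cast; linarith
    exact_mod_cast h2
  have hzz0 : z₀ ≤ z := by
    have h2 : (z₀ : ℝ) ≤ z := by linarith
    exact_mod_cast h2
  have hsqrt : k ^ 3 ≤ Nat.sqrt z := by
    rw [Nat.le_sqrt]
    calc k ^ 3 * k ^ 3 = k ^ 6 := by ring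
      _ ≤ z := hz6
  obtain ⟨Q, hQs, hQc⟩ := Finset.exists_subset_card_eq (hsqrt.trans (hz₀ z hzz0))
  have hPz : P ≤ z ^ k := by
    have h2 : (P : ℝ) ≤ ((z ^ k : ℕ) : ℝ) := by
      push_cast
      rw [← hrk]
      exact pow_le_pow_left₀ hr0 hzr k
    exact_mod_cast h2
  have hQm : ∀ p ∈ Q, p.Prime ∧ z < p ∧ p ≤ 2 * z := by
    intro p hp
    have h := hQs hp
    rw [mem_filter, mem_Ioc] at h
    exact ⟨h.2, h.1.1, h.1.2⟩
  have hQ : ∀ p ∈ Q, p.Prime ∧ P ≤ p ^ k := by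
    intro p hp
    obtain ⟨h1, h2, h3⟩ := hQm p hp
    exact ⟨h1, hPz.trans (Nat.pow_le_pow_left h2.le k)⟩
  have hk3 : 0 < k ^ 3 := by positivity
  have hQne : Q.Nonempty := by
    rw [← Finset.card_pos, hQc]
    exact hk3
  obtain ⟨p, hpQ, hpmax⟩ := Finset.exists_max_image Q (fun p => Jp k s P p) hQne
  have hP2 : 2 ≤ P := by
    have h1 : r ≤ r ^ k := le_self_pow₀ (by linarith) (by omega)
    have h2 : ((2 : ℕ) : ℝ) ≤ P := by
      rw [hrk] at h1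
      push_cast
      linarith
    exact_mod_cast h2
  obtain ⟨hpp, hzp, hp2⟩ := hQm p hpQ
  have hkp : k < p := by
    have h1 : k ≤ k ^ 6 := Nat.le_self_pow (by norm_num) k
    omega
  refine ⟨p, hpp, (hQ p hpQ).2, ?_, ?_⟩
  · have h1 : (p : ℝ) ≤ 2 * z := by exact_mod_cast hp2
    linarith
  · have hJ1 : J1 k s P ≤ k ^ 3 * (k ^ 3 * (p ^ (2 * s) * (P ^ k *
        (k.factorial * p ^ (k * (k - 1) / 2)) * J k s (P / p + 1)))) := by
      have h1 := J1_le k s P (by omega) hP2 Q hQ hQc.ge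
      rw [hQc] at h1
      refine h1.trans (Nat.mul_le_mul_left _ ?_)
      have h2 : ∑ q ∈ Q, Jp k s P q ≤ ∑ _q ∈ Q, Jp k s P p := Finset.sum_le_sum fun q hq => hpmax q hq
      rw [Finset.sum_const, hQc, smul_eq_mul] at h2
      exact h2.trans (Nat.mul_le_mul_left _
        (Jp_le k s P p hpp (by omega) hs hkp (hQ p hpQ).2))
    have h1 : J k (k + s) P ≤ 2 * (k ^ (k + s) * P ^ (k - 1)) ^ 2 + 2 * ((k + s) ^ k) ^ 2 *
        (k ^ 3 * (k ^ 3 * (p ^ (2 * s) * (P ^ k *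
        (k.factorial * p ^ (k * (k - 1) / 2)) * J k s (P / p + 1))))) :=
      (J_split k s P (by omega) (by omega)).trans
        (Nat.add_le_add_left (Nat.mul_le_mul_left _ hJ1) _)
    have h2 : (J k (k + s) P : ℝ) ≤ 2 * ((k : ℝ) ^ (k + s) * (P : ℝ) ^ (k - 1)) ^ 2 +
        2 * (((k : ℝ) + s) ^ k) ^ 2 *
        ((k : ℝ) ^ 3 * ((k : ℝ) ^ 3 * ((p : ℝ) ^ (2 * s) * ((P : ℝ) ^ k *
        ((k.factorial : ℝ) * (p : ℝ) ^ (k * (k - 1) / 2)) * (J k s (P / p + 1) : ℝ))))) := by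
      exact_mod_cast h1
    have hke : (k : ℝ) ≤ Real.exp k := by linarith [Real.add_one_le_exp (k : ℝ)]
    have hpw : ∀ m : ℕ, (k : ℝ) ^ m ≤ Real.exp (m * k) := by
      intro m
      rw [Real.exp_nat_mul]
      exact pow_le_pow_left₀ hk0.le hke m
    have h2e : (2 : ℝ) ≤ Real.exp 1 := by linarith [Real.add_one_le_exp (1 : ℝ)]
    have h10e : (10 : ℝ) ≤ Real.exp 3 := by
      have h3 : Real.exp 3 = Real.exp 1 ^ 3 := by
        rw [← Real.exp_nat_mul]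
        norm_num
      have h4 : (2.7 : ℝ) ≤ Real.exp 1 := by linarith [Real.exp_one_gt_d9]
      rw [h3]
      calc (10 : ℝ) ≤ 2.7 ^ 3 := by norm_num
        _ ≤ Real.exp 1 ^ 3 := pow_le_pow_left₀ (by norm_num) h4 3
    have hs9' : (s : ℝ) ≤ 9 * (k : ℝ) ^ 2 := by exact_mod_cast hs9
    have hk2 : (k : ℝ) ≤ (k : ℝ) ^ 2 := le_self_pow₀ hk1 (by norm_num)
    have hk13 : (1 : ℝ) ≤ (k : ℝ) ^ 3 := one_le_pow₀ hk1
    have hk33 : (k : ℝ) ≤ (k : ℝ) ^ 3 := le_self_pow₀ hk1 (by norm_num)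
    have hk23 : (k : ℝ) ^ 2 ≤ (k : ℝ) ^ 3 := pow_le_pow_right₀ hk1 (by norm_num)
    have hks : (k : ℝ) + s ≤ 10 * (k : ℝ) ^ 2 := by linarith
    have hA : 2 * ((k : ℝ) ^ (k + s)) ^ 2 ≤ Real.exp (C * (k : ℝ) ^ 3) := by
      calc 2 * ((k : ℝ) ^ (k + s)) ^ 2 = 2 * (k : ℝ) ^ ((k + s) * 2) := by rw [pow_mul]
        _ ≤ Real.exp 1 * Real.exp (((k + s) * 2 : ℕ) * (k : ℝ)) :=
            mul_le_mul h2e (hpw _) (by positivity) (by positivity)
        _ = Real.exp (1 + ((k + s) * 2 : ℕ) * (k : ℝ)) := by rw [Real.exp_add]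
        _ ≤ Real.exp (C * (k : ℝ) ^ 3) := by
            rw [Real.exp_le_exp]
            push_cast
            have h5 : ((k : ℝ) + s) * k ≤ 10 * (k : ℝ) ^ 2 * k :=
              mul_le_mul_of_nonneg_right hks hk0.le
            have h6 : 21 * (k : ℝ) ^ 3 ≤ C * (k : ℝ) ^ 3 :=
              mul_le_mul_of_nonneg_right hC1 (by positivity)
            nlinarith
    have hB : 2 * (((k : ℝ) + s) ^ k) ^ 2 * ((k : ℝ) ^ 3 * ((k : ℝ) ^ 3 * (k.factorial : ℝ))) ≤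
        Real.exp (C * (k : ℝ) ^ 3) := by
      have h3 : ((k : ℝ) + s) ^ k ≤ Real.exp ((k : ℝ) * (3 + 2 * k)) := by
        calc ((k : ℝ) + s) ^ k ≤ (10 * (k : ℝ) ^ 2) ^ k :=
              pow_le_pow_left₀ (by positivity) hks k
          _ ≤ (Real.exp (3 + 2 * k)) ^ k := by
              refine pow_le_pow_left₀ (by positivity) ?_ k
              rw [Real.exp_add]
              refine mul_le_mul h10e ?_ (by positivity) (by positivity)
              have := hpw 2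
              push_cast at this
              exact this
          _ = Real.exp ((k : ℝ) * (3 + 2 * k)) := by rw [Real.exp_nat_mul]
      have h4 : (k.factorial : ℝ) ≤ Real.exp (k * k) := by
        calc (k.factorial : ℝ) ≤ (k : ℝ) ^ k := by exact_mod_cast Nat.factorial_le_pow k
          _ ≤ Real.exp (k * k) := hpw k
      have h5 : (k : ℝ) ^ 3 ≤ Real.exp (3 * k) := by
        have := hpw 3
        push_cast at this
        exact this
      calc 2 * (((k : ℝ) + s) ^ k) ^ 2 * ((k : ℝ) ^ 3 * ((k : ℝ) ^ 3 * (k.factorial : ℝ)))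
          ≤ Real.exp 1 * (Real.exp ((k : ℝ) * (3 + 2 * k))) ^ 2 *
            (Real.exp (3 * k) * (Real.exp (3 * k) * Real.exp (k * k))) := by
            refine mul_le_mul (mul_le_mul h2e (pow_le_pow_left₀ (by positivity) h3 2)
              (by positivity) (by positivity)) ?_ (by positivity) (by positivity)
            exact mul_le_mul h5 (mul_le_mul h5 h4 (by positivity) (by positivity))
              (by positivity) (by positivity)
        _ = Real.exp (1 + 2 * ((k : ℝ) * (3 + 2 * k)) + (3 * k + (3 * k + k * k))) := by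
            rw [Real.exp_add, Real.exp_add, Real.exp_add, Real.exp_add, ← Real.exp_nat_mul]
            push_cast
            ring
        _ ≤ Real.exp (C * (k : ℝ) ^ 3) := by
            rw [Real.exp_le_exp]
            have h6 : 21 * (k : ℝ) ^ 3 ≤ C * (k : ℝ) ^ 3 :=
              mul_le_mul_of_nonneg_right hC1 (by positivity)
            nlinarith
    have hPP : ((P : ℝ) ^ (k - 1)) ^ 2 = (P : ℝ) ^ (2 * k - 2) := by
      rw [← pow_mul]
      congr 1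
      omega
    calc (J k (k + s) P : ℝ) ≤ _ := h2
      _ = (2 * ((k : ℝ) ^ (k + s)) ^ 2) * (P : ℝ) ^ (2 * k - 2) +
          (2 * (((k : ℝ) + s) ^ k) ^ 2 * ((k : ℝ) ^ 3 * ((k : ℝ) ^ 3 * (k.factorial : ℝ)))) *
          ((P : ℝ) ^ k * (p : ℝ) ^ (2 * s + k * (k - 1) / 2) * (J k s (P / p + 1) : ℝ)) := by
          rw [← hPP, pow_add]
          ring
      _ ≤ Real.exp (C * (k : ℝ) ^ 3) * (P : ℝ) ^ (2 * k - 2) +
          Real.exp (C * (k : ℝ) ^ 3) *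
          ((P : ℝ) ^ k * (p : ℝ) ^ (2 * s + k * (k - 1) / 2) * (J k s (P / p + 1) : ℝ)) :=
          add_le_add (mul_le_mul_of_nonneg_right hA (by positivity))
            (mul_le_mul_of_nonneg_right hB (by positivity))
      _ = _ := by ring

end Pool.Agent.Lib.H31V
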