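import Pool.Agent.Lib.H31V.A2
import Pool.Agent.Lib.H31V.A13

/-!
# A14: Vinogradov's mean value theorem
-/

open Finset

namespace Pool.Agent.Lib.H31V

/-- The exponent `E_l`. -/
private noncomputable def a14E (k l : ℕ) : ℝ :=
  2 * (k : ℝ) * (l + 1) - (k : ℝ) * (k + 1) / 2 * (1 - (1 - 1 / (k : ℝ)) ^ l)

private theorem a14_rho {k : ℕ} (hk : 2 ≤ k) (l : ℕ) : 0 ≤ (1 - 1 / (k : ℝ)) ^ l ∧
    (1 - 1 / (k : ℝ)) ^ l ≤ 1 ∧ 1 - (1 - 1 / (k : ℝ)) ^ l ≤ l / k := by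
  have hk' : (2 : ℝ) ≤ k := by exact_mod_cast hk
  have h1 : 1 / (k : ℝ) ≤ 1 / 2 := by
    apply one_div_le_one_div_of_le (by norm_num) hk'
  have h0 : 0 ≤ 1 / (k : ℝ) := by positivity
  have hb : 0 ≤ 1 - 1 / (k : ℝ) := by linarith
  refine ⟨pow_nonneg hb l, pow_le_one₀ hb (by linarith), ?_⟩
  have := one_add_mul_le_pow (a := -(1 / (k : ℝ))) (by linarith) l
  have h2 : (1 + -(1 / (k : ℝ))) ^ l = (1 - 1 / (k : ℝ)) ^ l := by
    rw [← sub_eq_add_neg]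
  rw [h2] at this
  have h3 : (l : ℝ) * -(1 / (k : ℝ)) = -(l / k) := by ring
  rw [h3] at this
  linarith

private theorem a14E_ge {k : ℕ} (hk : 2 ≤ k) (l : ℕ) : (k : ℝ) * (l + 2) ≤ a14E k l := by
  obtain ⟨h0, h1, h2⟩ := a14_rho hk l
  have hk' : (2 : ℝ) ≤ k := by exact_mod_cast hk
  have hk0 : (0 : ℝ) < k := by linarith
  unfold a14E
  have h3 : (k : ℝ) * (k + 1) / 2 * (1 - (1 - 1 / (k : ℝ)) ^ l) ≤
      (k : ℝ) * (k + 1) / 2 * (l / k) := by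
    apply mul_le_mul_of_nonneg_left h2 (by positivity)
  have h4 : (k : ℝ) * (k + 1) / 2 * (l / k) = (k + 1) / 2 * l := by
    field_simp
  have h5 : ((k : ℝ) + 1) / 2 * l ≤ k * l := by
    apply mul_le_mul_of_nonneg_right _ (Nat.cast_nonneg l)
    linarith
  rw [h4] at h3
  nlinarith [h3, h5]

/-- The exact identity of exponents. -/
private theorem a14E_succ {k : ℕ} (hk : 2 ≤ k) (l : ℕ) :
    (k : ℝ) + a14E k l + ((k : ℝ) * (k - 1) / 2 +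
      (k : ℝ) * (k + 1) / 2 * (1 - (1 - 1 / (k : ℝ)) ^ l)) / k = a14E k (l + 1) := by
  have hk' : (2 : ℝ) ≤ k := by exact_mod_cast hk
  have hk0 : (k : ℝ) ≠ 0 := by linarith
  unfold a14E
  rw [pow_succ]
  push_cast
  generalize (1 - 1 / (k : ℝ)) ^ l = r
  field_simp
  ring

private theorem a14_cast (k : ℕ) (hk : 1 ≤ k) : ((k * (k - 1) / 2 : ℕ) : ℝ) = (k : ℝ) * (k - 1) / 2 := by
  have h : 2 * (k * (k - 1) / 2) = k * (k - 1) :=
    Nat.mul_div_cancel' (even_iff_two_dvd.1 (Nat.even_mul_pred_self k))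
  have h' : (2 : ℝ) * ((k * (k - 1) / 2 : ℕ) : ℝ) = (k : ℝ) * ((k - 1 : ℕ) : ℝ) := by
    exact_mod_cast h
  rw [Nat.cast_sub hk] at h'
  push_cast at h' ⊢
  linarith

/-- The case of small `P`. -/
private theorem a14_small {C : ℝ} (hC : 1 ≤ C) {k l P : ℕ} (hk : 2 ≤ k) (hP : 1 ≤ P)
    (hlt : (P : ℝ) < (C * (k : ℝ) ^ 6) ^ k) :
    (J k (k * (l + 2)) P : ℝ) ≤ Real.exp ((C + 10) * (k : ℝ) ^ 3 * (l + 2)) *
      (P : ℝ) ^ a14E k (l + 1) := by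
  obtain ⟨h0, h1, h2⟩ := a14_rho hk (l + 1)
  have hk' : (2 : ℝ) ≤ k := by exact_mod_cast hk
  have hk0 : (0 : ℝ) < k := by linarith
  have hP1 : (1 : ℝ) ≤ P := by exact_mod_cast hP
  have hP0 : (0 : ℝ) < P := by linarith
  have hJ : (J k (k * (l + 2)) P : ℝ) ≤ (P : ℝ) ^ (2 * (k * (l + 2))) := by
    exact_mod_cast J_trivial k (k * (l + 2)) P
  have hexp : ((2 * (k * (l + 2)) : ℕ) : ℝ) = (k : ℝ) * (k + 1) / 2 *
      (1 - (1 - 1 / (k : ℝ)) ^ (l + 1)) + a14E k (l + 1) := by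
    unfold a14E
    push_cast
    ring
  have hB : (1 : ℝ) ≤ C * (k : ℝ) ^ 6 := by
    have : (1 : ℝ) ≤ (k : ℝ) ^ 6 := one_le_pow₀ (by linarith)
    nlinarith
  have hlog : Real.log (C * (k : ℝ) ^ 6) ≤ (C + 6) * k := by
    rw [Real.log_mul (by linarith) (by positivity), Real.log_pow]
    have e1 : Real.log C ≤ C := (Real.log_le_sub_one_of_pos (by linarith)).trans (by linarith)
    have e2 : Real.log k ≤ k := (Real.log_le_sub_one_of_pos hk0).trans (by linarith)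
    push_cast
    nlinarith
  have hlogP : Real.log P ≤ k * ((C + 6) * k) := by
    have e1 : Real.log P ≤ Real.log ((C * (k : ℝ) ^ 6) ^ k) :=
      Real.log_le_log hP0 hlt.le
    rw [Real.log_pow] at e1
    exact e1.trans (mul_le_mul_of_nonneg_left hlog hk0.le)
  have hlogP0 : 0 ≤ Real.log P := Real.log_nonneg hP1
  have hmain : (P : ℝ) ^ ((k : ℝ) * (k + 1) / 2 * (1 - (1 - 1 / (k : ℝ)) ^ (l + 1))) ≤
      Real.exp ((C + 10) * (k : ℝ) ^ 3 * (l + 2)) := by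
    rw [Real.rpow_def_of_pos hP0]
    apply Real.exp_le_exp.2
    have e1 : (k : ℝ) * (k + 1) / 2 * (1 - (1 - 1 / (k : ℝ)) ^ (l + 1)) ≤
        (k : ℝ) * (k + 1) / 2 * (((l + 1 : ℕ) : ℝ) / k) :=
      mul_le_mul_of_nonneg_left h2 (by positivity)
    have e2 : (k : ℝ) * (k + 1) / 2 * (((l + 1 : ℕ) : ℝ) / k) = (k + 1) / 2 * (l + 1) := by
      push_cast
      field_simp
    have e3 : ((k : ℝ) + 1) / 2 * (l + 1) ≤ k * (l + 1) := by
      apply mul_le_mul_of_nonneg_right _ (by positivity)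
      linarith
    have e4 : (k : ℝ) * (k + 1) / 2 * (1 - (1 - 1 / (k : ℝ)) ^ (l + 1)) ≤ k * (l + 1) := by
      linarith
    calc Real.log P * ((k : ℝ) * (k + 1) / 2 * (1 - (1 - 1 / (k : ℝ)) ^ (l + 1)))
        ≤ Real.log P * (k * (l + 1)) := mul_le_mul_of_nonneg_left e4 hlogP0
      _ ≤ (k * ((C + 6) * k)) * (k * (l + 1)) :=
          mul_le_mul_of_nonneg_right hlogP (by positivity)
      _ = (C + 6) * (k : ℝ) ^ 3 * (l + 1) := by ring
      _ ≤ (C + 10) * (k : ℝ) ^ 3 * (l + 2) := by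
          apply mul_le_mul _ (by linarith) (by positivity) (by positivity)
          apply mul_le_mul_of_nonneg_right (by linarith) (by positivity)
  calc (J k (k * (l + 2)) P : ℝ) ≤ (P : ℝ) ^ (2 * (k * (l + 2))) := hJ
    _ = (P : ℝ) ^ ((2 * (k * (l + 2)) : ℕ) : ℝ) := (Real.rpow_natCast _ _).symm
    _ = (P : ℝ) ^ ((k : ℝ) * (k + 1) / 2 * (1 - (1 - 1 / (k : ℝ)) ^ (l + 1))) *
        (P : ℝ) ^ a14E k (l + 1) := by rw [hexp, Real.rpow_add hP0]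
    _ ≤ Real.exp ((C + 10) * (k : ℝ) ^ 3 * (l + 2)) * (P : ℝ) ^ a14E k (l + 1) :=
        mul_le_mul_of_nonneg_right hmain (Real.rpow_nonneg hP0.le _)

/-- The main computation for large `P`. -/
private theorem a14_large {C : ℝ} (hC : 1 ≤ C) {k l P p : ℕ} (hk : 2 ≤ k) (hl : l + 1 ≤ 8 * k)
    (hP : 16 ≤ P) (hp : p.Prime) (hpP : (p : ℝ) ≤ 4 * (P : ℝ) ^ (1 / (k : ℝ))) {Jv : ℝ}
    (hJv : Jv ≤ Real.exp ((C + 10) * (k : ℝ) ^ 3 * (l + 1)) *
      (((P / p + 1 : ℕ) : ℝ)) ^ a14E k l) :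
    Real.exp (C * (k : ℝ) ^ 3) * ((P : ℝ) ^ (2 * k - 2) +
        (P : ℝ) ^ k * (p : ℝ) ^ (2 * (k * (l + 1)) + k * (k - 1) / 2) * Jv) ≤
      Real.exp ((C + 10) * (k : ℝ) ^ 3 * (l + 2)) * (P : ℝ) ^ a14E k (l + 1) := by
  obtain ⟨h0, h1, h2⟩ := a14_rho hk l
  have hk' : (2 : ℝ) ≤ k := by exact_mod_cast hk
  have hk0 : (0 : ℝ) < k := by linarith
  have hP16 : (16 : ℝ) ≤ P := by exact_mod_cast hP
  have hP1 : (1 : ℝ) ≤ P := by linarith
  have hP0 : (0 : ℝ) < P := by linarith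
  have hp0 : (0 : ℝ) < p := by exact_mod_cast hp.pos
  have hp1 : (1 : ℝ) ≤ p := by exact_mod_cast hp.one_lt.le
  have hlR : ((l : ℝ) + 1) ≤ 8 * k := by exact_mod_cast hl
  -- p ≤ P
  have hple : (p : ℝ) ≤ P := by
    have e1 : (P : ℝ) ^ (1 / (k : ℝ)) ≤ (P : ℝ) ^ (1 / (2 : ℝ)) := by
      apply Real.rpow_le_rpow_of_exponent_le hP1
      apply one_div_le_one_div_of_le (by norm_num) hk'
    have e2 : (P : ℝ) ^ (1 / (2 : ℝ)) = Real.sqrt P := (Real.sqrt_eq_rpow _).symm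
    have e3 : (4 : ℝ) ≤ Real.sqrt P := by
      apply Real.le_sqrt_of_sq_le
      linarith
    have e4 : Real.sqrt P * Real.sqrt P = P := Real.mul_self_sqrt hP0.le
    have e5 : 4 * Real.sqrt P ≤ P := by nlinarith [Real.sqrt_nonneg (P : ℝ)]
    rw [e2] at e1
    linarith
  have hE0 : 0 ≤ a14E k l := by
    refine le_trans ?_ (a14E_ge hk l)
    positivity
  have hE2 : a14E k l ≤ 16 * (k : ℝ) ^ 2 := by
    unfold a14E
    have : 0 ≤ (k : ℝ) * (k + 1) / 2 * (1 - (1 - 1 / (k : ℝ)) ^ l) := by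
      apply mul_nonneg (by positivity) (by linarith)
    nlinarith
  set η : ℝ := (k : ℝ) * (k - 1) / 2 + (k : ℝ) * (k + 1) / 2 * (1 - (1 - 1 / (k : ℝ)) ^ l) with hη
  have hη0 : 0 ≤ η := by
    have a1 : 0 ≤ (k : ℝ) * (k - 1) / 2 := by
      have : (0 : ℝ) ≤ k - 1 := by linarith
      positivity
    have a2 : 0 ≤ (k : ℝ) * (k + 1) / 2 * (1 - (1 - 1 / (k : ℝ)) ^ l) := by
      apply mul_nonneg (by positivity) (by linarith)
    linarith
  have hη1 : η ≤ (k : ℝ) ^ 2 := by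
    have a2 : (k : ℝ) * (k + 1) / 2 * (1 - (1 - 1 / (k : ℝ)) ^ l) ≤ (k : ℝ) * (k + 1) / 2 * 1 := by
      apply mul_le_mul_of_nonneg_left (by linarith) (by positivity)
    nlinarith
  -- the value of P / p + 1
  have hM : (((P / p + 1 : ℕ) : ℝ)) ≤ 2 * P / p := by
    have a1 : ((P / p : ℕ) : ℝ) ≤ (P : ℝ) / p := Nat.cast_div_le
    have a2 : (1 : ℝ) ≤ (P : ℝ) / p := (one_le_div hp0).2 hple
    push_cast
    have a3 : 2 * (P : ℝ) / p = P / p + P / p := by ring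
    rw [a3]
    linarith
  have hME : (((P / p + 1 : ℕ) : ℝ)) ^ a14E k l ≤
      Real.exp (16 * (k : ℝ) ^ 2) * (P : ℝ) ^ a14E k l / (p : ℝ) ^ a14E k l := by
    calc (((P / p + 1 : ℕ) : ℝ)) ^ a14E k l ≤ (2 * P / p) ^ a14E k l :=
          Real.rpow_le_rpow (Nat.cast_nonneg _) hM hE0
      _ = (2 : ℝ) ^ a14E k l * (P : ℝ) ^ a14E k l / (p : ℝ) ^ a14E k l := by
          rw [Real.div_rpow (by positivity) hp0.le, Real.mul_rpow (by norm_num) hP0.le]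
      _ ≤ Real.exp (16 * (k : ℝ) ^ 2) * (P : ℝ) ^ a14E k l / (p : ℝ) ^ a14E k l := by
          apply div_le_div_of_nonneg_right _ (Real.rpow_nonneg hp0.le _)
          apply mul_le_mul_of_nonneg_right _ (Real.rpow_nonneg hP0.le _)
          calc (2 : ℝ) ^ a14E k l ≤ (Real.exp 1) ^ a14E k l :=
                Real.rpow_le_rpow (by norm_num) (by linarith [Real.add_one_le_exp (1 : ℝ)]) hE0
            _ = Real.exp (a14E k l) := by rw [← Real.exp_mul, one_mul]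
            _ ≤ Real.exp (16 * (k : ℝ) ^ 2) := Real.exp_le_exp.2 hE2
  -- the power of p
  have hpn : (p : ℝ) ^ (2 * (k * (l + 1)) + k * (k - 1) / 2) / (p : ℝ) ^ a14E k l =
      (p : ℝ) ^ η := by
    rw [← Real.rpow_natCast, ← Real.rpow_sub hp0]
    congr 1
    rw [Nat.cast_add, a14_cast k (by omega), hη]
    unfold a14E
    push_cast
    ring
  have hpη : (p : ℝ) ^ η ≤ Real.exp (2 * (k : ℝ) ^ 2) * (P : ℝ) ^ (η / k) := by
    calc (p : ℝ) ^ η ≤ (4 * (P : ℝ) ^ (1 / (k : ℝ))) ^ η := Real.rpow_le_rpow hp0.le hpP hη0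
      _ = (4 : ℝ) ^ η * (P : ℝ) ^ (η / k) := by
          rw [Real.mul_rpow (by norm_num) (Real.rpow_nonneg hP0.le _), ← Real.rpow_mul hP0.le]
          congr 2
          ring
      _ ≤ Real.exp (2 * (k : ℝ) ^ 2) * (P : ℝ) ^ (η / k) := by
          apply mul_le_mul_of_nonneg_right _ (Real.rpow_nonneg hP0.le _)
          have b1 : (4 : ℝ) ≤ Real.exp 2 := by
            have c1 : (2 : ℝ) ≤ Real.exp 1 := by linarith [Real.add_one_le_exp (1 : ℝ)]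
            have c2 : Real.exp 2 = Real.exp 1 * Real.exp 1 := by
              rw [← Real.exp_add]
              norm_num
            rw [c2]
            nlinarith
          calc (4 : ℝ) ^ η ≤ (Real.exp 2) ^ η := Real.rpow_le_rpow (by norm_num) b1 hη0
            _ = Real.exp (2 * η) := by rw [← Real.exp_mul]
            _ ≤ Real.exp (2 * (k : ℝ) ^ 2) := Real.exp_le_exp.2 (by linarith)
  -- the second summand
  have hsec : (P : ℝ) ^ k * (p : ℝ) ^ (2 * (k * (l + 1)) + k * (k - 1) / 2) * Jv ≤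
      Real.exp ((C + 10) * (k : ℝ) ^ 3 * (l + 1) + 18 * (k : ℝ) ^ 2) *
        (P : ℝ) ^ a14E k (l + 1) := by
    have hpos : 0 ≤ (P : ℝ) ^ k * (p : ℝ) ^ (2 * (k * (l + 1)) + k * (k - 1) / 2) := by positivity
    calc (P : ℝ) ^ k * (p : ℝ) ^ (2 * (k * (l + 1)) + k * (k - 1) / 2) * Jv
        ≤ (P : ℝ) ^ k * (p : ℝ) ^ (2 * (k * (l + 1)) + k * (k - 1) / 2) *
          (Real.exp ((C + 10) * (k : ℝ) ^ 3 * (l + 1)) *
            (Real.exp (16 * (k : ℝ) ^ 2) * (P : ℝ) ^ a14E k l / (p : ℝ) ^ a14E k l)) := by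
          apply mul_le_mul_of_nonneg_left _ hpos
          exact hJv.trans (mul_le_mul_of_nonneg_left hME (Real.exp_pos _).le)
      _ = Real.exp ((C + 10) * (k : ℝ) ^ 3 * (l + 1)) * Real.exp (16 * (k : ℝ) ^ 2) *
          ((P : ℝ) ^ k * (P : ℝ) ^ a14E k l) *
            ((p : ℝ) ^ (2 * (k * (l + 1)) + k * (k - 1) / 2) / (p : ℝ) ^ a14E k l) := by
          ring
      _ ≤ Real.exp ((C + 10) * (k : ℝ) ^ 3 * (l + 1)) * Real.exp (16 * (k : ℝ) ^ 2) *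
          ((P : ℝ) ^ k * (P : ℝ) ^ a14E k l) *
            (Real.exp (2 * (k : ℝ) ^ 2) * (P : ℝ) ^ (η / k)) := by
          rw [hpn]
          apply mul_le_mul_of_nonneg_left hpη
          positivity
      _ = (Real.exp ((C + 10) * (k : ℝ) ^ 3 * (l + 1)) * Real.exp (16 * (k : ℝ) ^ 2) *
          Real.exp (2 * (k : ℝ) ^ 2)) *
          ((P : ℝ) ^ (k : ℝ) * (P : ℝ) ^ a14E k l * (P : ℝ) ^ (η / k)) := by
          rw [Real.rpow_natCast]
          ring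
      _ = Real.exp ((C + 10) * (k : ℝ) ^ 3 * (l + 1) + 18 * (k : ℝ) ^ 2) *
          (P : ℝ) ^ a14E k (l + 1) := by
          rw [← Real.exp_add, ← Real.exp_add, ← Real.rpow_add hP0, ← Real.rpow_add hP0,
            a14E_succ hk l]
          congr 2
          ring
  -- the first summand
  have hfir : (P : ℝ) ^ (2 * k - 2) ≤
      Real.exp ((C + 10) * (k : ℝ) ^ 3 * (l + 1) + 18 * (k : ℝ) ^ 2) *
        (P : ℝ) ^ a14E k (l + 1) := by
    have a1 : (P : ℝ) ^ (2 * k - 2) ≤ (P : ℝ) ^ a14E k (l + 1) := by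
      rw [← Real.rpow_natCast]
      apply Real.rpow_le_rpow_of_exponent_le hP1
      have b1 := a14E_ge hk (l + 1)
      have b2 : ((2 * k - 2 : ℕ) : ℝ) ≤ 2 * k := by
        have : (2 * k - 2 : ℕ) ≤ 2 * k := Nat.sub_le _ _
        exact_mod_cast this
      push_cast at b1
      have b3 : (0 : ℝ) ≤ k * l := by positivity
      nlinarith
    have a2 : (1 : ℝ) ≤ Real.exp ((C + 10) * (k : ℝ) ^ 3 * (l + 1) + 18 * (k : ℝ) ^ 2) := by
      apply Real.one_le_exp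
      positivity
    calc (P : ℝ) ^ (2 * k - 2) ≤ 1 * (P : ℝ) ^ a14E k (l + 1) := by rw [one_mul]; exact a1
      _ ≤ _ := mul_le_mul_of_nonneg_right a2 (Real.rpow_nonneg hP0.le _)
  have hk2 : 18 * (k : ℝ) ^ 2 ≤ 9 * (k : ℝ) ^ 3 := by
    have : (k : ℝ) ^ 3 = k * (k : ℝ) ^ 2 := by ring
    nlinarith [sq_nonneg (k : ℝ)]
  have hk3 : (1 : ℝ) ≤ (k : ℝ) ^ 3 := one_le_pow₀ (by linarith)
  calc Real.exp (C * (k : ℝ) ^ 3) * ((P : ℝ) ^ (2 * k - 2) +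
        (P : ℝ) ^ k * (p : ℝ) ^ (2 * (k * (l + 1)) + k * (k - 1) / 2) * Jv)
      ≤ Real.exp (C * (k : ℝ) ^ 3) *
        (2 * (Real.exp ((C + 10) * (k : ℝ) ^ 3 * (l + 1) + 18 * (k : ℝ) ^ 2) *
          (P : ℝ) ^ a14E k (l + 1))) := by
        apply mul_le_mul_of_nonneg_left _ (Real.exp_pos _).le
        linarith
    _ ≤ Real.exp (C * (k : ℝ) ^ 3) *
        (Real.exp 1 * (Real.exp ((C + 10) * (k : ℝ) ^ 3 * (l + 1) + 18 * (k : ℝ) ^ 2) *
          (P : ℝ) ^ a14E k (l + 1))) := by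
        apply mul_le_mul_of_nonneg_left _ (Real.exp_pos _).le
        apply mul_le_mul_of_nonneg_right _ (by positivity)
        linarith [Real.add_one_le_exp (1 : ℝ)]
    _ = Real.exp (C * (k : ℝ) ^ 3 + 1 + ((C + 10) * (k : ℝ) ^ 3 * (l + 1) +
          18 * (k : ℝ) ^ 2)) * (P : ℝ) ^ a14E k (l + 1) := by
        have hx : ∀ x y : ℝ, Real.exp (x + 1 + y) = Real.exp x * (Real.exp 1 * Real.exp y) := by
          intro x y
          rw [Real.exp_add, Real.exp_add, mul_assoc]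
        rw [hx]
        ring
    _ ≤ Real.exp ((C + 10) * (k : ℝ) ^ 3 * (l + 2)) * (P : ℝ) ^ a14E k (l + 1) := by
        apply mul_le_mul_of_nonneg_right _ (Real.rpow_nonneg hP0.le _)
        apply Real.exp_le_exp.2
        nlinarith

private theorem a14_induction : ∃ C₁ : ℝ, 1 ≤ C₁ ∧ ∀ k l P : ℕ, 2 ≤ k → l ≤ 8 * k → 1 ≤ P →
    (J k (k * (l + 1)) P : ℝ) ≤ Real.exp (C₁ * (k : ℝ) ^ 3 * (l + 1)) *
      (P : ℝ) ^ a14E k l := by
  obtain ⟨C, hC, hstep⟩ := vmvt_step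
  refine ⟨C + 10, by linarith, ?_⟩
  intro k l
  induction l with
  | zero =>
    intro P hk _ hP
    have hP1 : (1 : ℝ) ≤ P := by exact_mod_cast hP
    have hJ : (J k (k * (0 + 1)) P : ℝ) ≤ (P : ℝ) ^ (2 * (k * (0 + 1))) := by
      exact_mod_cast J_trivial k (k * (0 + 1)) P
    have hE : a14E k 0 = ((2 * (k * (0 + 1)) : ℕ) : ℝ) := by
      unfold a14E
      push_cast
      ring
    rw [hE, Real.rpow_natCast]
    have a2 : (1 : ℝ) ≤ Real.exp ((C + 10) * (k : ℝ) ^ 3 * ((0 : ℕ) + 1)) := by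
      apply Real.one_le_exp
      positivity
    calc (J k (k * (0 + 1)) P : ℝ) ≤ 1 * (P : ℝ) ^ (2 * (k * (0 + 1))) := by
          rw [one_mul]; exact hJ
      _ ≤ _ := mul_le_mul_of_nonneg_right a2 (by positivity)
  | succ l ih =>
    intro P hk hl hP
    have hcast : (((l + 1 : ℕ) : ℝ) + 1) = (l : ℝ) + 2 := by push_cast; ring
    rw [hcast]
    by_cases hlt : (P : ℝ) < (C * (k : ℝ) ^ 6) ^ k
    · exact a14_small hC hk hP hlt
    · push Not at hlt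
      have hk' : (2 : ℝ) ≤ k := by exact_mod_cast hk
      have hs1 : 1 ≤ k * (l + 1) := Nat.mul_pos (by omega) (by omega)
      have hs2 : k * (l + 1) ≤ 9 * k ^ 2 := by
        have : k * (l + 1) ≤ k * (8 * k) := Nat.mul_le_mul_left k (by omega)
        nlinarith
      obtain ⟨p, hp, -, hpP, hJ⟩ := hstep k (k * (l + 1)) P hk hs1 hs2 hlt
      have hP16 : 16 ≤ P := by
        have e1 : (64 : ℝ) ≤ C * (k : ℝ) ^ 6 := by
          have : (64 : ℝ) ≤ (k : ℝ) ^ 6 := by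
            calc (64 : ℝ) = 2 ^ 6 := by norm_num
              _ ≤ (k : ℝ) ^ 6 := pow_le_pow_left₀ (by norm_num) hk' 6
          nlinarith
        have e2 : C * (k : ℝ) ^ 6 ≤ (C * (k : ℝ) ^ 6) ^ k :=
          le_self_pow₀ (by linarith) (by omega)
        have e3 : (16 : ℝ) ≤ P := by linarith
        exact_mod_cast e3
      have hks : k + k * (l + 1) = k * (l + 1 + 1) := by ring
      rw [hks] at hJ
      refine hJ.trans ?_
      exact a14_large hC hk (by omega) hP16 hp hpP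
        (ih (P / p + 1) hk (by omega) (Nat.le_add_left 1 _))

/-- Induction on `l`. Put `κ = k(k+1)/2`, `ρ = (1 - 1/k)^l`, `E_l = 2k(l+1) - κ(1 - ρ)`.
Claim: `J k (k(l+1)) P ≤ exp(C₁ k^3 (l+1)) P^(E_l)` for all `P ≥ 1`, `l ≤ 8k`, with an absolute `C₁`
large in terms of the `C` of `vmvt_step`.
`l = 0`: `E_0 = 2k`, `J_trivial`.
Step `l → l+1`, `s = k(l+1) ≤ 9k^2`, `ρ' = ρ(1 - 1/k)`:
(i) `P < P₁ = (C k^6)^k`: `J ≤ P^(2k(l+2)) = P^(E_(l+1)) P^(κ(1-ρ'))`, and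
`κ(1 - ρ') ≤ κ(l+1)/k` (Bernoulli: `ρ' = (1-1/k)^(l+1) ≥ 1 - (l+1)/k`), so
`P^(κ(1-ρ')) ≤ exp(κ (l+1) log(C k^6)) ≤ exp(C₁ k^3 (l+2))`.
(ii) `P ≥ P₁`: `vmvt_step`, `P/p + 1 ≤ 2P/p` in the reals (`p ≤ 4P^(1/k) ≤ P` as `k ≥ 2` and `P ≥ 16`),
`(2P/p)^(E_l) ≤ 2^(18k^2) (P/p)^(E_l)`; the exponent of `p` is
`2s + k(k-1)/2 - E_l = κ(1-ρ) + k(k-1)/2 ∈ [0, k^2]`, so `p^... ≤ 4^(k^2) P^((κ(1-ρ) + k(k-1)/2)/k)`, and
`k + E_l + (κ(1-ρ) + k(k-1)/2)/k = E_(l+1)` EXACTLY (`κ/k = (k+1)/2`). Finally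
`P^(2k-2) ≤ P^(E_(l+1))` because `E_(l+1) ≥ 2k(l+2) - (k+1)(l+1)/2 ≥ 2k - 2` (Bernoulli again).
(`k (k-1)/2` natural number division is exact.) -/
theorem vmvt_induction : ∃ C₁ : ℝ, 1 ≤ C₁ ∧ ∀ k l P : ℕ, 2 ≤ k → l ≤ 8 * k → 1 ≤ P →
    (J k (k * (l + 1)) P : ℝ) ≤ Real.exp (C₁ * (k : ℝ) ^ 3 * (l + 1)) *
      (P : ℝ) ^ (2 * (k : ℝ) * (l + 1) - (k : ℝ) * (k + 1) / 2 * (1 - (1 - 1 / (k : ℝ)) ^ l)) :=
  a14_induction

/-- **Vinogradov's mean value theorem.** `l = 8k`, `(1 - 1/k)^(8k) ≤ exp(-8)`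
(`Real.one_sub_le_exp_neg` or `Real.add_one_le_exp`), `8k + 1 ≤ 9k`. -/
theorem vmvt : ∃ C : ℝ, 1 ≤ C ∧ ∀ k P : ℕ, 2 ≤ k → 1 ≤ P →
    (J k (k * (8 * k + 1)) P : ℝ) ≤ Real.exp (C * (k : ℝ) ^ 4) *
      (P : ℝ) ^ (2 * (k : ℝ) * (8 * k + 1) - (k : ℝ) * (k + 1) / 2 * (1 - Real.exp (-8))) := by
  obtain ⟨C₁, hC₁, h⟩ := vmvt_induction
  refine ⟨9 * C₁, by linarith, ?_⟩
  intro k P hk hP
  have hk' : (2 : ℝ) ≤ k := by exact_mod_cast hk
  have hk0 : (0 : ℝ) < k := by linarith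
  have hP1 : (1 : ℝ) ≤ P := by exact_mod_cast hP
  have hP0 : (0 : ℝ) < P := by linarith
  have h1 := h k (8 * k) P hk le_rfl hP
  refine h1.trans ?_
  have hc : ((8 * k : ℕ) : ℝ) = 8 * (k : ℝ) := by push_cast; ring
  rw [hc]
  apply mul_le_mul _ _ (Real.rpow_nonneg hP0.le _) (Real.exp_pos _).le
  · apply Real.exp_le_exp.2
    have e1 : C₁ * (k : ℝ) ^ 3 * (8 * k + 1) ≤ C₁ * (k : ℝ) ^ 3 * (9 * k) := by
      apply mul_le_mul_of_nonneg_left (by linarith)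
      positivity
    calc C₁ * (k : ℝ) ^ 3 * (8 * k + 1) ≤ C₁ * (k : ℝ) ^ 3 * (9 * k) := e1
      _ = 9 * C₁ * (k : ℝ) ^ 4 := by ring
  · apply Real.rpow_le_rpow_of_exponent_le hP1
    have hρ : (1 - 1 / (k : ℝ)) ^ (8 * k) ≤ Real.exp (-8) := by
      have hb : 0 ≤ 1 - 1 / (k : ℝ) := by
        have : 1 / (k : ℝ) ≤ 1 / 2 := one_div_le_one_div_of_le (by norm_num) hk'
        linarith
      have e1 : 1 - 1 / (k : ℝ) ≤ Real.exp (-(1 / (k : ℝ))) := by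
        have := Real.add_one_le_exp (-(1 / (k : ℝ)))
        linarith
      calc (1 - 1 / (k : ℝ)) ^ (8 * k) ≤ (Real.exp (-(1 / (k : ℝ)))) ^ (8 * k) :=
            pow_le_pow_left₀ hb e1 _
        _ = Real.exp (-8) := by
            rw [← Real.exp_nat_mul]
            congr 1
            push_cast
            field_simp
    have : (k : ℝ) * (k + 1) / 2 * (1 - Real.exp (-8)) ≤
        (k : ℝ) * (k + 1) / 2 * (1 - (1 - 1 / (k : ℝ)) ^ (8 * k)) := by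
      apply mul_le_mul_of_nonneg_left (by linarith) (by positivity)
    linarith

end Pool.Agent.Lib.H31V
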