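import Pool.Agent.Lib.H31V.Defs

/-!
# A2: shifted count, trivial bound
-/

open Finset

namespace Pool.Agent.Lib.H31V

open Classical in
/-- the number of tuples with given power sums -/
noncomputable def a2_r (k s : ℕ) (B : Finset ℤ) (h : Fin k → ℤ) : ℕ :=
  ((tup s B).filter (fun x => ps k x = h)).card

open Classical in
theorem a2_count (k s : ℕ) (B : Finset ℤ) (H : Fin k → ℤ) :
    ((tup s B ×ˢ tup s B).filter (fun z => ps k z.1 = ps k z.2 + H)).card =
      ∑ h ∈ (tup s B).image (ps k), a2_r k s B (h + H) * a2_r k s B h := by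
  rw [Finset.card_eq_sum_card_fiberwise (f := fun z => ps k z.2) (t := (tup s B).image (ps k))]
  · refine Finset.sum_congr rfl fun h _ => ?_
    unfold a2_r
    rw [← Finset.card_product]
    congr 1
    ext z
    simp only [Finset.mem_filter, Finset.mem_product]
    constructor
    · rintro ⟨⟨⟨h1, h2⟩, h3⟩, h4⟩
      exact ⟨⟨h1, by rw [h3, h4]⟩, ⟨h2, h4⟩⟩
    · rintro ⟨⟨h1, h2⟩, ⟨h3, h4⟩⟩
      exact ⟨⟨⟨h1, h3⟩, by rw [h2, h4]⟩, h4⟩
  · intro z hz
    rw [Finset.mem_coe, Finset.mem_filter, Finset.mem_product] at hz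
    rw [Finset.mem_coe]
    exact Finset.mem_image_of_mem _ hz.1.2

open Classical in
/-- The inhomogeneous system has at most as many solutions as the homogeneous one.
Proof: with `r(h) = #{x ∈ tup s B : ps x = h}` the left side is `∑_h r(h + H) r(h)` over the finite
set of values `h = ps y`, and `r(h+H) r(h) ≤ (r(h+H)^2 + r(h)^2)/2`; both `∑_h r(h+H)^2` and
`∑_h r(h)^2` are `≤ JB` (`= JB` for the second). Formally: `2 * left ≤ JB + JB`. -/
theorem JB_shift (k s : ℕ) (B : Finset ℤ) (H : Fin k → ℤ) :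
    ((tup s B ×ˢ tup s B).filter (fun z => ps k z.1 = ps k z.2 + H)).card ≤ JB k s B := by
  have h0 : JB k s B = ∑ h ∈ (tup s B).image (ps k), a2_r k s B h * a2_r k s B h := by
    have h1 := a2_count k s B 0
    simp only [add_zero] at h1
    unfold JB
    exact h1
  rw [a2_count, h0]
  set V := (tup s B).image (ps k) with hV
  have h2 : ∑ h ∈ V, a2_r k s B (h + H) * a2_r k s B (h + H) ≤
      ∑ h ∈ V, a2_r k s B h * a2_r k s B h := by
    have h3 : ∑ h ∈ V, a2_r k s B (h + H) * a2_r k s B (h + H) =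
        ∑ h ∈ V.image (fun h => h + H), a2_r k s B h * a2_r k s B h :=
      (Finset.sum_image (f := fun h => a2_r k s B h * a2_r k s B h)
        (fun x _ y _ hxy => add_right_cancel hxy)).symm
    rw [h3]
    refine Finset.sum_le_sum_of_ne_zero fun h _ hh => ?_
    have h4 : a2_r k s B h ≠ 0 := fun h5 => hh (by rw [h5, mul_zero])
    unfold a2_r at h4
    obtain ⟨x, hx⟩ := Finset.card_ne_zero.1 h4
    rw [Finset.mem_filter] at hx
    rw [hV, ← hx.2]
    exact Finset.mem_image_of_mem _ hx.1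
  have h6 : 2 * ∑ h ∈ V, a2_r k s B (h + H) * a2_r k s B h ≤
      ∑ h ∈ V, a2_r k s B (h + H) * a2_r k s B (h + H) + ∑ h ∈ V, a2_r k s B h * a2_r k s B h := by
    rw [Finset.mul_sum, ← Finset.sum_add_distrib]
    refine Finset.sum_le_sum fun h _ => ?_
    nlinarith [two_mul_le_add_sq (a2_r k s B (h + H)) (a2_r k s B h)]
  omega

/-- `card (tup s B) = B.card ^ s`, so `JB ≤ B.card ^ (2 s)`. -/
theorem JB_trivial (k s : ℕ) (B : Finset ℤ) : JB k s B ≤ B.card ^ (2 * s) := by
  classical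
  unfold JB
  refine (Finset.card_filter_le _ _).trans (le_of_eq ?_)
  rw [Finset.card_product]
  unfold tup
  rw [Fintype.card_piFinset_const, two_mul, pow_add]

theorem J_trivial (k s P : ℕ) : J k s P ≤ P ^ (2 * s) := by
  unfold J
  refine (JB_trivial k s _).trans (le_of_eq ?_)
  rw [Int.card_Icc]
  congr 1
  omega

/-- The diagonal. -/
theorem J_pos (k s P : ℕ) (hP : 1 ≤ P) : 1 ≤ J k s P := by
  classical
  unfold J JB
  rw [Nat.succ_le_iff, Finset.card_pos]
  refine ⟨(fun _ => 1, fun _ => 1), ?_⟩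
  have h1 : (fun _ => 1 : Fin s → ℤ) ∈ tup s (Icc (1 : ℤ) P) := by
    unfold tup
    rw [Fintype.mem_piFinset]
    intro _
    rw [Finset.mem_Icc]
    constructor
    · exact le_refl _
    · exact_mod_cast hP
  rw [Finset.mem_filter, Finset.mem_product]
  exact ⟨⟨h1, h1⟩, rfl⟩

end Pool.Agent.Lib.H31V
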