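import Pool.Agent.Lib.H31V.Defs

/-!
# A3: Newton's identities determine the polynomial
-/

open Finset Polynomial

namespace Pool.Agent.Lib.H31V

private theorem A3_esymm {R : Type*} [CommRing R] (k : ℕ)
    (hk : ∀ m : ℕ, 1 ≤ m → m ≤ k → IsUnit (m : R)) (x y : Fin k → R)
    (h : ∀ j : ℕ, 1 ≤ j → j ≤ k → ∑ i, x i ^ j = ∑ i, y i ^ j) :
    ∀ m : ℕ, m ≤ k → MvPolynomial.aeval x (MvPolynomial.esymm (Fin k) R m)
      = MvPolynomial.aeval y (MvPolynomial.esymm (Fin k) R m) := by
  intro m
  induction m using Nat.strong_induction_on with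
  | _ m ih =>
    intro hm
    rcases Nat.eq_zero_or_pos m with rfl | hpos
    · simp
    · have hu := hk m hpos hm
      apply hu.mul_left_cancel
      have hps : ∀ j : ℕ, 1 ≤ j → j ≤ k → MvPolynomial.aeval x (MvPolynomial.psum (Fin k) R j)
          = MvPolynomial.aeval y (MvPolynomial.psum (Fin k) R j) := by
        intro j h1 h2
        simp only [MvPolynomial.psum, map_sum, map_pow, MvPolynomial.aeval_X]
        exact h j h1 h2
      have key : ∀ z : Fin k → R, (m : R) * MvPolynomial.aeval z (MvPolynomial.esymm (Fin k) R m)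
          = (-1) ^ (m + 1) * ∑ a ∈ antidiagonal m with a.1 < m,
            (-1) ^ a.1 * MvPolynomial.aeval z (MvPolynomial.esymm (Fin k) R a.1)
              * MvPolynomial.aeval z (MvPolynomial.psum (Fin k) R a.2) := by
        intro z
        have h1 := congrArg (MvPolynomial.aeval z) (MvPolynomial.mul_esymm_eq_sum (Fin k) R m)
        simpa only [map_mul, map_natCast, map_pow, map_neg, map_one, map_sum] using h1
      rw [key x, key y]
      congr 1
      apply Finset.sum_congr rfl
      intro a ha
      rw [Finset.mem_filter, Finset.HasAntidiagonal.mem_antidiagonal] at ha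
      obtain ⟨h1, h2⟩ := ha
      rw [ih a.1 h2 (by omega), hps a.2 (by omega) (by omega)]

/-- If the power sums of degrees `1, ..., k` of two `k`-tuples agree and `1, ..., k` are units in
`R`, then `∏ (X - x_i) = ∏ (X - y_i)`.
Proof: Newton's identities (`MvPolynomial.mul_esymm_eq_sum`:
`m * esymm m = (-1)^(m+1) ∑ (-1)^i esymm i * psum (m - i)`), evaluated with `aeval x` and `aeval y`,
give by strong induction on `m ≤ k` that the elementary symmetric functions of `x` and `y` agree
(`m` is a unit). The coefficients of `∏ (X - C (x i))` are the elementary symmetric functions up to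
sign (`Multiset.prod_X_sub_C_coeff`, `MvPolynomial.aeval_esymm_eq_multiset_esymm`, or
`Finset.prod_X_add_C_coeff`). -/
theorem prod_eq_of_psums {R : Type*} [CommRing R] (k : ℕ)
    (hk : ∀ m : ℕ, 1 ≤ m → m ≤ k → IsUnit (m : R)) (x y : Fin k → R)
    (h : ∀ j : ℕ, 1 ≤ j → j ≤ k → ∑ i, x i ^ j = ∑ i, y i ^ j) :
    ∏ i, (X - C (x i)) = ∏ i, (X - C (y i)) := by
  have key : ∀ z : Fin k → R, ∏ i, (X - C (z i)) = ∑ j ∈ Finset.range (k + 1),
      (-1) ^ j * (C (MvPolynomial.aeval z (MvPolynomial.esymm (Fin k) R j)) * X ^ (k - j)) := by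
    intro z
    have h1 := Multiset.prod_X_sub_X_eq_sum_esymm (Multiset.map z (Finset.univ : Finset (Fin k)).val)
    have h2 : Multiset.card (Multiset.map z (Finset.univ : Finset (Fin k)).val) = k := by
      simp
    rw [h2, Multiset.map_map] at h1
    simp only [MvPolynomial.aeval_esymm_eq_multiset_esymm]
    exact h1
  rw [key x, key y]
  apply Finset.sum_congr rfl
  intro j hj
  rw [Finset.mem_range] at hj
  rw [A3_esymm k hk x y h j (by omega)]

end Pool.Agent.Lib.H31V
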