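import Pool.Agent.Lib.H31V.Defs

/-!
# A4: roots that are distinct modulo the maximal ideal
-/

open Finset Polynomial

namespace Pool.Agent.Lib.H31V

/-- In a local ring: if `∏ (X - x_i) = ∏ (X - y_i)` and the differences `x_i - x_j`, `y_i - y_j`
(`i ≠ j`) are units, then `y` is a permutation of `x`.
Proof: evaluate at `y_m`: `∏_i (y_m - x_i) = 0`. At most one factor is a non-unit: if
`y_m - x_i` and `y_m - x_j` were both non-units, so would be their difference `x_j - x_i`
(`IsLocalRing.nonunits_add`). The product `0` is not a unit, so there is exactly one non-unit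
factor, `i = σ m`, the other factors are units, hence `y_m = x_(σ m)`. `σ` is injective because
`y_m - y_(m')` is a unit, so not `0`, for `m ≠ m'`; an injective self-map of `Fin k` is a
permutation. -/
theorem perm_of_prod {R : Type*} [CommRing R] [IsLocalRing R] (k : ℕ) (x y : Fin k → R)
    (hx : ∀ i j, i ≠ j → IsUnit (x i - x j)) (hy : ∀ i j, i ≠ j → IsUnit (y i - y j))
    (h : ∏ i, (X - C (x i)) = ∏ i, (X - C (y i))) :
    ∃ σ : Equiv.Perm (Fin k), ∀ i, y i = x (σ i) := by
  classical
  have key : ∀ m, ∃ i, y m = x i := by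
    intro m
    have h0 : ∏ i, (y m - x i) = 0 := by
      have h1 := congrArg (Polynomial.eval (y m)) h
      rw [Polynomial.eval_prod, Polynomial.eval_prod] at h1
      simp only [eval_sub, eval_X, eval_C] at h1
      rw [h1]
      exact Finset.prod_eq_zero (Finset.mem_univ m) (sub_self _)
    have h1 : ∃ i, ¬ IsUnit (y m - x i) := by
      by_contra hc
      push Not at hc
      have h2 : IsUnit (∏ i, (y m - x i)) :=
        Finset.prod_induction _ (fun r => IsUnit r) (fun a b ha hb => ha.mul hb) isUnit_one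
          (fun i _ => hc i)
      rw [h0] at h2
      exact not_isUnit_zero h2
    obtain ⟨i, hi⟩ := h1
    refine ⟨i, ?_⟩
    have h2 : ∀ j ∈ univ.erase i, IsUnit (y m - x j) := by
      intro j hj
      by_contra hju
      have hne := (Finset.mem_erase.mp hj).1
      have h3 : (y m - x i) ∈ nonunits R := hi
      have h4 : -(y m - x j) ∈ nonunits R := by
        intro h5
        exact hju (IsUnit.neg_iff _ |>.mp h5)
      have h5 := IsLocalRing.nonunits_add h3 h4
      have h6 : (y m - x i) + -(y m - x j) = x j - x i := by ring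
      rw [h6] at h5
      exact h5 (hx j i hne)
    have h3 : IsUnit (∏ j ∈ univ.erase i, (y m - x j)) :=
      Finset.prod_induction _ (fun r => IsUnit r) (fun a b ha hb => ha.mul hb) isUnit_one h2
    rw [← Finset.mul_prod_erase univ _ (mem_univ i)] at h0
    have h4 := (h3.mul_left_eq_zero).mp h0
    exact sub_eq_zero.mp h4
  choose σ hσ using key
  have hinj : Function.Injective σ := by
    intro a b hab
    by_contra hne
    have h1 := hy a b hne
    rw [hσ a, hσ b, hab, sub_self] at h1
    exact not_isUnit_zero h1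
  exact ⟨Equiv.ofBijective σ (Finite.injective_iff_bijective.mp hinj), hσ⟩

/-- `ZMod (p ^ m)` is local for `m ≥ 1` (non-units = multiples of `p`; e.g. via
`IsLocalRing.of_nonunits_add`, `ZMod.isUnit_iff_coprime`, `Nat.Coprime` with `p ^ m`). -/
theorem isLocalRing_zmod (p m : ℕ) (hp : p.Prime) (hm : 1 ≤ m) : IsLocalRing (ZMod (p ^ m)) := by
  have h1 : 1 < p ^ m := Nat.one_lt_pow (by omega) hp.one_lt
  have hf : Fact (1 < p ^ m) := ⟨h1⟩
  have hne : NeZero (p ^ m) := ⟨by omega⟩
  have hdvd : ∀ a : ZMod (p ^ m), a ∈ nonunits (ZMod (p ^ m)) → p ∣ a.val := by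
    intro a ha
    by_contra hc
    have h2 : Nat.Coprime a.val (p ^ m) :=
      Nat.Coprime.pow_right m ((Nat.Prime.coprime_iff_not_dvd hp).mpr hc).symm
    have h3 := (ZMod.isUnit_iff_coprime a.val (p ^ m)).mpr h2
    rw [ZMod.natCast_zmod_val] at h3
    exact ha h3
  refine IsLocalRing.of_nonunits_add ?_
  intro a b ha hb hab
  have h2 : ((a.val + b.val : ℕ) : ZMod (p ^ m)) = a + b := by
    rw [Nat.cast_add, ZMod.natCast_zmod_val, ZMod.natCast_zmod_val]
  rw [← h2, ZMod.isUnit_iff_coprime] at hab
  have h3 : p ∣ a.val + b.val := Nat.dvd_add (hdvd a ha) (hdvd b hb)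
  have h4 : p ∣ p ^ m := dvd_pow_self p (by omega)
  have h5 : p ∣ 1 := by
    have h6 := Nat.dvd_gcd h3 h4
    rwa [hab] at h6
  exact hp.one_lt.ne' (Nat.dvd_one.mp h5)

/-- An integer not divisible by `p` is a unit modulo `p ^ m`. -/
theorem isUnit_zmod (p m : ℕ) (hp : p.Prime) (a : ℤ) (ha : ¬ (p : ℤ) ∣ a) :
    IsUnit ((a : ℤ) : ZMod (p ^ m)) := by
  rw [ZMod.coe_int_isUnit_iff_isCoprime]
  push_cast
  refine IsCoprime.pow_left ?_
  exact (Prime.coprime_iff_not_dvd (Nat.prime_iff_prime_int.mp hp)).mpr ha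

end Pool.Agent.Lib.H31V
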