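import Pool.Agent.Lib.H31V.A3
import Pool.Agent.Lib.H31V.A4

/-!
# A5: Linnik's lemma, fibre over residues modulo `p ^ k`
-/

open Finset

namespace Pool.Agent.Lib.H31V

/-- Two tuples with the same shifted power sums modulo `p ^ k` are permutations of each other. -/
private theorem A5_perm (p k P : ℕ) (hp : p.Prime) (hk1 : 1 ≤ k) (hkp : k < p) (hP : P ≤ p ^ k)
    (a : ℤ) (x y : Fin k → ℤ) (hx : ∀ i, x i ∈ Icc (1 : ℤ) P) (hy : ∀ i, y i ∈ Icc (1 : ℤ) P)
    (hdx : DistMod p x) (hdy : DistMod p y)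
    (h : ∀ j : Fin k, ((∑ i, (x i - a) ^ (j.val + 1) : ℤ) : ZMod (p ^ k)) =
      ((∑ i, (y i - a) ^ (j.val + 1) : ℤ) : ZMod (p ^ k))) :
    ∃ σ : Equiv.Perm (Fin k), y = fun i => x (σ i) := by
  have hloc : IsLocalRing (ZMod (p ^ k)) := isLocalRing_zmod p k hp hk1
  have hunit : ∀ (z : Fin k → ℤ), DistMod p z → ∀ i j, i ≠ j →
      IsUnit (((z i - a : ℤ) : ZMod (p ^ k)) - ((z j - a : ℤ) : ZMod (p ^ k))) := by
    intro z hz i j hij
    have h1 := isUnit_zmod p k hp (z i - z j) (hz i j hij)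
    have h2 : ((z i - a : ℤ) : ZMod (p ^ k)) - ((z j - a : ℤ) : ZMod (p ^ k)) =
        ((z i - z j : ℤ) : ZMod (p ^ k)) := by
      push_cast
      ring
    rw [h2]
    exact h1
  have hk : ∀ m : ℕ, 1 ≤ m → m ≤ k → IsUnit (m : ZMod (p ^ k)) := by
    intro m hm1 hmk
    have h1 := isUnit_zmod p k hp (m : ℤ) (by
      intro hd
      have h2 : p ∣ m := Int.natCast_dvd_natCast.1 hd
      have h3 := Nat.le_of_dvd (by omega) h2
      omega)
    rw [Int.cast_natCast] at h1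
    exact h1
  have hps : ∀ j : ℕ, 1 ≤ j → j ≤ k →
      ∑ i, ((x i - a : ℤ) : ZMod (p ^ k)) ^ j = ∑ i, ((y i - a : ℤ) : ZMod (p ^ k)) ^ j := by
    intro j hj1 hjk
    have h1 := h ⟨j - 1, by omega⟩
    have h2 : (⟨j - 1, by omega⟩ : Fin k).val + 1 = j := by
      show j - 1 + 1 = j
      omega
    rw [h2] at h1
    rw [Int.cast_sum, Int.cast_sum] at h1
    simp only [Int.cast_pow] at h1
    exact h1
  have hprod := prod_eq_of_psums k hk (fun i => ((x i - a : ℤ) : ZMod (p ^ k)))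
    (fun i => ((y i - a : ℤ) : ZMod (p ^ k))) hps
  obtain ⟨σ, hσ⟩ := perm_of_prod k (fun i => ((x i - a : ℤ) : ZMod (p ^ k)))
    (fun i => ((y i - a : ℤ) : ZMod (p ^ k))) (hunit x hdx) (hunit y hdy) hprod
  refine ⟨σ, ?_⟩
  funext i
  have h1 : ((y i - a : ℤ) : ZMod (p ^ k)) = ((x (σ i) - a : ℤ) : ZMod (p ^ k)) := hσ i
  have h2 : ((y i - x (σ i) : ℤ) : ZMod (p ^ k)) = 0 := by
    have h3 : ((y i - x (σ i) : ℤ) : ZMod (p ^ k)) =
        ((y i - a : ℤ) : ZMod (p ^ k)) - ((x (σ i) - a : ℤ) : ZMod (p ^ k)) := by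
      push_cast
      ring
    rw [h3, h1, sub_self]
  rw [ZMod.intCast_zmod_eq_zero_iff_dvd] at h2
  have h4 := mem_Icc.1 (hx (σ i))
  have h5 := mem_Icc.1 (hy i)
  have hPZ : (P : ℤ) ≤ ((p ^ k : ℕ) : ℤ) := by exact_mod_cast hP
  have h6 : |y i - x (σ i)| < ((p ^ k : ℕ) : ℤ) := by
    rw [abs_lt]
    constructor <;> linarith [h4.1, h4.2, h5.1, h5.2]
  have h7 := Int.eq_zero_of_abs_lt_dvd h2 h6
  linarith

open Classical in
/-- Given the power sums of `x - a` modulo `p ^ k`, there are at most `k!` tuples distinct mod `p`.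
Proof: `P ≤ p^k`, so reduction modulo `p^k` is injective on `[1, P]`, hence on tuples. Fix one
element `x₀` of the set (if empty, done). For every other `x` the tuples `x_i - a`, `x₀_i - a` in
`R = ZMod (p^k)` have the same power sums of degrees `1..k` and `1, ..., k` are units because
`k < p` (`isUnit_zmod`); so `prod_eq_of_psums` and `perm_of_prod` (differences are units by
`DistMod` and `isUnit_zmod`) give a permutation `σ` with `x = x₀ ∘ σ` modulo `p^k`, hence in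
integers. There are `k!` permutations. -/
theorem linnik_fibre (p k P : ℕ) (hp : p.Prime) (hk1 : 1 ≤ k) (hkp : k < p) (hP : P ≤ p ^ k) (a : ℤ)
    (h : Fin k → ZMod (p ^ k)) :
    ((tup k (Icc (1 : ℤ) P)).filter (fun x => DistMod p x ∧
      ∀ j : Fin k, ((∑ i, (x i - a) ^ (j.val + 1) : ℤ) : ZMod (p ^ k)) = h j)).card ≤
        k.factorial := by
  rcases ((tup k (Icc (1 : ℤ) P)).filter (fun x => DistMod p x ∧
      ∀ j : Fin k, ((∑ i, (x i - a) ^ (j.val + 1) : ℤ) : ZMod (p ^ k)) = h j)).eq_empty_or_nonempty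
    with he | ⟨x₀, hx₀⟩
  · rw [he, card_empty]
    exact Nat.zero_le _
  · have hsub : ((tup k (Icc (1 : ℤ) P)).filter (fun x => DistMod p x ∧
        ∀ j : Fin k, ((∑ i, (x i - a) ^ (j.val + 1) : ℤ) : ZMod (p ^ k)) = h j)) ⊆
        (univ : Finset (Equiv.Perm (Fin k))).image (fun σ => fun i => x₀ (σ i)) := by
      intro y hy
      obtain ⟨hx1, hx2, hx3⟩ := mem_filter.1 hx₀
      obtain ⟨hy1, hy2, hy3⟩ := mem_filter.1 hy
      obtain ⟨σ, hσ⟩ := A5_perm p k P hp hk1 hkp hP a x₀ y (Fintype.mem_piFinset.1 hx1)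
        (Fintype.mem_piFinset.1 hy1) hx2 hy2 (fun j => (hx3 j).trans (hy3 j).symm)
      exact mem_image.2 ⟨σ, mem_univ _, hσ.symm⟩
    refine (card_le_card hsub).trans (card_image_le.trans ?_)
    rw [card_univ, Fintype.card_perm, Fintype.card_fin]

end Pool.Agent.Lib.H31V
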