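import Pool.Agent.Lib.H31V.A5

/-!
# A5b: Linnik's lemma
-/

open Finset

namespace Pool.Agent.Lib.H31V

/-- The number of residues modulo `p^k` that are `≡ c` modulo `p^m` is `p^(k-m)` (`m ≤ k`).
Proof: the map `i ↦ c + p^m i`, `0 ≤ i < p^(k-m)`, is onto. -/
theorem lift_count (p k m : ℕ) (hp : p.Prime) (hm : m ≤ k) (c : ℤ) :
    Nat.card {h : ZMod (p ^ k) // ∃ z : ℤ, (z : ZMod (p ^ k)) = h ∧ (p : ℤ) ^ m ∣ z - c} ≤
      p ^ (k - m) := by
  have hpos : 0 < p ^ (k - m) := pow_pos hp.pos _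
  have hpk : p ^ m * p ^ (k - m) = p ^ k := by rw [← pow_add, Nat.add_sub_cancel' hm]
  have hdv : ∀ z : ℤ, (p : ℤ) ^ m ∣ z - c → ∃ i : ℕ, i < p ^ (k - m) ∧
      ((z : ℤ) : ZMod (p ^ k)) = ((c + (p : ℤ) ^ m * (i : ℤ) : ℤ) : ZMod (p ^ k)) := by
    rintro z ⟨q, hq⟩
    have hposz : (0 : ℤ) < ((p ^ (k - m) : ℕ) : ℤ) := by exact_mod_cast hpos
    have h0 : 0 ≤ q % ((p ^ (k - m) : ℕ) : ℤ) := Int.emod_nonneg _ hposz.ne'
    have h1 : q % ((p ^ (k - m) : ℕ) : ℤ) < ((p ^ (k - m) : ℕ) : ℤ) := Int.emod_lt_of_pos _ hposz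
    obtain ⟨i, hi⟩ := Int.eq_ofNat_of_zero_le h0
    refine ⟨i, ?_, ?_⟩
    · rw [hi] at h1
      exact_mod_cast h1
    · rw [ZMod.intCast_eq_intCast_iff_dvd_sub, ← hi]
      have h2 : c + (p : ℤ) ^ m * (q % ((p ^ (k - m) : ℕ) : ℤ)) - z =
          -((p : ℤ) ^ m * (q - q % ((p ^ (k - m) : ℕ) : ℤ))) := by
        have h3 : z = c + (p : ℤ) ^ m * q := by linarith
        rw [h3]
        ring
      have h4 : ((p ^ k : ℕ) : ℤ) = (p : ℤ) ^ m * ((p ^ (k - m) : ℕ) : ℤ) := by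
        rw [← hpk]
        push_cast
        ring
      rw [h2, h4, dvd_neg]
      exact mul_dvd_mul_left _ (Int.dvd_self_sub_emod)
  let g : Fin (p ^ (k - m)) →
      {h : ZMod (p ^ k) // ∃ z : ℤ, (z : ZMod (p ^ k)) = h ∧ (p : ℤ) ^ m ∣ z - c} :=
    fun i => ⟨((c + (p : ℤ) ^ m * ((i.val : ℕ) : ℤ) : ℤ) : ZMod (p ^ k)),
      c + (p : ℤ) ^ m * ((i.val : ℕ) : ℤ), rfl, by
        have h5 : c + (p : ℤ) ^ m * ((i.val : ℕ) : ℤ) - c = (p : ℤ) ^ m * ((i.val : ℕ) : ℤ) := by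
          ring
        rw [h5]
        exact dvd_mul_right _ _⟩
  have hg : Function.Surjective g := by
    rintro ⟨h, z, hzh, hz⟩
    obtain ⟨i, hi, hi2⟩ := hdv z hz
    refine ⟨⟨i, hi⟩, ?_⟩
    apply Subtype.ext
    show ((c + (p : ℤ) ^ m * ((i : ℕ) : ℤ) : ℤ) : ZMod (p ^ k)) = h
    rw [← hi2, hzh]
  calc Nat.card {h : ZMod (p ^ k) // ∃ z : ℤ, (z : ZMod (p ^ k)) = h ∧ (p : ℤ) ^ m ∣ z - c}
      ≤ Nat.card (Fin (p ^ (k - m))) := Nat.card_le_card_of_surjective g hg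
    _ = p ^ (k - m) := by rw [Nat.card_eq_fintype_card, Fintype.card_fin]

open Classical in
/-- **Linnik's lemma.** Proof: sort the tuples `x` by the vector
`h_j = ∑ (x_i - a)^(j+1) mod p^k`. By `linnik_fibre` each vector occurs at most `k!` times; the
vectors that occur satisfy `h_j ≡ c_j mod p^(j+1)`, so (`lift_count`) there are at most
`∏_{j < k} p^(k-1-j) = p^(k(k-1)/2)` of them (`Finset.card_le_mul_card_image_of_maps_to` or
`Finset.card_eq_sum_card_fiberwise`; `∑_{j<k} (k-1-j) = k(k-1)/2`: `Finset.sum_range_id`). -/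
theorem linnik (p k P : ℕ) (hp : p.Prime) (hk1 : 1 ≤ k) (hkp : k < p) (hP : P ≤ p ^ k) (a : ℤ)
    (c : Fin k → ℤ) :
    ((tup k (Icc (1 : ℤ) P)).filter (fun x => DistMod p x ∧
      ∀ j : Fin k, (p : ℤ) ^ (j.val + 1) ∣ (∑ i, (x i - a) ^ (j.val + 1)) - c j)).card ≤
        k.factorial * p ^ (k * (k - 1) / 2) := by
  have : NeZero (p ^ k) := ⟨(pow_pos hp.pos k).ne'⟩
  let T : Fin k → Finset (ZMod (p ^ k)) := fun j =>
    univ.filter (fun h => ∃ z : ℤ, (z : ZMod (p ^ k)) = h ∧ (p : ℤ) ^ (j.val + 1) ∣ z - c j)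
  let f : (Fin k → ℤ) → (Fin k → ZMod (p ^ k)) := fun x j =>
    ((∑ i, (x i - a) ^ (j.val + 1) : ℤ) : ZMod (p ^ k))
  have hT : ∀ j : Fin k, (T j).card ≤ p ^ (k - (j.val + 1)) := by
    intro j
    have h1 := lift_count p k (j.val + 1) hp (by have := j.isLt; omega) (c j)
    rw [Nat.card_eq_fintype_card, Fintype.card_subtype] at h1
    exact h1
  have hTprod : (Fintype.piFinset T).card ≤ p ^ (k * (k - 1) / 2) := by
    rw [Fintype.card_piFinset]
    calc ∏ j, (T j).card ≤ ∏ j : Fin k, p ^ (k - (j.val + 1)) :=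
          Finset.prod_le_prod (fun _ _ => Nat.zero_le _) (fun j _ => hT j)
      _ = p ^ (∑ j : Fin k, (k - (j.val + 1))) := by rw [Finset.prod_pow_eq_pow_sum]
      _ = p ^ (k * (k - 1) / 2) := by
          congr 1
          rw [Fin.sum_univ_eq_sum_range (fun j => k - (j + 1)) k, ← Finset.sum_range_id,
            ← Finset.sum_range_reflect (fun i => i) k]
          refine Finset.sum_congr rfl fun j _ => ?_
          omega
  have hmaps : ∀ x ∈ (tup k (Icc (1 : ℤ) P)).filter (fun x => DistMod p x ∧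
      ∀ j : Fin k, (p : ℤ) ^ (j.val + 1) ∣ (∑ i, (x i - a) ^ (j.val + 1)) - c j),
      f x ∈ Fintype.piFinset T := by
    intro x hx
    rw [mem_filter] at hx
    rw [Fintype.mem_piFinset]
    intro j
    rw [mem_filter]
    exact ⟨mem_univ _, ∑ i, (x i - a) ^ (j.val + 1), rfl, hx.2.2 j⟩
  have hfib : ∀ h ∈ Fintype.piFinset T, (((tup k (Icc (1 : ℤ) P)).filter (fun x => DistMod p x ∧
      ∀ j : Fin k, (p : ℤ) ^ (j.val + 1) ∣ (∑ i, (x i - a) ^ (j.val + 1)) - c j)).filter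
        (fun x => f x = h)).card ≤ k.factorial := by
    intro h _
    refine le_trans (Finset.card_le_card ?_) (linnik_fibre p k P hp hk1 hkp hP a h)
    intro x hx
    rw [mem_filter, mem_filter] at hx
    rw [mem_filter]
    exact ⟨hx.1.1, hx.1.2.1, fun j => congrFun hx.2 j⟩
  calc _ ≤ k.factorial * (Fintype.piFinset T).card :=
        Finset.card_le_mul_card_image_of_maps_to hmaps _ hfib
    _ ≤ k.factorial * p ^ (k * (k - 1) / 2) := Nat.mul_le_mul_left _ hTprod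

end Pool.Agent.Lib.H31V
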