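import Pool.Agent.Lib.H31V.Defs

/-!
# A6: Hölder's inequality for solution counts in a finite group
-/

open Finset

namespace Pool.Agent.Lib.H31V

private lemma A6_map_sum {G : Type*} [AddCommGroup G] {s : ℕ} (ψ : AddChar G ℂ)
    (v : Fin s → G) : ψ (∑ i, v i) = ∏ i, ψ (v i) := by
  induction s with
  | zero => simp
  | succ n ih =>
    rw [Fin.sum_univ_succ, Fin.prod_univ_succ, AddChar.map_add_eq_mul, ih]

private lemma A6_count {G X : Type*} [AddCommGroup G] [Fintype G] [DecidableEq G] (S : Finset X)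
    (H : X → G) :
    ((Fintype.card G : ℕ) : ℝ) * (((S ×ˢ S).filter (fun z => H z.1 = H z.2)).card : ℝ) =
      ∑ ψ : AddChar G ℂ, ‖∑ x ∈ S, ψ (H x)‖ ^ 2 := by
  have hC : (((Fintype.card G : ℕ) : ℝ) *
      (((S ×ˢ S).filter (fun z => H z.1 = H z.2)).card : ℝ) : ℂ) =
      ((∑ ψ : AddChar G ℂ, ‖∑ x ∈ S, ψ (H x)‖ ^ 2 : ℝ) : ℂ) := by
    push_cast
    have h1 : ∀ ψ : AddChar G ℂ, ((‖∑ x ∈ S, ψ (H x)‖ : ℝ) : ℂ) ^ 2 =
        ∑ z ∈ S ×ˢ S, ψ (H z.1 - H z.2) := by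
      intro ψ
      have h2 : ((‖∑ x ∈ S, ψ (H x)‖ : ℝ) : ℂ) ^ 2 =
          (∑ x ∈ S, ψ (H x)) * (starRingEnd ℂ) (∑ x ∈ S, ψ (H x)) := by
        rw [Complex.mul_conj, Complex.normSq_eq_norm_sq]
        push_cast
        rfl
      rw [h2, map_sum, Finset.sum_mul_sum, Finset.sum_product]
      refine Finset.sum_congr rfl fun x _ => Finset.sum_congr rfl fun y _ => ?_
      rw [sub_eq_add_neg, AddChar.map_add_eq_mul, AddChar.map_neg_eq_conj]
    rw [Finset.sum_congr rfl fun ψ _ => h1 ψ, Finset.sum_comm]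
    have h3 : ∀ z ∈ S ×ˢ S, ∑ ψ : AddChar G ℂ, ψ (H z.1 - H z.2) =
        if H z.1 = H z.2 then ((Fintype.card G : ℕ) : ℂ) else 0 := by
      intro z _
      rw [AddChar.sum_apply_eq_ite]
      simp only [sub_eq_zero]
    rw [Finset.sum_congr rfl h3, ← Finset.sum_filter, Finset.sum_const, nsmul_eq_mul]
    ring
  exact_mod_cast hC

private lemma A6_factor {G α β : Type*} [AddCommGroup G] [Fintype G] [Fintype α] [DecidableEq α]
    [Fintype β] [DecidableEq β] (s : ℕ) (F : α → G) (g : β → G) (T : Finset β)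
    (ψ : AddChar G ℂ) :
    ∑ x ∈ (Finset.univ : Finset α) ×ˢ (Fintype.piFinset (fun _ : Fin s => T)),
      ψ (F x.1 + ∑ i, g (x.2 i)) = (∑ x : α, ψ (F x)) * (∑ b ∈ T, ψ (g b)) ^ s := by
  rw [Finset.sum_pow', Finset.sum_product, Finset.sum_mul_sum]
  refine Finset.sum_congr rfl fun x _ => Finset.sum_congr rfl fun u _ => ?_
  rw [AddChar.map_add_eq_mul]
  congr 1
  exact A6_map_sum ψ _

/-- Let `G` be a finite abelian group, `F : α → G`, `g : β → G` and `c : β → Fin q` a colouring.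
The number of solutions of `F x + ∑ g(u_i) = F y + ∑ g(v_i)` is at most `q^(2s-1)` times the sum
over the colours `a` of the number of solutions with all `u_i`, `v_i` of colour `a`.
Proof (Fourier analysis on `G`): for an additive character `ψ` put `A(ψ) = ∑_x ψ(F x)`,
`f(ψ) = ∑_b ψ(g b)`, `f_a(ψ)` = the part of colour `a`. By orthogonality
(`AddChar.sum_apply_eq_ite`, sum over all characters of `ψ(z)` is `card G` if `z = 0` and `0`
otherwise) `card G` times the left count is `∑_ψ |A(ψ)|^2 |f(ψ)|^(2s)` and similarly with `f_a`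
(expand the powers: `Finset.prod_univ_sum`/`Finset.sum_pow'`: `(∑_b w b)^s = ∑_(u : Fin s → β) ∏ w(u_i)`).
Finally `|f|^(2s) = |∑_a f_a|^(2s) ≤ q^(2s-1) ∑_a |f_a|^(2s)` (power mean,
`inner_le_nnorm_mul_nnorm` is not needed: `Finset.inner_mul_le_norm_mul_norm` no; use
`Finset.pow_sum_le_..`/`inner_pow`: in Mathlib `inv_mul_sum_pow..`, e.g.
`Real.pow_arith_mean_le_arith_mean_pow` or `sq_sum_le_card_mul_sum_sq` generalised:
`(∑_{a} x_a)^n ≤ card^(n-1) ∑ x_a^n` is `inner`-free: `Finset.pow_sum_le_pow_card_sub_one_mul`... any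
name; it is Jensen for `x^n`). Divide by `card G > 0`. -/
theorem holder_group {G α β : Type*} [AddCommGroup G] [Finite G] [Finite α] [Finite β]
    (q s : ℕ) (hq : 1 ≤ q) (hs : 1 ≤ s) (F : α → G) (g : β → G) (c : β → Fin q) :
    Nat.card {z : (α × (Fin s → β)) × (α × (Fin s → β)) //
        F z.1.1 + ∑ i, g (z.1.2 i) = F z.2.1 + ∑ i, g (z.2.2 i)} ≤
      q ^ (2 * s - 1) * ∑ a : Fin q, Nat.card {z : (α × (Fin s → β)) × (α × (Fin s → β)) //
        (F z.1.1 + ∑ i, g (z.1.2 i) = F z.2.1 + ∑ i, g (z.2.2 i)) ∧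
          (∀ i, c (z.1.2 i) = a) ∧ ∀ i, c (z.2.2 i) = a} := by
  classical
  have := Fintype.ofFinite G
  have := Fintype.ofFinite α
  have := Fintype.ofFinite β
  let H : α × (Fin s → β) → G := fun x => F x.1 + ∑ i, g (x.2 i)
  let S : Finset β → Finset (α × (Fin s → β)) := fun T =>
    (Finset.univ : Finset α) ×ˢ (Fintype.piFinset (fun _ : Fin s => T))
  let Ta : Fin q → Finset β := fun a => Finset.univ.filter (fun b => c b = a)
  -- left count
  have hL : Nat.card {z : (α × (Fin s → β)) × (α × (Fin s → β)) //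
        F z.1.1 + ∑ i, g (z.1.2 i) = F z.2.1 + ∑ i, g (z.2.2 i)} =
      ((S Finset.univ ×ˢ S Finset.univ).filter (fun z => H z.1 = H z.2)).card := by
    rw [Nat.card_eq_fintype_card, Fintype.card_subtype]
    refine congrArg Finset.card ?_
    ext z
    simp only [Finset.mem_filter, Finset.mem_univ, true_and, Finset.mem_product,
      Fintype.mem_piFinset, S, H, implies_true, and_self]
  have hR : ∀ a : Fin q, Nat.card {z : (α × (Fin s → β)) × (α × (Fin s → β)) //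
        (F z.1.1 + ∑ i, g (z.1.2 i) = F z.2.1 + ∑ i, g (z.2.2 i)) ∧
          (∀ i, c (z.1.2 i) = a) ∧ ∀ i, c (z.2.2 i) = a} =
      ((S (Ta a) ×ˢ S (Ta a)).filter (fun z => H z.1 = H z.2)).card := by
    intro a
    rw [Nat.card_eq_fintype_card, Fintype.card_subtype]
    congr 1
    ext z
    simp only [Finset.mem_filter, Finset.mem_univ, true_and, Finset.mem_product,
      Fintype.mem_piFinset, S, H, Ta]
    tauto
  rw [hL, Finset.sum_congr rfl fun a _ => hR a]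
  have hG : (0 : ℝ) < ((Fintype.card G : ℕ) : ℝ) := by
    exact_mod_cast Fintype.card_pos
  have key : ((Fintype.card G : ℕ) : ℝ) *
      (((S Finset.univ ×ˢ S Finset.univ).filter (fun z => H z.1 = H z.2)).card : ℝ) ≤
      ((Fintype.card G : ℕ) : ℝ) * ((q : ℝ) ^ (2 * s - 1) * ∑ a : Fin q,
        (((S (Ta a) ×ˢ S (Ta a)).filter (fun z => H z.1 = H z.2)).card : ℝ)) := by
    have e1 := A6_count (S Finset.univ) H
    have e2 : ∀ a, ((Fintype.card G : ℕ) : ℝ) *
        (((S (Ta a) ×ˢ S (Ta a)).filter (fun z => H z.1 = H z.2)).card : ℝ) =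
        ∑ ψ : AddChar G ℂ, ‖∑ x ∈ S (Ta a), ψ (H x)‖ ^ 2 := fun a => A6_count (S (Ta a)) H
    rw [e1, mul_left_comm, Finset.mul_sum, Finset.sum_congr rfl fun a _ => e2 a,
      Finset.sum_comm, Finset.mul_sum]
    refine Finset.sum_le_sum fun ψ _ => ?_
    have f1 : ∑ x ∈ S Finset.univ, ψ (H x) =
        (∑ x : α, ψ (F x)) * (∑ b : β, ψ (g b)) ^ s := A6_factor s F g Finset.univ ψ
    have f2 : ∀ a, ∑ x ∈ S (Ta a), ψ (H x) =
        (∑ x : α, ψ (F x)) * (∑ b ∈ Ta a, ψ (g b)) ^ s := fun a => A6_factor s F g (Ta a) ψ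
    rw [f1]
    simp only [f2]
    have f3 : ∑ b : β, ψ (g b) = ∑ a : Fin q, ∑ b ∈ Ta a, ψ (g b) :=
      (Finset.sum_fiberwise Finset.univ c (fun b => ψ (g b))).symm
    rw [f3]
    simp only [norm_mul, norm_pow, mul_pow]
    rw [← Finset.mul_sum, mul_left_comm]
    refine mul_le_mul_of_nonneg_left ?_ (by positivity)
    have f4 : ‖∑ a : Fin q, ∑ b ∈ Ta a, ψ (g b)‖ ≤ ∑ a : Fin q, ‖∑ b ∈ Ta a, ψ (g b)‖ :=
      norm_sum_le _ _
    obtain ⟨n, hn⟩ : ∃ n, 2 * s = n + 1 := ⟨2 * s - 1, by omega⟩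
    have hn' : 2 * s - 1 = n := by omega
    have f5 := pow_sum_div_card_le_sum_pow (s := (Finset.univ : Finset (Fin q)))
      (f := fun a => ‖∑ b ∈ Ta a, ψ (g b)‖) (fun a _ => norm_nonneg _) n
    rw [Finset.card_univ, Fintype.card_fin] at f5
    have hq0 : (0 : ℝ) < (q : ℝ) ^ n := by
      have : (0 : ℝ) < q := by exact_mod_cast hq
      positivity
    rw [div_le_iff₀ hq0] at f5
    have f6 : ∀ x : ℝ, (x ^ s) ^ 2 = x ^ (n + 1) := by
      intro x
      rw [← pow_mul, ← hn, mul_comm]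
    simp only [f6, hn']
    calc ‖∑ a : Fin q, ∑ b ∈ Ta a, ψ (g b)‖ ^ (n + 1)
        ≤ (∑ a : Fin q, ‖∑ b ∈ Ta a, ψ (g b)‖) ^ (n + 1) :=
          pow_le_pow_left₀ (norm_nonneg _) f4 _
      _ ≤ (∑ a : Fin q, ‖∑ b ∈ Ta a, ψ (g b)‖ ^ (n + 1)) * (q : ℝ) ^ n := f5
      _ = _ := by ring
  have key2 := le_of_mul_le_mul_left key hG
  exact_mod_cast key2

end Pool.Agent.Lib.H31V
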