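import Pool.Agent.Lib.H31V.A6

/-!
# A7: splitting into residue classes
-/

open Finset

namespace Pool.Agent.Lib.H31V

private theorem a7_mem {s : ℕ} {B : Finset ℤ} {x : Fin s → ℤ} :
    x ∈ tup s B ↔ ∀ i, x i ∈ B := by
  unfold tup
  exact Fintype.mem_piFinset

private theorem a7_bound (k n P : ℕ) (x : Fin n → ℤ) (hx : ∀ i, x i ∈ Icc (1 : ℤ) P)
    (j : Fin k) : 0 ≤ ps k x j ∧ ps k x j ≤ (n * P ^ k : ℕ) := by
  unfold ps
  constructor
  · refine Finset.sum_nonneg fun i _ => ?_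
    have h := Finset.mem_Icc.1 (hx i)
    exact pow_nonneg (by linarith [h.1]) _
  · have h1 : ∀ i ∈ (Finset.univ : Finset (Fin n)), x i ^ (j.val + 1) ≤ ((P ^ k : ℕ) : ℤ) := by
      intro i _
      have h := Finset.mem_Icc.1 (hx i)
      have hP : (1 : ℤ) ≤ P := h.1.trans h.2
      calc x i ^ (j.val + 1) ≤ (P : ℤ) ^ (j.val + 1) :=
            pow_le_pow_left₀ (by linarith [h.1]) h.2 _
        _ ≤ (P : ℤ) ^ k := pow_le_pow_right₀ hP j.isLt
        _ = ((P ^ k : ℕ) : ℤ) := by push_cast; rfl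
    calc ∑ i, x i ^ (j.val + 1) ≤ ∑ _i : Fin n, ((P ^ k : ℕ) : ℤ) := Finset.sum_le_sum h1
      _ = ((n * P ^ k : ℕ) : ℤ) := by
        rw [Finset.sum_const, Finset.card_univ, Fintype.card_fin]
        push_cast
        simp

private theorem a7_eq (k s P M : ℕ) (hM : M = (k + s) * P ^ k + 1)
    (x y : Fin k → ℤ) (u v : Fin s → ℤ)
    (hx : ∀ i, x i ∈ Icc (1 : ℤ) P) (hy : ∀ i, y i ∈ Icc (1 : ℤ) P)
    (hu : ∀ i, u i ∈ Icc (1 : ℤ) P) (hv : ∀ i, v i ∈ Icc (1 : ℤ) P) :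
    ((fun j : Fin k => ((ps k x j : ℤ) : ZMod M)) +
        ∑ i, (fun j : Fin k => (((u i) ^ (j.val + 1) : ℤ) : ZMod M)) =
      (fun j : Fin k => ((ps k y j : ℤ) : ZMod M)) +
        ∑ i, (fun j : Fin k => (((v i) ^ (j.val + 1) : ℤ) : ZMod M))) ↔
    ps k x + ps k u = ps k y + ps k v := by
  have key : ∀ (a : Fin k → ℤ) (b : Fin s → ℤ) (j : Fin k),
      ((fun j : Fin k => ((ps k a j : ℤ) : ZMod M)) +
        ∑ i, (fun j : Fin k => (((b i) ^ (j.val + 1) : ℤ) : ZMod M))) j =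
      (((ps k a + ps k b) j : ℤ) : ZMod M) := by
    intro a b j
    rw [Pi.add_apply, Finset.sum_apply, Pi.add_apply, Int.cast_add]
    congr 1
    unfold ps
    rw [Int.cast_sum]
  constructor
  · intro h
    funext j
    have h1 := congrFun h j
    rw [key, key] at h1
    rw [ZMod.intCast_eq_intCast_iff_dvd_sub] at h1
    have bx := a7_bound k k P x hx j
    have by' := a7_bound k k P y hy j
    have bu := a7_bound k s P u hu j
    have bv := a7_bound k s P v hv j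
    have e1 : ((k * P ^ k : ℕ) : ℤ) + ((s * P ^ k : ℕ) : ℤ) = (M : ℤ) - 1 := by
      rw [hM]
      push_cast
      ring
    have h2 : (ps k y + ps k v) j - (ps k x + ps k u) j = 0 := by
      refine Int.eq_zero_of_abs_lt_dvd h1 ?_
      rw [abs_lt]
      simp only [Pi.add_apply]
      constructor <;> linarith [bx.1, bx.2, by'.1, by'.2, bu.1, bu.2, bv.1, bv.2]
    linarith
  · intro h
    funext j
    rw [key, key, h]

/-- Proof: `holder_group` with `G = Fin k → ZMod M`, `M` larger than `2 (k + s) P^k` (so that two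
integer vectors with entries of absolute value `≤ (k+s) P^k` that agree in `G` are equal),
`α = {x ∈ tup k [1,P] : DistMod p x}`, `β = {n ∈ [1,P]}` (subtypes of finsets), `F x = ps k x` and
`g n = (n^(j+1))_j` reduced modulo `M`, `c n = n mod p` (as an element of `Fin p`), `q = p`. The
colour class `a` consists of the `n` with `p ∣ n - a`; sum over `Fin p` = sum over `range p`. -/
theorem Jp_le_sum (k s P p : ℕ) (hp : 1 ≤ p) (hs : 1 ≤ s) :
    Jp k s P p ≤ p ^ (2 * s - 1) * ∑ a ∈ range p, Jpa k s P p a := by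
  classical
  obtain ⟨M, hM⟩ : ∃ M, M = (k + s) * P ^ k + 1 := ⟨_, rfl⟩
  haveI : NeZero M := ⟨by omega⟩
  let α := {x : Fin k → ℤ // x ∈ (tup k (Icc (1 : ℤ) P)).filter (fun x => DistMod p x)}
  let β := {n : ℤ // n ∈ Icc (1 : ℤ) P}
  haveI : Finite α := inferInstance
  haveI : Finite β := inferInstance
  let F : α → (Fin k → ZMod M) := fun x j => ((ps k x.1 j : ℤ) : ZMod M)
  let g : β → (Fin k → ZMod M) := fun n j => ((n.1 ^ (j.val + 1) : ℤ) : ZMod M)
  have hp0 : (0 : ℤ) < p := by exact_mod_cast hp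
  let c : β → Fin p := fun n => ⟨(n.1 % (p : ℤ)).toNat, by
    have h1 := Int.emod_nonneg n.1 hp0.ne'
    have h2 := Int.emod_lt_of_pos n.1 hp0
    omega⟩
  have H := holder_group (G := Fin k → ZMod M) (α := α) (β := β) p s hp hs F g c
  have hα : ∀ x : α, (∀ i, x.1 i ∈ Icc (1 : ℤ) P) ∧ DistMod p x.1 := by
    intro x
    have h := Finset.mem_filter.1 x.2
    exact ⟨a7_mem.1 h.1, h.2⟩
  have hEq : ∀ (x y : α) (u v : Fin s → β),
      (F x + ∑ i, g (u i) = F y + ∑ i, g (v i)) ↔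
      (ps k x.1 + ps k (fun i => (u i).1) = ps k y.1 + ps k (fun i => (v i).1)) := by
    intro x y u v
    exact a7_eq k s P M hM x.1 y.1 (fun i => (u i).1) (fun i => (v i).1) (hα x).1 (hα y).1
      (fun i => (u i).2) (fun i => (v i).2)
  -- left side
  have hL : Jp k s P p ≤ Nat.card {z : (α × (Fin s → β)) × (α × (Fin s → β)) //
      F z.1.1 + ∑ i, g (z.1.2 i) = F z.2.1 + ∑ i, g (z.2.2 i)} := by
    unfold Jp
    rw [← Nat.card_eq_finsetCard]
    have hm : ∀ z : {z // z ∈ (((tup k (Icc (1 : ℤ) P) ×ˢ tup s (Icc (1 : ℤ) P)) ×ˢ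
        (tup k (Icc (1 : ℤ) P) ×ˢ tup s (Icc (1 : ℤ) P))).filter
        (fun z => DistMod p z.1.1 ∧ DistMod p z.2.1 ∧
        ps k z.1.1 + ps k z.1.2 = ps k z.2.1 + ps k z.2.2))},
        (z.1.1.1 ∈ (tup k (Icc (1 : ℤ) P)).filter (fun x => DistMod p x)) ∧
        (z.1.2.1 ∈ (tup k (Icc (1 : ℤ) P)).filter (fun x => DistMod p x)) ∧
        (∀ i, z.1.1.2 i ∈ Icc (1 : ℤ) P) ∧ (∀ i, z.1.2.2 i ∈ Icc (1 : ℤ) P) ∧
        ps k z.1.1.1 + ps k z.1.1.2 = ps k z.1.2.1 + ps k z.1.2.2 := by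
      intro z
      have h := z.2
      rw [Finset.mem_filter, Finset.mem_product, Finset.mem_product, Finset.mem_product] at h
      obtain ⟨⟨⟨h1, h2⟩, h3, h4⟩, h5, h6, h7⟩ := h
      exact ⟨Finset.mem_filter.2 ⟨h1, h5⟩, Finset.mem_filter.2 ⟨h3, h6⟩, a7_mem.1 h2,
        a7_mem.1 h4, h7⟩
    refine Nat.card_le_card_of_injective (fun z => ⟨((⟨z.1.1.1, (hm z).1⟩,
      fun i => ⟨z.1.1.2 i, (hm z).2.2.1 i⟩), (⟨z.1.2.1, (hm z).2.1⟩,
      fun i => ⟨z.1.2.2 i, (hm z).2.2.2.1 i⟩)), ?_⟩) ?_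
    · exact (hEq _ _ _ _).2 (hm z).2.2.2.2
    · intro z w h
      have h1 := congrArg Subtype.val h
      have h2 := congrArg Prod.fst h1
      have h3 := congrArg Prod.snd h1
      have e1 : z.1.1.1 = w.1.1.1 := congrArg Subtype.val (congrArg Prod.fst h2)
      have e2 : z.1.1.2 = w.1.1.2 := by
        funext i
        exact congrArg Subtype.val (congrFun (congrArg Prod.snd h2) i)
      have e3 : z.1.2.1 = w.1.2.1 := congrArg Subtype.val (congrArg Prod.fst h3)
      have e4 : z.1.2.2 = w.1.2.2 := by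
        funext i
        exact congrArg Subtype.val (congrFun (congrArg Prod.snd h3) i)
      exact Subtype.ext (Prod.ext (Prod.ext e1 e2) (Prod.ext e3 e4))
  -- right side
  have hR : ∀ a : Fin p, Nat.card {z : (α × (Fin s → β)) × (α × (Fin s → β)) //
      (F z.1.1 + ∑ i, g (z.1.2 i) = F z.2.1 + ∑ i, g (z.2.2 i)) ∧
        (∀ i, c (z.1.2 i) = a) ∧ ∀ i, c (z.2.2 i) = a} ≤ Jpa k s P p a := by
    intro a
    have hc : ∀ n : β, c n = a → (p : ℤ) ∣ n.1 - (a.val : ℕ) := by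
      intro n h
      have h1 : (n.1 % (p : ℤ)).toNat = a.val := congrArg Fin.val h
      have h2 := Int.emod_nonneg n.1 hp0.ne'
      have h3 : n.1 % (p : ℤ) = ((a.val : ℕ) : ℤ) := by omega
      rw [← h3]
      exact Int.dvd_self_sub_emod
    unfold Jpa
    rw [← Nat.card_eq_finsetCard]
    refine Nat.card_le_card_of_injective (fun z => ⟨((z.1.1.1.1, fun i => (z.1.1.2 i).1),
      (z.1.2.1.1, fun i => (z.1.2.2 i).1)), ?_⟩) ?_
    · obtain ⟨hz1, hz2, hz3⟩ := z.2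
      have h1 := Finset.mem_filter.1 z.1.1.1.2
      have h2 := Finset.mem_filter.1 z.1.2.1.2
      rw [Finset.mem_filter, Finset.mem_product, Finset.mem_product, Finset.mem_product]
      refine ⟨⟨⟨h1.1, ?_⟩, h2.1, ?_⟩, h1.2, h2.2, (hEq _ _ _ _).1 hz1⟩
      · exact a7_mem.2 fun i => Finset.mem_filter.2 ⟨(z.1.1.2 i).2, hc _ (hz2 i)⟩
      · exact a7_mem.2 fun i => Finset.mem_filter.2 ⟨(z.1.2.2 i).2, hc _ (hz3 i)⟩
    · intro z w h
      have h1 := congrArg Subtype.val h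
      have h2 := congrArg Prod.fst h1
      have h3 := congrArg Prod.snd h1
      have e1 : z.1.1.1 = w.1.1.1 := Subtype.ext (congrArg Prod.fst h2)
      have e2 : z.1.1.2 = w.1.1.2 := by
        funext i
        exact Subtype.ext (congrFun (congrArg Prod.snd h2) i)
      have e3 : z.1.2.1 = w.1.2.1 := Subtype.ext (congrArg Prod.fst h3)
      have e4 : z.1.2.2 = w.1.2.2 := by
        funext i
        exact Subtype.ext (congrFun (congrArg Prod.snd h3) i)
      exact Subtype.ext (Prod.ext (Prod.ext e1 e2) (Prod.ext e3 e4))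
  calc Jp k s P p ≤ _ := hL
    _ ≤ _ := H
    _ ≤ p ^ (2 * s - 1) * ∑ a : Fin p, Jpa k s P p a :=
        Nat.mul_le_mul_left _ (Finset.sum_le_sum fun a _ => hR a)
    _ = p ^ (2 * s - 1) * ∑ a ∈ range p, Jpa k s P p a := by
        rw [Finset.sum_range]

end Pool.Agent.Lib.H31V
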