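import Pool.Agent.Lib.H31V.A1
import Pool.Agent.Lib.H31V.A2
import Pool.Agent.Lib.H31V.A5b

/-!
# A8: one residue class
-/

open Finset

namespace Pool.Agent.Lib.H31V

/-- The fibre count: `x`, `y` are fixed. -/
theorem A8_fibre (k s P p : ℕ) (hp : p.Prime) (a : ℕ) (H : Fin k → ℤ)
    (F : Finset ((Fin s → ℤ) × (Fin s → ℤ)))
    (hF : ∀ z ∈ F, (∀ i, (p : ℤ) ∣ z.1 i - a ∧ 1 ≤ z.1 i ∧ z.1 i ≤ P) ∧
      (∀ i, (p : ℤ) ∣ z.2 i - a ∧ 1 ≤ z.2 i ∧ z.2 i ≤ P) ∧
      ∀ j : Fin k, ∑ i, (z.1 i - a) ^ (j.val + 1) = ∑ i, (z.2 i - a) ^ (j.val + 1) + H j) :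
    F.card ≤ J k s (P / p + 1) := by
  classical
  have hp0 : (0 : ℤ) < p := by exact_mod_cast hp.pos
  set b : ℤ := -(((a : ℤ) - 1) / p) - 1 with hb
  set B : Finset ℤ := Icc (b + 1) (b + ((P / p + 1 : ℕ) : ℤ)) with hBdef
  set H' : Fin k → ℤ := fun j => H j / (p : ℤ) ^ (j.val + 1) with hH'
  have h1 : F.card ≤ ((tup s B ×ˢ tup s B).filter (fun z => ps k z.1 = ps k z.2 + H')).card := by
    refine Finset.card_le_card_of_injOn
      (fun z => ((fun i => (z.1 i - a) / p), (fun i => (z.2 i - a) / p))) ?_ ?_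
    · intro z hz
      obtain ⟨h1, h2, h3⟩ := hF z hz
      have key : ∀ n : ℤ, (p : ℤ) ∣ n - a → 1 ≤ n → n ≤ P → (n - a) / p ∈ B := by
        intro n hn hn1 hnP
        obtain ⟨w, hw⟩ := hn
        have hw' : (n - a) / p = w := by
          rw [hw, Int.mul_ediv_cancel_left _ hp0.ne']
        rw [hw', hBdef, Finset.mem_Icc]
        have e1 : -w ≤ ((a : ℤ) - 1) / p := by
          rw [Int.le_ediv_iff_mul_le hp0]
          linarith [mul_comm (p : ℤ) w]
        have e2 : ((a : ℤ) - 1) / p * p ≤ (a : ℤ) - 1 := Int.ediv_mul_le _ hp0.ne'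
        have e3 : w + ((a : ℤ) - 1) / p ≤ (P : ℤ) / p := by
          rw [Int.le_ediv_iff_mul_le hp0, add_mul]
          linarith [mul_comm (p : ℤ) w]
        push_cast
        constructor
        · linarith
        · linarith
      simp only [Finset.coe_filter, Set.mem_setOf_eq, Finset.mem_product, tup,
        Fintype.mem_piFinset]
      refine ⟨⟨fun i => key _ (h1 i).1 (h1 i).2.1 (h1 i).2.2,
        fun i => key _ (h2 i).1 (h2 i).2.1 (h2 i).2.2⟩, ?_⟩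
      funext j
      simp only [ps, Pi.add_apply, hH']
      have e1 : ∀ n : ℤ, (p : ℤ) ∣ n - a → (n - a) ^ (j.val + 1) =
          (p : ℤ) ^ (j.val + 1) * ((n - a) / p) ^ (j.val + 1) := by
        intro n hn
        rw [← mul_pow, Int.mul_ediv_cancel' hn]
      have h4 := h3 j
      rw [Finset.sum_congr rfl fun i _ => e1 _ (h1 i).1,
        Finset.sum_congr rfl fun i _ => e1 _ (h2 i).1, ← Finset.mul_sum, ← Finset.mul_sum] at h4
      have h5 : H j = (p : ℤ) ^ (j.val + 1) * (∑ i, ((z.1 i - a) / p) ^ (j.val + 1) -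
          ∑ i, ((z.2 i - a) / p) ^ (j.val + 1)) := by
        rw [mul_sub]
        linarith
      rw [h5, Int.mul_ediv_cancel_left _ (pow_pos hp0 _).ne']
      ring
    · intro z hz w hw hzw
      obtain ⟨h1, h2, -⟩ := hF z hz
      obtain ⟨h3, h4, -⟩ := hF w hw
      simp only [Prod.mk.injEq] at hzw
      refine Prod.ext ?_ ?_
      · funext i
        have e1 := congrFun hzw.1 i
        have e2 := Int.mul_ediv_cancel' (h1 i).1
        have e3 := Int.mul_ediv_cancel' (h3 i).1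
        rw [e1, e3] at e2
        linarith
      · funext i
        have e1 := congrFun hzw.2 i
        have e2 := Int.mul_ediv_cancel' (h2 i).1
        have e3 := Int.mul_ediv_cancel' (h4 i).1
        rw [e1, e3] at e2
        linarith
  exact h1.trans ((JB_shift k s B H').trans (JB_le_J k s B b (P / p + 1) (Finset.Subset.refl _)))

/-- Proof: let `(x, u), (y, v)` be counted. By `ps_translate_two` (with `-a`) the power sums of
`x - a, u - a` and `y - a, v - a` satisfy the same equation; `u_i - a = p w_i`, `v_i - a = p w'_i`,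
so for each `j`: `∑ (x_i - a)^(j+1) - ∑ (y_i - a)^(j+1) = p^(j+1) (ps w' j - ps w j)`.
Count: choose `y` (`≤ P^k` ways); then `x` lies in the set of `linnik` with
`c_j = ∑ (y_i - a)^(j+1)`: `≤ k! p^(k(k-1)/2)` ways; given `x, y` the pair `(w, w')` satisfies
`ps w = ps w' + H` for a fixed `H` (divide by `p^(j+1)`; the set is empty unless the divisibility
holds) and the `w_i` lie in `B = {w : 1 ≤ a + p w ≤ P}`, which is contained in an interval of
`P/p + 1` consecutive integers: `≤ JB k s B ≤ J k s (P/p + 1)` pairs (`JB_shift`, `JB_le_J`). -/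
theorem Jpa_le (k s P p : ℕ) (hp : p.Prime) (hk1 : 1 ≤ k) (hkp : k < p) (hP : P ≤ p ^ k) (a : ℕ) :
    Jpa k s P p a ≤ P ^ k * (k.factorial * p ^ (k * (k - 1) / 2)) * J k s (P / p + 1) := by
  classical
  unfold Jpa
  set S := (((tup k (Icc (1 : ℤ) P) ×ˢ tup s ((Icc (1 : ℤ) P).filter (fun n => (p : ℤ) ∣ n - a))) ×ˢ
    (tup k (Icc (1 : ℤ) P) ×ˢ tup s ((Icc (1 : ℤ) P).filter (fun n => (p : ℤ) ∣ n - a)))).filter
      (fun z => DistMod p z.1.1 ∧ DistMod p z.2.1 ∧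
        ps k z.1.1 + ps k z.1.2 = ps k z.2.1 + ps k z.2.2)) with hS
  -- membership
  have hmem : ∀ z ∈ S, (∀ i, z.1.1 i ∈ Icc (1 : ℤ) P) ∧ (∀ i, z.2.1 i ∈ Icc (1 : ℤ) P) ∧
      (∀ i, (p : ℤ) ∣ z.1.2 i - a ∧ 1 ≤ z.1.2 i ∧ z.1.2 i ≤ P) ∧
      (∀ i, (p : ℤ) ∣ z.2.2 i - a ∧ 1 ≤ z.2.2 i ∧ z.2.2 i ≤ P) ∧
      DistMod p z.1.1 ∧
      ∀ j : Fin k, ∑ i, (z.1.1 i - a) ^ (j.val + 1) + ∑ i, (z.1.2 i - a) ^ (j.val + 1) =
        ∑ i, (z.2.1 i - a) ^ (j.val + 1) + ∑ i, (z.2.2 i - a) ^ (j.val + 1) := by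
    intro z hz
    rw [hS, Finset.mem_filter] at hz
    simp only [Finset.mem_product, tup, Fintype.mem_piFinset, Finset.mem_filter,
      Finset.mem_Icc] at hz
    obtain ⟨⟨⟨h1, h2⟩, h3, h4⟩, h5, -, h6⟩ := hz
    refine ⟨fun i => Finset.mem_Icc.2 (h1 i), fun i => Finset.mem_Icc.2 (h3 i),
      fun i => ⟨(h2 i).2, (h2 i).1⟩, fun i => ⟨(h4 i).2, (h4 i).1⟩, h5, fun j => ?_⟩
    have h7 := congrFun (ps_translate_two k z.1.1 z.2.1 z.1.2 z.2.2 (-(a : ℤ)) h6) j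
    simpa only [ps, Pi.add_apply, ← sub_eq_add_neg] using h7
  set L : (Fin k → ℤ) → Finset (Fin k → ℤ) := fun y =>
    (tup k (Icc (1 : ℤ) P)).filter (fun x => DistMod p x ∧
      ∀ j : Fin k, (p : ℤ) ^ (j.val + 1) ∣ (∑ i, (x i - a) ^ (j.val + 1)) -
        ∑ i, (y i - a) ^ (j.val + 1)) with hL
  set T : Finset (Σ _ : (Fin k → ℤ), (Fin k → ℤ)) := (tup k (Icc (1 : ℤ) P)).sigma L with hT
  have hTcard : T.card ≤ P ^ k * (k.factorial * p ^ (k * (k - 1) / 2)) := by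
    rw [hT, Finset.card_sigma]
    have h1 : ∀ y ∈ tup k (Icc (1 : ℤ) P), (L y).card ≤ k.factorial * p ^ (k * (k - 1) / 2) :=
      fun y _ => linnik p k P hp hk1 hkp hP a fun j => ∑ i, (y i - a) ^ (j.val + 1)
    refine (Finset.sum_le_card_nsmul _ _ _ h1).trans ?_
    rw [smul_eq_mul]
    refine Nat.mul_le_mul_right _ (le_of_eq ?_)
    simp [tup, Fintype.card_piFinset]
  have hfib : ∀ t ∈ S.image (fun z => (⟨z.2.1, z.1.1⟩ : Σ _ : (Fin k → ℤ), (Fin k → ℤ))),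
      (S.filter (fun z => (⟨z.2.1, z.1.1⟩ : Σ _ : (Fin k → ℤ), (Fin k → ℤ)) = t)).card ≤
        J k s (P / p + 1) := by
    rintro ⟨y, x⟩ -
    have h1 : (S.filter (fun z => (⟨z.2.1, z.1.1⟩ : Σ _ : (Fin k → ℤ), (Fin k → ℤ)) =
        ⟨y, x⟩)).card = ((S.filter (fun z => (⟨z.2.1, z.1.1⟩ : Σ _ : (Fin k → ℤ), (Fin k → ℤ)) =
        ⟨y, x⟩)).image (fun z => (z.1.2, z.2.2))).card := by
      rw [Finset.card_image_of_injOn]
      intro z hz w hw hzw
      have e1 := (Finset.mem_filter.1 hz).2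
      have e2 := (Finset.mem_filter.1 hw).2
      have e3 : z.2.1 = y := congrArg Sigma.fst e1
      have e4 : w.2.1 = y := congrArg Sigma.fst e2
      have e5 : z.1.1 = x := by
        have := congrArg (fun q : (Σ _ : (Fin k → ℤ), (Fin k → ℤ)) => q.2) e1
        exact this
      have e6 : w.1.1 = x := by
        have := congrArg (fun q : (Σ _ : (Fin k → ℤ), (Fin k → ℤ)) => q.2) e2
        exact this
      simp only [Prod.mk.injEq] at hzw
      exact Prod.ext (Prod.ext (e5.trans e6.symm) hzw.1) (Prod.ext (e3.trans e4.symm) hzw.2)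
    rw [h1]
    refine A8_fibre k s P p hp a (fun j => ∑ i, (y i - a) ^ (j.val + 1) -
      ∑ i, (x i - a) ^ (j.val + 1)) _ ?_
    intro q hq
    obtain ⟨z, hz, rfl⟩ := Finset.mem_image.1 hq
    obtain ⟨hz1, hz2⟩ := Finset.mem_filter.1 hz
    have e3 : z.2.1 = y := congrArg Sigma.fst hz2
    have e5 : z.1.1 = x := by
      have := congrArg (fun q : (Σ _ : (Fin k → ℤ), (Fin k → ℤ)) => q.2) hz2
      exact this
    obtain ⟨-, -, h3, h4, -, h6⟩ := hmem z hz1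
    refine ⟨h3, h4, fun j => ?_⟩
    have h7 := h6 j
    rw [e3, e5] at h7
    linarith
  have himg : S.image (fun z => (⟨z.2.1, z.1.1⟩ : Σ _ : (Fin k → ℤ), (Fin k → ℤ))) ⊆ T := by
    intro t ht
    obtain ⟨z, hz, rfl⟩ := Finset.mem_image.1 ht
    obtain ⟨h1, h2, h3, h4, h5, h6⟩ := hmem z hz
    rw [hT, Finset.mem_sigma]
    refine ⟨Fintype.mem_piFinset.2 h2, ?_⟩
    rw [hL]
    refine Finset.mem_filter.2 ⟨Fintype.mem_piFinset.2 h1, h5, fun j => ?_⟩
    have h7 := h6 j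
    have h8 : ∀ n : Fin s → ℤ, (∀ i, (p : ℤ) ∣ n i - a) →
        (p : ℤ) ^ (j.val + 1) ∣ ∑ i, (n i - a) ^ (j.val + 1) := fun n hn =>
      Finset.dvd_sum fun i _ => pow_dvd_pow_of_dvd (hn i) _
    have h9 := dvd_sub (h8 z.2.2 fun i => (h4 i).1) (h8 z.1.2 fun i => (h3 i).1)
    have h10 : ∑ i, (z.1.1 i - (a : ℤ)) ^ (j.val + 1) - ∑ i, (z.2.1 i - (a : ℤ)) ^ (j.val + 1) =
        ∑ i, (z.2.2 i - (a : ℤ)) ^ (j.val + 1) - ∑ i, (z.1.2 i - (a : ℤ)) ^ (j.val + 1) := by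
      linarith
    rw [h10]
    exact h9
  calc S.card ≤ J k s (P / p + 1) *
        (S.image (fun z => (⟨z.2.1, z.1.1⟩ : Σ _ : (Fin k → ℤ), (Fin k → ℤ)))).card :=
        Finset.card_le_mul_card_image S _ hfib
    _ ≤ J k s (P / p + 1) * (P ^ k * (k.factorial * p ^ (k * (k - 1) / 2))) :=
        Nat.mul_le_mul_left _ ((Finset.card_le_card himg).trans hTcard)
    _ = P ^ k * (k.factorial * p ^ (k * (k - 1) / 2)) * J k s (P / p + 1) := mul_comm _ _

end Pool.Agent.Lib.H31V
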