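import Pool.Agent.Lib.H31V.A7
import Pool.Agent.Lib.H31V.A8

/-!
# A9: bound for `Jp`
-/

open Finset

namespace Pool.Agent.Lib.H31V

/-- Proof: `Jp_le_sum` and `Jpa_le`: `p^(2s-1) * (p * bound) = p^(2s) * bound`. -/
theorem Jp_le (k s P p : ℕ) (hp : p.Prime) (hk1 : 1 ≤ k) (hs : 1 ≤ s) (hkp : k < p)
    (hP : P ≤ p ^ k) :
    Jp k s P p ≤ p ^ (2 * s) * (P ^ k * (k.factorial * p ^ (k * (k - 1) / 2)) *
      J k s (P / p + 1)) := by
  have h1 := Jp_le_sum k s P p hp.pos hs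
  have h2 : ∑ a ∈ range p, Jpa k s P p a ≤
      ∑ _a ∈ range p, P ^ k * (k.factorial * p ^ (k * (k - 1) / 2)) * J k s (P / p + 1) :=
    Finset.sum_le_sum fun a _ => Jpa_le k s P p hp hk1 hkp hP a
  rw [Finset.sum_const, Finset.card_range, smul_eq_mul] at h2
  have h3 : p ^ (2 * s) = p ^ (2 * s - 1) * p := by
    rw [← pow_succ]
    congr 1
    omega
  calc Jp k s P p ≤ p ^ (2 * s - 1) * ∑ a ∈ range p, Jpa k s P p a := h1
    _ ≤ p ^ (2 * s - 1) * (p * (P ^ k * (k.factorial * p ^ (k * (k - 1) / 2)) *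
          J k s (P / p + 1))) := Nat.mul_le_mul_left _ h2
    _ = _ := by rw [h3]; ring

end Pool.Agent.Lib.H31V
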