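import Pool.Agent.Lib.H31V.Defs

/-!
# B1: powers of exponential sums and solution counts
-/

open Finset

namespace Pool.Agent.Lib.H31V

theorem e_add (x y : ℝ) : e (x + y) = e x * e y := by
  unfold e
  rw [← Complex.exp_add]
  congr 1
  push_cast
  ring

theorem norm_e (x : ℝ) : ‖e x‖ = 1 := by
  unfold e
  have h : (2 * Real.pi * x * Complex.I : ℂ) = ((2 * Real.pi * x : ℝ) : ℂ) * Complex.I := by
    push_cast
    ring
  rw [h]
  exact Complex.norm_exp_ofReal_mul_I _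

theorem b1_zero : e 0 = 1 := by
  unfold e
  simp

theorem b1_sum {ι : Type*} (s : Finset ι) (f : ι → ℝ) : e (∑ i ∈ s, f i) = ∏ i ∈ s, e (f i) := by
  classical
  induction s using Finset.induction_on with
  | empty => simp [b1_zero]
  | insert a s ha ih => rw [Finset.sum_insert ha, Finset.prod_insert ha, e_add, ih]

theorem b1_conj (x : ℝ) : (starRingEnd ℂ) (e x) = e (-x) := by
  unfold e
  rw [← Complex.exp_conj]
  congr 1
  rw [map_mul, map_mul, map_mul, Complex.conj_I, Complex.conj_ofReal, Complex.conj_ofReal,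
    map_ofNat]
  push_cast
  ring

theorem b1_int (Y : ℕ) (F : ℝ → ℂ) :
    ∑ y ∈ Icc (1 : ℤ) Y, F (y : ℝ) = ∑ y ∈ Icc 1 Y, F (y : ℝ) := by
  symm
  refine Finset.sum_bij (fun (n : ℕ) _ => (n : ℤ)) ?_ ?_ ?_ ?_
  · intro n hn
    rw [Finset.mem_Icc] at hn ⊢
    omega
  · intro a _ b _ h
    exact_mod_cast h
  · intro z hz
    rw [Finset.mem_Icc] at hz
    refine ⟨z.toNat, ?_, ?_⟩
    · rw [Finset.mem_Icc]
      omega
    · omega
  · intro n _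
    simp

theorem b1_ps {k s : ℕ} (b : Fin k → ℝ) (z : Fin s → ℤ) :
    ∏ i : Fin s, e (∑ j : Fin k, b j * ((z i : ℤ) : ℝ) ^ (j.val + 1)) =
      e (∑ j : Fin k, b j * (ps k z j : ℝ)) := by
  rw [← b1_sum, Finset.sum_comm]
  congr 1
  apply Finset.sum_congr rfl
  intro j _
  rw [← Finset.mul_sum]
  unfold ps
  push_cast
  rfl

theorem b1_tup (k s Y : ℕ) (b : Fin k → ℝ) :
    ∑ z ∈ tup s (Icc (1 : ℤ) Y), e (∑ j : Fin k, b j * (ps k z j : ℝ)) =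
      (∑ y ∈ Icc 1 Y, e (∑ j : Fin k, b j * (y : ℝ) ^ (j.val + 1))) ^ s := by
  rw [← b1_int Y (fun y => e (∑ j : Fin k, b j * y ^ (j.val + 1)))]
  have h1 : (∑ y ∈ Icc (1 : ℤ) Y, e (∑ j : Fin k, b j * (y : ℝ) ^ (j.val + 1))) ^ s =
      ∏ _i : Fin s, ∑ y ∈ Icc (1 : ℤ) Y, e (∑ j : Fin k, b j * (y : ℝ) ^ (j.val + 1)) := by
    rw [Finset.prod_const, Finset.card_univ, Fintype.card_fin]
  rw [h1, Finset.prod_univ_sum]
  unfold tup
  apply Finset.sum_congr rfl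
  intro z _
  exact (b1_ps b z).symm

/-- Expansion of the `2s`-th power. Proof: `‖g‖^(2s) = g^s * conj(g)^s`,
`g^s = ∑_(y ∈ tup s) ∏_i e(∑_j b_j y_i^(j+1)) = ∑_y e(∑_j b_j (ps k y j))` (`Finset.sum_pow'`,
`Finset.prod_univ_sum`; `Fintype.piFinset`), `conj (e x) = e (-x)`. The sum over natural numbers
`y ∈ Icc 1 Y` corresponds to the sum over integers in `Icc 1 (Y:ℤ)`. -/
theorem norm_pow_eq (k s Y : ℕ) (b : Fin k → ℝ) :
    ((‖∑ y ∈ Icc 1 Y, e (∑ j : Fin k, b j * (y : ℝ) ^ (j.val + 1))‖ ^ (2 * s) : ℝ) : ℂ) =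
      ∑ z ∈ tup s (Icc (1 : ℤ) Y) ×ˢ tup s (Icc (1 : ℤ) Y),
        e (∑ j : Fin k, b j * ((ps k z.1 j : ℝ) - (ps k z.2 j : ℝ))) := by
  obtain ⟨g, hg⟩ : ∃ g : ℂ, g = ∑ y ∈ Icc 1 Y, e (∑ j : Fin k, b j * (y : ℝ) ^ (j.val + 1)) :=
    ⟨_, rfl⟩
  have h1 : ((‖g‖ ^ (2 * s) : ℝ) : ℂ) = g ^ s * (starRingEnd ℂ g) ^ s := by
    rw [← mul_pow, Complex.mul_conj', pow_mul]
    push_cast
    rfl
  rw [← hg, h1, Finset.sum_product]
  have h2 : (starRingEnd ℂ g) ^ s =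
      ∑ z ∈ tup s (Icc (1 : ℤ) Y), e (-∑ j : Fin k, b j * (ps k z j : ℝ)) := by
    rw [← map_pow, hg, ← b1_tup, map_sum]
    apply Finset.sum_congr rfl
    intro z _
    exact b1_conj _
  rw [h2, hg, ← b1_tup, Finset.sum_mul_sum]
  apply Finset.sum_congr rfl
  intro z _
  apply Finset.sum_congr rfl
  intro w _
  rw [← e_add]
  congr 1
  rw [← sub_eq_add_neg, ← Finset.sum_sub_distrib]
  apply Finset.sum_congr rfl
  intro j _
  ring

end Pool.Agent.Lib.H31V
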