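import Pool.Agent.Lib.H31V.B2

/-!
# B4: second Hölder step
-/

open Finset

namespace Pool.Agent.Lib.H31V

/-- weighted power mean -/
theorem B4_mean {ι : Type*} (T : Finset ι) (f g : ι → ℝ) (hf : ∀ i ∈ T, 0 ≤ f i)
    (hg : ∀ i ∈ T, 0 ≤ g i) (s : ℕ) (hs : 1 ≤ s) :
    (∑ i ∈ T, f i * g i) ^ s ≤ (∑ i ∈ T, f i) ^ (s - 1) * ∑ i ∈ T, f i * g i ^ s := by
  have hW : 0 ≤ ∑ i ∈ T, f i := Finset.sum_nonneg hf
  have hR : 0 ≤ ∑ i ∈ T, f i * g i ^ s :=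
    Finset.sum_nonneg fun i hi => mul_nonneg (hf i hi) (pow_nonneg (hg i hi) s)
  rcases hW.eq_or_lt with hW0 | hW0
  · have h0 : ∀ i ∈ T, f i = 0 := (Finset.sum_eq_zero_iff_of_nonneg hf).1 hW0.symm
    have h1 : ∑ i ∈ T, f i * g i = 0 := Finset.sum_eq_zero fun i hi => by rw [h0 i hi, zero_mul]
    rw [h1, zero_pow (by omega)]
    positivity
  · have h1 := Real.pow_arith_mean_le_arith_mean_pow T (fun i => f i / ∑ i ∈ T, f i) g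
      (fun i hi => div_nonneg (hf i hi) hW0.le)
      (by rw [← Finset.sum_div, div_self hW0.ne']) hg s
    have h2 : ∑ i ∈ T, (f i / ∑ i ∈ T, f i) * g i = (∑ i ∈ T, f i * g i) / ∑ i ∈ T, f i := by
      rw [Finset.sum_div]
      exact Finset.sum_congr rfl fun i _ => by ring
    have h3 : ∑ i ∈ T, (f i / ∑ i ∈ T, f i) * g i ^ s =
        (∑ i ∈ T, f i * g i ^ s) / ∑ i ∈ T, f i := by
      rw [Finset.sum_div]
      exact Finset.sum_congr rfl fun i _ => by ring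
    rw [h2, h3, div_pow, div_le_div_iff₀ (pow_pos hW0 s) hW0] at h1
    have h4 : (∑ i ∈ T, f i) ^ s = (∑ i ∈ T, f i) ^ (s - 1) * ∑ i ∈ T, f i := by
      rw [← pow_succ, Nat.sub_add_cancel hs]
    rw [h4, ← mul_assoc] at h1
    have h5 := le_of_mul_le_mul_right h1 hW0
    calc (∑ i ∈ T, f i * g i) ^ s ≤ (∑ i ∈ T, f i * g i ^ s) * (∑ i ∈ T, f i) ^ (s - 1) := h5
      _ = _ := mul_comm _ _

/-- Hölder with the exponents `s/(s-1), 2s, 2s`. Proof: for `n = 2s`, `w = ∑ f`: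
first `(∑ f g)^2`-type: by Hölder (`Real.inner_le_Lp_mul_Lq` or `inner_mul_le_norm_mul_norm`,
`Finset.inner_mul_le..`) `(∑ f g)^(s) = (∑ f^(1-1/s) (f^(1/s) g))^s ≤ (∑ f)^(s-1) ∑ f g^s` (weighted
power mean, `Real.inner_le_nnorm_mul_nnorm`, or Jensen `inner`: convexity of `x^s` with weights
`f/∑f`), then Cauchy-Schwarz `(∑ f g^s)^2 ≤ (∑ f^2)(∑ g^(2s))`. -/
theorem holder3 {ι : Type*} (T : Finset ι) (f g : ι → ℝ) (hf : ∀ i ∈ T, 0 ≤ f i)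
    (hg : ∀ i ∈ T, 0 ≤ g i) (s : ℕ) (hs : 1 ≤ s) :
    (∑ i ∈ T, f i * g i) ^ (2 * s) ≤
      (∑ i ∈ T, f i) ^ (2 * s - 2) * (∑ i ∈ T, f i ^ 2) * ∑ i ∈ T, g i ^ (2 * s) := by
  have hW : 0 ≤ ∑ i ∈ T, f i := Finset.sum_nonneg hf
  have h0 : 0 ≤ (∑ i ∈ T, f i * g i) ^ s :=
    pow_nonneg (Finset.sum_nonneg fun i hi => mul_nonneg (hf i hi) (hg i hi)) s
  have h1 := B4_mean T f g hf hg s hs
  have h2 := Finset.sum_mul_sq_le_sq_mul_sq T f (fun i => g i ^ s)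
  have h3 : ∑ i ∈ T, (g i ^ s) ^ 2 = ∑ i ∈ T, g i ^ (2 * s) :=
    Finset.sum_congr rfl fun i _ => by rw [← pow_mul, mul_comm]
  rw [h3] at h2
  have h4 : ((∑ i ∈ T, f i) ^ (s - 1)) ^ 2 = (∑ i ∈ T, f i) ^ (2 * s - 2) := by
    rw [← pow_mul]
    congr 1
    omega
  calc (∑ i ∈ T, f i * g i) ^ (2 * s) = ((∑ i ∈ T, f i * g i) ^ s) ^ 2 := by
        rw [← pow_mul, mul_comm]
    _ ≤ ((∑ i ∈ T, f i) ^ (s - 1) * ∑ i ∈ T, f i * g i ^ s) ^ 2 := pow_le_pow_left₀ h0 h1 2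
    _ = (∑ i ∈ T, f i) ^ (2 * s - 2) * (∑ i ∈ T, f i * g i ^ s) ^ 2 := by rw [mul_pow, h4]
    _ ≤ (∑ i ∈ T, f i) ^ (2 * s - 2) * ((∑ i ∈ T, f i ^ 2) * ∑ i ∈ T, g i ^ (2 * s)) :=
        mul_le_mul_of_nonneg_left h2 (pow_nonneg hW _)
    _ = _ := by ring

/-- Proof: `holder3`, `sum_R`, `∑ R^2 ≤ J * ∑ R = J Y^(2s)` (`R_le`). -/
theorem step_two (k s Y : ℕ) (hs : 1 ≤ s) (α : Fin k → ℝ) :
    (∑ μ ∈ bx k s Y, (R k s Y μ : ℝ) * ‖hh k Y α μ‖) ^ (2 * s) ≤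
      ((Y : ℝ) ^ (2 * s)) ^ (2 * s - 2) * ((J k s Y : ℝ) * (Y : ℝ) ^ (2 * s)) *
        ∑ μ ∈ bx k s Y, ‖hh k Y α μ‖ ^ (2 * s) := by
  have h1 := holder3 (bx k s Y) (fun μ => (R k s Y μ : ℝ)) (fun μ => ‖hh k Y α μ‖)
    (fun _ _ => Nat.cast_nonneg _) (fun _ _ => norm_nonneg _) s hs
  have h2 : ∑ μ ∈ bx k s Y, (R k s Y μ : ℝ) = (Y : ℝ) ^ (2 * s) := by
    exact_mod_cast sum_R k s Y
  have h3 : ∑ μ ∈ bx k s Y, (R k s Y μ : ℝ) ^ 2 ≤ (J k s Y : ℝ) * (Y : ℝ) ^ (2 * s) := by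
    rw [← h2, Finset.mul_sum]
    apply Finset.sum_le_sum
    intro μ _
    have h4 : (R k s Y μ : ℝ) ≤ (J k s Y : ℝ) := by exact_mod_cast R_le k s Y μ
    rw [pow_two]
    exact mul_le_mul_of_nonneg_right h4 (Nat.cast_nonneg _)
  rw [h2] at h1
  refine h1.trans ?_
  apply mul_le_mul_of_nonneg_right _ (Finset.sum_nonneg fun _ _ => pow_nonneg (norm_nonneg _) _)
  exact mul_le_mul_of_nonneg_left h3 (by positivity)

end Pool.Agent.Lib.H31V
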