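import Pool.Agent.Lib.H31V.B2

/-!
# B5: third step
-/

open Finset

namespace Pool.Agent.Lib.H31V

/-- Sum over the box of a product of characters = product of sums. Proof: `e` of a sum is the
product of the `e`'s (`e_add`), `Finset.prod_univ_sum` / `Finset.sum_prod_piFinset`, norms. -/
theorem box_char (k s Y : ℕ) (α : Fin k → ℝ) :
    ∑ ν ∈ bx k s Y, ‖∑ μ ∈ bx k s Y, e (∑ j : Fin k, α j * (μ j : ℝ) * (ν j : ℝ))‖ =
      ∏ j : Fin k, VV (α j) (s * Y ^ (j.val + 1)) := by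
  have h1 : ∀ ν : Fin k → ℤ, ‖∑ μ ∈ bx k s Y, e (∑ j : Fin k, α j * (μ j : ℝ) * (ν j : ℝ))‖ =
      ∏ j : Fin k, ‖∑ m ∈ Icc (-((s * Y ^ (j.val + 1) : ℕ) : ℤ)) ((s * Y ^ (j.val + 1) : ℕ) : ℤ),
        e (α j * (m : ℝ) * (ν j : ℝ))‖ := by
    intro ν
    rw [← norm_prod, Finset.prod_univ_sum]
    unfold bx
    congr 1
    apply Finset.sum_congr rfl
    intro μ _
    exact b1_sum _ _
  rw [Finset.sum_congr rfl (fun ν _ => h1 ν)]
  unfold VV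
  rw [Finset.prod_univ_sum]
  rfl

/-- Proof: `norm_pow_eq` with `b_j = α_j μ_j` and `sum_pairs`:
`‖hh μ‖^(2s) = ∑_ν R(ν) e(∑_j α_j μ_j ν_j)`. Sum over `μ`, exchange, `R ≤ J` and `box_char`. -/
theorem step_three (k s Y : ℕ) (α : Fin k → ℝ) :
    ∑ μ ∈ bx k s Y, ‖hh k Y α μ‖ ^ (2 * s) ≤
      (J k s Y : ℝ) * ∏ j : Fin k, VV (α j) (s * Y ^ (j.val + 1)) := by
  have h4 : ((∑ μ ∈ bx k s Y, ‖hh k Y α μ‖ ^ (2 * s) : ℝ) : ℂ) =
      ∑ ν ∈ bx k s Y, (R k s Y ν : ℂ) *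
        ∑ μ ∈ bx k s Y, e (∑ j : Fin k, α j * (μ j : ℝ) * (ν j : ℝ)) := by
    rw [Complex.ofReal_sum]
    have h5 : ∀ μ ∈ bx k s Y, ((‖hh k Y α μ‖ ^ (2 * s) : ℝ) : ℂ) =
        ∑ ν ∈ bx k s Y, (R k s Y ν : ℂ) * e (∑ j : Fin k, α j * (μ j : ℝ) * (ν j : ℝ)) := by
      intro μ _
      unfold hh
      rw [norm_pow_eq k s Y (fun j => α j * (μ j : ℝ)),
        ← sum_pairs k s Y (fun ν => e (∑ j : Fin k, α j * (μ j : ℝ) * (ν j : ℝ)))]
      apply Finset.sum_congr rfl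
      intro z _
      congr 1
      apply Finset.sum_congr rfl
      intro j _
      rw [Pi.sub_apply]
      push_cast
      ring
    rw [Finset.sum_congr rfl h5, Finset.sum_comm]
    apply Finset.sum_congr rfl
    intro ν _
    rw [← Finset.mul_sum]
  have h6 : ∑ μ ∈ bx k s Y, ‖hh k Y α μ‖ ^ (2 * s) =
      ‖((∑ μ ∈ bx k s Y, ‖hh k Y α μ‖ ^ (2 * s) : ℝ) : ℂ)‖ := by
    rw [Complex.norm_real, Real.norm_of_nonneg]
    exact Finset.sum_nonneg fun x _ => by positivity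
  rw [h6, h4, ← box_char, Finset.mul_sum]
  refine (norm_sum_le _ _).trans (Finset.sum_le_sum fun ν _ => ?_)
  rw [norm_mul, Complex.norm_natCast]
  apply mul_le_mul_of_nonneg_right _ (norm_nonneg _)
  exact_mod_cast R_le k s Y ν

end Pool.Agent.Lib.H31V
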