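import Pool.Agent.Lib.H31V.B3
import Pool.Agent.Lib.H31V.B4
import Pool.Agent.Lib.H31V.B5

/-!
# B6: Vinogradov's inequality for the bilinear sum
-/

open Finset

namespace Pool.Agent.Lib.H31V

/-- Proof: `step_one` to the power `2s`, `step_two`, `step_three`:
`(Y^(2s-1))^(2s) * (Y^(2s))^(2s-2) * (J * Y^(2s)) * (J * ∏ VV) = Y^(8s^2-4s) J^2 ∏ VV`. -/
theorem U_le (k s Y : ℕ) (hs : 1 ≤ s) (hY : 1 ≤ Y) (α : Fin k → ℝ) :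
    ‖U k Y α‖ ^ (4 * s ^ 2) ≤ (Y : ℝ) ^ (8 * s ^ 2 - 4 * s) * (J k s Y : ℝ) ^ 2 *
      ∏ j : Fin k, VV (α j) (s * Y ^ (j.val + 1)) := by
  have h1 := step_one k s Y hs hY α
  have h2 := step_two k s Y hs α
  have h3 := step_three k s Y α
  have hY0 : (0 : ℝ) ≤ (Y : ℝ) := Nat.cast_nonneg Y
  have hJ0 : (0 : ℝ) ≤ (J k s Y : ℝ) := Nat.cast_nonneg _
  have hS0 : 0 ≤ ∑ μ ∈ bx k s Y, (R k s Y μ : ℝ) * ‖hh k Y α μ‖ :=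
    Finset.sum_nonneg fun μ _ => mul_nonneg (Nat.cast_nonneg _) (norm_nonneg _)
  have e1 : ‖U k Y α‖ ^ (4 * s ^ 2) = (‖U k Y α‖ ^ (2 * s)) ^ (2 * s) := by
    rw [← pow_mul]
    congr 1
    ring
  have e2 : ((Y : ℝ) ^ (2 * s - 1)) ^ (2 * s) * (((Y : ℝ) ^ (2 * s)) ^ (2 * s - 2) * (Y : ℝ) ^ (2 * s)) =
      (Y : ℝ) ^ (8 * s ^ 2 - 4 * s) := by
    rw [← pow_mul, ← pow_mul, ← pow_add, ← pow_add]
    congr 1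
    obtain ⟨r, rfl⟩ : ∃ r, s = r + 1 := ⟨s - 1, by omega⟩
    have a1 : 2 * (r + 1) - 1 = 2 * r + 1 := by omega
    have a2 : 2 * (r + 1) - 2 = 2 * r := by omega
    have a3 : 8 * (r + 1) ^ 2 - 4 * (r + 1) = 8 * r ^ 2 + 12 * r + 4 := by
      have : 8 * (r + 1) ^ 2 = (8 * r ^ 2 + 12 * r + 4) + 4 * (r + 1) := by ring
      omega
    rw [a1, a2, a3]
    ring
  calc ‖U k Y α‖ ^ (4 * s ^ 2) = (‖U k Y α‖ ^ (2 * s)) ^ (2 * s) := e1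
    _ ≤ ((Y : ℝ) ^ (2 * s - 1) * ∑ μ ∈ bx k s Y, (R k s Y μ : ℝ) * ‖hh k Y α μ‖) ^ (2 * s) :=
        pow_le_pow_left₀ (pow_nonneg (norm_nonneg _) _) h1 _
    _ = ((Y : ℝ) ^ (2 * s - 1)) ^ (2 * s) * (∑ μ ∈ bx k s Y, (R k s Y μ : ℝ) * ‖hh k Y α μ‖) ^ (2 * s) :=
        mul_pow _ _ _
    _ ≤ ((Y : ℝ) ^ (2 * s - 1)) ^ (2 * s) * (((Y : ℝ) ^ (2 * s)) ^ (2 * s - 2) *
          ((J k s Y : ℝ) * (Y : ℝ) ^ (2 * s)) *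
            ((J k s Y : ℝ) * ∏ j : Fin k, VV (α j) (s * Y ^ (j.val + 1)))) := by
        refine mul_le_mul_of_nonneg_left (h2.trans ?_) (pow_nonneg (pow_nonneg hY0 _) _)
        exact mul_le_mul_of_nonneg_left h3 (by positivity)
    _ = (((Y : ℝ) ^ (2 * s - 1)) ^ (2 * s) * (((Y : ℝ) ^ (2 * s)) ^ (2 * s - 2) * (Y : ℝ) ^ (2 * s))) *
          (J k s Y : ℝ) ^ 2 * ∏ j : Fin k, VV (α j) (s * Y ^ (j.val + 1)) := by ring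
    _ = (Y : ℝ) ^ (8 * s ^ 2 - 4 * s) * (J k s Y : ℝ) ^ 2 *
          ∏ j : Fin k, VV (α j) (s * Y ^ (j.val + 1)) := by rw [e2]

end Pool.Agent.Lib.H31V
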