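import Pool.Agent.Lib.H31V.B8

/-!
# B9: the product of all factors
-/

open Finset

namespace Pool.Agent.Lib.H31V

/-- At least `0.4 L` integers in `[1.5 L, 2.4 L]`, all `≤ k` and `≥ 1`. Proof: for
`L ∈ [1, 4/3]` the number `2`, for `L ∈ [5/4, 2]` the number `3`, for `L ∈ [5/3, 8/3]` the number `4`
lies in the interval, which settles `L ≤ 5/2`; for `L ≥ 2` there are at least `0.9 L - 1 ≥ 0.4 L`. -/
theorem count_middle (L : ℝ) (hL : 1 ≤ L) :
    2 / 5 * L ≤ (((Icc 1 ⌈3 * L⌉₊).filter (fun m : ℕ => 3 / 2 * L ≤ m ∧ (m : ℝ) ≤ 12 / 5 * L)).card : ℝ) := by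
  have hone : ∀ m : ℕ, 3 / 2 * L ≤ m → (m : ℝ) ≤ 12 / 5 * L → L ≤ 5 / 2 →
      2 / 5 * L ≤ (((Icc 1 ⌈3 * L⌉₊).filter
        (fun m : ℕ => 3 / 2 * L ≤ m ∧ (m : ℝ) ≤ 12 / 5 * L)).card : ℝ) := by
    intro m h1 h2 h3
    have hmem : m ∈ (Icc 1 ⌈3 * L⌉₊).filter
        (fun m : ℕ => 3 / 2 * L ≤ m ∧ (m : ℝ) ≤ 12 / 5 * L) := by
      rw [mem_filter, mem_Icc]
      refine ⟨⟨?_, ?_⟩, h1, h2⟩
      · have h4 : (0 : ℝ) < m := by linarith
        exact Nat.one_le_iff_ne_zero.mpr (Nat.cast_ne_zero.mp h4.ne')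
      · have h4 : (m : ℝ) ≤ (⌈3 * L⌉₊ : ℝ) := by
          have := Nat.le_ceil (3 * L)
          linarith
        exact_mod_cast h4
    have h5 : 1 ≤ ((Icc 1 ⌈3 * L⌉₊).filter
        (fun m : ℕ => 3 / 2 * L ≤ m ∧ (m : ℝ) ≤ 12 / 5 * L)).card :=
      Finset.card_pos.mpr ⟨m, hmem⟩
    have h6 : (1 : ℝ) ≤ (((Icc 1 ⌈3 * L⌉₊).filter
        (fun m : ℕ => 3 / 2 * L ≤ m ∧ (m : ℝ) ≤ 12 / 5 * L)).card : ℝ) := by exact_mod_cast h5
    linarith
  rcases le_total L (4 / 3) with h1 | h1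
  · exact hone 2 (by push_cast; linarith) (by push_cast; linarith) (by linarith)
  rcases le_total L 2 with h2 | h2
  · exact hone 3 (by push_cast; linarith) (by push_cast; linarith) (by linarith)
  -- `L ≥ 2`
  have hsub : Icc ⌈3 / 2 * L⌉₊ ⌊12 / 5 * L⌋₊ ⊆ (Icc 1 ⌈3 * L⌉₊).filter
      (fun m : ℕ => 3 / 2 * L ≤ m ∧ (m : ℝ) ≤ 12 / 5 * L) := by
    intro m hm
    rw [mem_Icc] at hm
    have h3 : 3 / 2 * L ≤ m := Nat.ceil_le.mp hm.1
    have h4 : (m : ℝ) ≤ 12 / 5 * L := (Nat.le_floor_iff (by linarith)).mp hm.2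
    rw [mem_filter, mem_Icc]
    refine ⟨⟨?_, ?_⟩, h3, h4⟩
    · have h5 : (0 : ℝ) < m := by linarith
      exact Nat.one_le_iff_ne_zero.mpr (Nat.cast_ne_zero.mp h5.ne')
    · have h5 : (m : ℝ) ≤ (⌈3 * L⌉₊ : ℝ) := by
        have := Nat.le_ceil (3 * L)
        linarith
      exact_mod_cast h5
  have hcard := Finset.card_le_card hsub
  rw [Nat.card_Icc] at hcard
  have h3 : (⌊12 / 5 * L⌋₊ : ℝ) + 1 - ⌈3 / 2 * L⌉₊ ≤
      (((Icc 1 ⌈3 * L⌉₊).filter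
        (fun m : ℕ => 3 / 2 * L ≤ m ∧ (m : ℝ) ≤ 12 / 5 * L)).card : ℝ) := by
    have h4 : ⌊12 / 5 * L⌋₊ + 1 ≤ ((Icc 1 ⌈3 * L⌉₊).filter
        (fun m : ℕ => 3 / 2 * L ≤ m ∧ (m : ℝ) ≤ 12 / 5 * L)).card + ⌈3 / 2 * L⌉₊ := by omega
    have h5 : (⌊12 / 5 * L⌋₊ : ℝ) + 1 ≤ (((Icc 1 ⌈3 * L⌉₊).filter
        (fun m : ℕ => 3 / 2 * L ≤ m ∧ (m : ℝ) ≤ 12 / 5 * L)).card : ℝ) + ⌈3 / 2 * L⌉₊ := by
      exact_mod_cast h4
    linarith
  have h4 : 12 / 5 * L < (⌊12 / 5 * L⌋₊ : ℝ) + 1 := Nat.lt_floor_add_one _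
  have h5 : (⌈3 / 2 * L⌉₊ : ℝ) < 3 / 2 * L + 1 := Nat.ceil_lt_add_one (by linarith)
  linarith

theorem B9_sum (k : ℕ) : ∑ j : Fin k, 2 * (j.val + 1) = k * (k + 1) := by
  rw [Fin.sum_univ_eq_sum_range (fun i => 2 * (i + 1)) k]
  induction k with
  | zero => simp
  | succ k ih =>
    rw [Finset.sum_range_succ, ih]
    ring

/-- Proof: for the `m = j + 1` in the middle range `middle` (and `VV_neg` for the sign
`(-1)^j`), for the others `VV_trivial`: `(2M+1)^2 ≤ 9 s^2 Y^(2m)`. The product of the `9 s^2` is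
`≤ (9 (9k^2)^2)^k ≤ exp(C k^2)`; `∏ Y^(2m) = Y^(k(k+1))`; `count_middle` gives
`N^(-(L/50)(0.4 L)) = N^(-L^2/125)`. -/
theorem prod_VV : ∃ (N₀ : ℕ) (C : ℝ), 1 ≤ C ∧ ∀ (t : ℝ) (N n : ℕ), N₀ ≤ N → (N : ℝ) ≤ t → N < n →
    n ≤ 2 * N →
    ∏ j : Fin (kk t N), VV (aa (kk t N) t n j) (sk t N * YY N ^ (j.val + 1)) ≤
      Real.exp (C * (kk t N : ℝ) ^ 2) * (YY N : ℝ) ^ (kk t N * (kk t N + 1)) *
        (N : ℝ) ^ (-(LL t N ^ 2 / 125)) := by
  obtain ⟨N₀, hN₀⟩ := middle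
  refine ⟨max N₀ 2, 11, by norm_num, ?_⟩
  intro t N n hN hNt hn hn2
  have hN0 : N₀ ≤ N := (le_max_left _ _).trans hN
  have hN2 : 2 ≤ N := (le_max_right _ _).trans hN
  have hN2' : (2 : ℝ) ≤ N := by exact_mod_cast hN2
  have hN1 : (1 : ℝ) ≤ N := by linarith
  have hlogN : 0 < Real.log N := Real.log_pos (by linarith)
  have hL : 1 ≤ LL t N := by
    unfold LL
    rw [le_div_iff₀ hlogN, one_mul]
    exact Real.log_le_log (by linarith) hNt
  have hk3 : (3 : ℝ) ≤ kk t N := by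
    unfold kk
    have := Nat.le_ceil (3 * LL t N)
    linarith
  have hk1 : 1 ≤ kk t N := by
    have : (1 : ℝ) ≤ kk t N := by linarith
    exact_mod_cast this
  have hY1 : 1 ≤ YY N := by
    unfold YY
    rw [Nat.one_le_floor_iff]
    exact Real.one_le_rpow hN1 (by norm_num)
  have hs1 : 1 ≤ sk t N := by
    unfold sk
    exact Nat.one_le_iff_ne_zero.mpr (by positivity)
  set k := kk t N with hk
  set L := LL t N with hLdef
  set Y := YY N with hY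
  set s := sk t N with hs
  -- the bound for one factor
  let P : Fin k → Prop := fun j => 3 / 2 * L ≤ ((j.val + 1 : ℕ) : ℝ) ∧
    ((j.val + 1 : ℕ) : ℝ) ≤ 12 / 5 * L
  classical
  have hNpow : 0 < (N : ℝ) ^ (-(L / 50)) := Real.rpow_pos_of_pos (by linarith) _
  have hs1' : (1 : ℝ) ≤ s := by exact_mod_cast hs1
  have hY1' : (1 : ℝ) ≤ Y := by exact_mod_cast hY1
  have hfac : ∀ j : Fin k, VV (aa k t n j) (s * Y ^ (j.val + 1)) ≤
      (9 * (s : ℝ) ^ 2) * (Y : ℝ) ^ (2 * (j.val + 1)) *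
        (if P j then (N : ℝ) ^ (-(L / 50)) else 1) := by
    intro j
    by_cases hP : P j
    · rw [if_pos hP]
      have h1 := hN₀ t N n (j.val + 1) hN0 hNt hn hn2 hP.1 hP.2
      have h2 : VV (aa k t n j) (s * Y ^ (j.val + 1)) =
          VV (t / (2 * Real.pi * ((j.val + 1 : ℕ) : ℝ) * (n : ℝ) ^ (j.val + 1)))
            (s * Y ^ (j.val + 1)) := by
        unfold aa
        push_cast
        rcases neg_one_pow_eq_or ℝ j.val with h3 | h3
        · rw [h3, one_mul]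
        · rw [h3, neg_one_mul, neg_div, VV_neg]
      rw [h2]
      refine h1.trans ?_
      have h4 : (1 : ℝ) ≤ 9 * (s : ℝ) ^ 2 := by nlinarith
      have h5 : 0 ≤ (Y : ℝ) ^ (2 * (j.val + 1)) := by positivity
      have h6 : (Y : ℝ) ^ (2 * (j.val + 1)) ≤
          (9 * (s : ℝ) ^ 2) * (Y : ℝ) ^ (2 * (j.val + 1)) := le_mul_of_one_le_left h5 h4
      exact mul_le_mul_of_nonneg_right h6 hNpow.le
    · rw [if_neg hP, mul_one]
      refine (VV_trivial _ _).trans ?_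
      have h1 : (1 : ℝ) ≤ (s : ℝ) * (Y : ℝ) ^ (j.val + 1) := by
        have h2 : (1 : ℝ) ≤ (Y : ℝ) ^ (j.val + 1) := one_le_pow₀ hY1'
        nlinarith
      have h3 : ((s * Y ^ (j.val + 1) : ℕ) : ℝ) = (s : ℝ) * (Y : ℝ) ^ (j.val + 1) := by
        push_cast
        ring
      rw [h3]
      have h4 : (9 * (s : ℝ) ^ 2) * (Y : ℝ) ^ (2 * (j.val + 1)) =
          (3 * ((s : ℝ) * (Y : ℝ) ^ (j.val + 1))) ^ 2 := by
        rw [pow_mul']
        ring
      rw [h4]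
      have h5 : 2 * ((s : ℝ) * (Y : ℝ) ^ (j.val + 1)) + 1 ≤
          3 * ((s : ℝ) * (Y : ℝ) ^ (j.val + 1)) := by linarith
      exact pow_le_pow_left₀ (by linarith) h5 2
  -- the number of middle factors
  have hcount : 2 / 5 * L ≤ ((univ.filter P).card : ℝ) := by
    refine (count_middle L hL).trans ?_
    have h1 : ((Icc 1 ⌈3 * L⌉₊).filter
        (fun m : ℕ => 3 / 2 * L ≤ m ∧ (m : ℝ) ≤ 12 / 5 * L)).card ≤ (univ.filter P).card := by
      refine Finset.card_le_card_of_surjOn (fun j : Fin k => j.val + 1) ?_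
      intro m hm
      rw [Finset.mem_coe, mem_filter, mem_Icc] at hm
      obtain ⟨⟨h1, h2⟩, h3, h4⟩ := hm
      refine ⟨⟨m - 1, ?_⟩, ?_, ?_⟩
      · have h5 : m ≤ k := h2
        omega
      · rw [Finset.mem_coe, mem_filter]
        refine ⟨mem_univ _, ?_⟩
        show 3 / 2 * L ≤ ((m - 1 + 1 : ℕ) : ℝ) ∧ ((m - 1 + 1 : ℕ) : ℝ) ≤ 12 / 5 * L
        rw [Nat.sub_add_cancel h1]
        exact ⟨h3, h4⟩
      · show m - 1 + 1 = m
        exact Nat.sub_add_cancel h1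
    exact_mod_cast h1
  -- the constant
  have h9s : 9 * (s : ℝ) ^ 2 ≤ Real.exp (11 * k) := by
    have hk0 : (0 : ℝ) ≤ k := by positivity
    have h1 : (s : ℝ) ≤ 9 * (k : ℝ) ^ 2 := by
      have h2 : (s : ℝ) = (k : ℝ) * (8 * k + 1) := by
        rw [hs, sk, ← hk]
        push_cast
        ring
      rw [h2]
      nlinarith
    have h2 : (k : ℝ) ≤ Real.exp k := by
      have := Real.add_one_le_exp (k : ℝ)
      linarith
    have h3 : (729 : ℝ) ≤ Real.exp 7 := by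
      have h4 : (2.7182818283 : ℝ) < Real.exp 1 := Real.exp_one_gt_d9
      have h5 : Real.exp 7 = Real.exp 1 ^ 7 := by
        rw [← Real.exp_nat_mul]
        norm_num
      rw [h5]
      calc (729 : ℝ) ≤ (2.7182818283 : ℝ) ^ 7 := by norm_num
        _ ≤ Real.exp 1 ^ 7 := pow_le_pow_left₀ (by norm_num) h4.le 7
    have h4 : Real.exp 7 ≤ Real.exp (7 * k) := Real.exp_le_exp.mpr (by linarith)
    calc 9 * (s : ℝ) ^ 2 ≤ 9 * (9 * (k : ℝ) ^ 2) ^ 2 := by gcongr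
      _ = 729 * (k : ℝ) ^ 4 := by ring
      _ ≤ Real.exp (7 * k) * (Real.exp k) ^ 4 := by
          have h5 : (729 : ℝ) ≤ Real.exp (7 * k) := h3.trans h4
          gcongr
      _ = Real.exp (11 * k) := by
          rw [← Real.exp_nat_mul, ← Real.exp_add]
          congr 1
          push_cast
          ring
  -- the sum of the exponents
  have hsum : ∑ j : Fin k, 2 * (j.val + 1) = k * (k + 1) := B9_sum k
  calc ∏ j : Fin k, VV (aa k t n j) (s * Y ^ (j.val + 1))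
      ≤ ∏ j : Fin k, ((9 * (s : ℝ) ^ 2) * (Y : ℝ) ^ (2 * (j.val + 1)) *
        (if P j then (N : ℝ) ^ (-(L / 50)) else 1)) :=
        Finset.prod_le_prod (fun j _ => VV_nonneg _ _) (fun j _ => hfac j)
    _ = (9 * (s : ℝ) ^ 2) ^ k * (Y : ℝ) ^ (k * (k + 1)) *
        ((N : ℝ) ^ (-(L / 50))) ^ (univ.filter P).card := by
        rw [Finset.prod_mul_distrib, Finset.prod_mul_distrib, Finset.prod_const,
          Finset.card_univ, Fintype.card_fin, Finset.prod_pow_eq_pow_sum, hsum,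
          ← Finset.prod_filter, Finset.prod_const]
    _ ≤ Real.exp (11 * (k : ℝ) ^ 2) * (Y : ℝ) ^ (k * (k + 1)) * (N : ℝ) ^ (-(L ^ 2 / 125)) := by
        have h1 : (9 * (s : ℝ) ^ 2) ^ k ≤ Real.exp (11 * (k : ℝ) ^ 2) := by
          calc (9 * (s : ℝ) ^ 2) ^ k ≤ Real.exp (11 * k) ^ k :=
                pow_le_pow_left₀ (by positivity) h9s k
            _ = Real.exp (11 * (k : ℝ) ^ 2) := by
                rw [← Real.exp_nat_mul]
                congr 1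
                ring
        have h2 : ((N : ℝ) ^ (-(L / 50))) ^ (univ.filter P).card ≤ (N : ℝ) ^ (-(L ^ 2 / 125)) := by
          rw [← Real.rpow_mul_natCast (by linarith)]
          refine Real.rpow_le_rpow_of_exponent_le hN1 ?_
          nlinarith
        gcongr

end Pool.Agent.Lib.H31V
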