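import Pool.Agent.Lib.H31V.A14
import Pool.Agent.Lib.H31V.B6
import Pool.Agent.Lib.H31V.B9

/-!
# B10: the bilinear sum
-/

open Finset

namespace Pool.Agent.Lib.H31V

/-- `e^(-8) ≤ 1/1500`. -/
private theorem b10_exp : Real.exp (-8) ≤ 1 / 1500 := by
  have h1 : (2.7 : ℝ) ≤ Real.exp 1 := by
    have := Real.exp_one_gt_d9
    linarith
  have h2 : Real.exp 8 = Real.exp 1 ^ 8 := by
    rw [← Real.exp_nat_mul]
    norm_num
  have h3 : (1500 : ℝ) ≤ Real.exp 8 := by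
    rw [h2]
    calc (1500 : ℝ) ≤ 2.7 ^ 8 := by norm_num
      _ ≤ Real.exp 1 ^ 8 := pow_le_pow_left₀ (by norm_num) h1 8
  rw [Real.exp_neg, ← one_div]
  exact one_div_le_one_div_of_le (by norm_num) h3

/-- The inequality between the exponents. -/
private theorem b10_exponent (k L n x C C₂ : ℝ) (hL : 1 ≤ L) (hk1 : 3 * L ≤ k) (hk2 : k ≤ 4 * L)
    (hn : 0 ≤ n) (hx0 : 0 ≤ x) (hx : x ≤ 3 / 10 * n) (hC : 1 ≤ C) (hC₂ : 1 ≤ C₂) :
    (8 * (k * (8 * k + 1)) ^ 2 - 4 * (k * (8 * k + 1))) * x +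
      2 * (C * k ^ 4 + (2 * k * (8 * k + 1) - k * (k + 1) / 2 * (1 - Real.exp (-8))) * x) +
      (C₂ * k ^ 2 + k * (k + 1) * x + (-(L ^ 2 / 125)) * n) ≤
    4 * (k * (8 * k + 1)) ^ 2 * ((2 * C + C₂) + 2 * x + (-(1 / (10 ^ 8 * L ^ 2))) * n) := by
  have hk : 3 ≤ k := by linarith
  have he := b10_exp
  have he0 : 0 < Real.exp (-8) := Real.exp_pos _
  set E := Real.exp (-8) with hE
  -- the term with x
  have h1 : k * (k + 1) * E * x ≤ L ^ 2 / 250 * n := by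
    have h2 : k * (k + 1) ≤ 20 * L ^ 2 := by nlinarith
    have h3 : k * (k + 1) * E ≤ 20 * L ^ 2 * (1 / 1500) :=
      mul_le_mul h2 he he0.le (by positivity)
    calc k * (k + 1) * E * x ≤ 20 * L ^ 2 * (1 / 1500) * (3 / 10 * n) :=
          mul_le_mul h3 hx hx0 (by positivity)
      _ = L ^ 2 / 250 * n := by ring
  -- the constants
  have h4 : 2 * C * k ^ 4 + C₂ * k ^ 2 ≤ 4 * (k * (8 * k + 1)) ^ 2 * (2 * C + C₂) := by
    have h5 : k ^ 2 ≤ k ^ 4 := by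
      have : (1 : ℝ) ≤ k ^ 2 := by nlinarith
      nlinarith [sq_nonneg k]
    have h6 : k ^ 4 ≤ 4 * (k * (8 * k + 1)) ^ 2 := by
      have h7 : k ^ 2 ≤ k * (8 * k + 1) := by nlinarith
      have h8 : (k ^ 2) ^ 2 ≤ (k * (8 * k + 1)) ^ 2 := pow_le_pow_left₀ (by positivity) h7 2
      nlinarith [sq_nonneg (k * (8 * k + 1))]
    calc 2 * C * k ^ 4 + C₂ * k ^ 2 ≤ 2 * C * k ^ 4 + C₂ * k ^ 4 := by nlinarith
      _ = (2 * C + C₂) * k ^ 4 := by ring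
      _ ≤ (2 * C + C₂) * (4 * (k * (8 * k + 1)) ^ 2) := by
          apply mul_le_mul_of_nonneg_left h6
          linarith
      _ = 4 * (k * (8 * k + 1)) ^ 2 * (2 * C + C₂) := by ring
  -- the power of N
  have h9 : 4 * (k * (8 * k + 1)) ^ 2 * (1 / (10 ^ 8 * L ^ 2) * n) ≤ L ^ 2 / 250 * n := by
    have h10 : k * (8 * k + 1) ≤ 144 * L ^ 2 := by nlinarith
    have h11 : (k * (8 * k + 1)) ^ 2 ≤ (144 * L ^ 2) ^ 2 :=
      pow_le_pow_left₀ (by positivity) h10 2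
    have hL2 : (0 : ℝ) < L ^ 2 := by positivity
    have h12 : 4 * (k * (8 * k + 1)) ^ 2 * (1 / (10 ^ 8 * L ^ 2)) ≤ L ^ 2 / 250 := by
      rw [mul_one_div, div_le_iff₀ (by positivity)]
      nlinarith
    calc 4 * (k * (8 * k + 1)) ^ 2 * (1 / (10 ^ 8 * L ^ 2) * n)
        = 4 * (k * (8 * k + 1)) ^ 2 * (1 / (10 ^ 8 * L ^ 2)) * n := by ring
      _ ≤ L ^ 2 / 250 * n := mul_le_mul_of_nonneg_right h12 hn
  have e1 : (8 * (k * (8 * k + 1)) ^ 2 - 4 * (k * (8 * k + 1))) * x +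
      2 * (C * k ^ 4 + (2 * k * (8 * k + 1) - k * (k + 1) / 2 * (1 - E)) * x) +
      (C₂ * k ^ 2 + k * (k + 1) * x + (-(L ^ 2 / 125)) * n) =
      8 * (k * (8 * k + 1)) ^ 2 * x + k * (k + 1) * E * x + (2 * C * k ^ 4 + C₂ * k ^ 2)
        - L ^ 2 / 125 * n := by ring
  have e2 : 4 * (k * (8 * k + 1)) ^ 2 * ((2 * C + C₂) + 2 * x + (-(1 / (10 ^ 8 * L ^ 2))) * n) =
      8 * (k * (8 * k + 1)) ^ 2 * x + 4 * (k * (8 * k + 1)) ^ 2 * (2 * C + C₂)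
        - 4 * (k * (8 * k + 1)) ^ 2 * (1 / (10 ^ 8 * L ^ 2) * n) := by ring
  rw [e1, e2]
  linarith

/-- Proof: `k = kk`, `s = sk = k(8k+1)`, `κ = k(k+1)/2`. `U_le`, `vmvt` (`J ≤ exp(Ck^4)
Y^(2s - κ(1 - e^(-8)))`) and `prod_VV`:
`‖U‖^(4s^2) ≤ exp(C' k^4) Y^(8s^2 - 4s + 4s - 2κ + 2κ e^(-8) + 2κ) N^(-L^2/125)
  = exp(C' k^4) Y^(8 s^2) Y^(2κ e^(-8)) N^(-L^2/125)`.
`Y ≤ N^(3/10)`, `k ≤ 4L`, `κ ≤ 10 L^2`, `e^(-8) ≤ 0.00034`: `Y^(2κ e^(-8)) ≤ N^(L^2/250)`. So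
`‖U‖^(4s^2) ≤ exp(C' k^4) Y^(8s^2) N^(-L^2/250)`; take the `4s^2`-th root: `s ≥ 8k^2` gives
`exp(C' k^4/(4 s^2)) ≤ exp(C')`, and `s ≤ 9k^2 ≤ 144 L^2` gives
`N^(-L^2/(1000 s^2)) ≤ N^(-1/(10^8 L^2))`. (`Real.pow_le_pow_left` / `Real.rpow` monotonicity of
roots: from `a^n ≤ b^n` conclude `a ≤ b`, `pow_le_pow_iff_left`.) -/
theorem U_small : ∃ (N₀ : ℕ) (C : ℝ), 1 ≤ C ∧ ∀ (t : ℝ) (N n : ℕ), N₀ ≤ N → (N : ℝ) ≤ t → N < n →
    n ≤ 2 * N →
    ‖U (kk t N) (YY N) (aa (kk t N) t n)‖ ≤ C * (YY N : ℝ) ^ 2 *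
      (N : ℝ) ^ (-(1 / (10 ^ 8 * LL t N ^ 2))) := by
  obtain ⟨C, hC, hJ⟩ := vmvt
  obtain ⟨N₁, C₂, hC₂, hP⟩ := prod_VV
  refine ⟨max N₁ 2, Real.exp (2 * C + C₂), Real.one_le_exp (by linarith), ?_⟩
  intro t N n hN hNt hn1 hn2
  have hN1 : N₁ ≤ N := le_trans (le_max_left _ _) hN
  have hN2 : 2 ≤ N := le_trans (le_max_right _ _) hN
  have hNr : (2 : ℝ) ≤ N := by exact_mod_cast hN2
  have hNpos : (0 : ℝ) < N := by linarith
  have hlogN : 0 < Real.log N := Real.log_pos (by linarith)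
  -- parameters
  have hL : 1 ≤ LL t N := by
    unfold LL
    rw [le_div_iff₀ hlogN, one_mul]
    exact Real.log_le_log hNpos hNt
  have hk1 : 3 * LL t N ≤ (kk t N : ℝ) := Nat.le_ceil _
  have hk2 : (kk t N : ℝ) ≤ 4 * LL t N := by
    have := Nat.ceil_lt_add_one (a := 3 * LL t N) (by linarith)
    have h' : (kk t N : ℝ) < 3 * LL t N + 1 := this
    linarith
  have hk3 : 2 ≤ kk t N := by
    have : (2 : ℝ) ≤ (kk t N : ℝ) := by linarith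
    exact_mod_cast this
  have hY1 : 1 ≤ YY N := by
    unfold YY
    apply Nat.le_floor
    rw [Nat.cast_one]
    exact Real.one_le_rpow (by linarith) (by norm_num)
  have hYr : (1 : ℝ) ≤ (YY N : ℝ) := by exact_mod_cast hY1
  have hYpos : (0 : ℝ) < (YY N : ℝ) := by linarith
  have hYle : (YY N : ℝ) ≤ (N : ℝ) ^ (3 / 10 : ℝ) := Nat.floor_le (by positivity)
  have hx0 : 0 ≤ Real.log (YY N : ℝ) := Real.log_nonneg hYr
  have hx : Real.log (YY N : ℝ) ≤ 3 / 10 * Real.log N := by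
    have := Real.log_le_log hYpos hYle
    rwa [Real.log_rpow hNpos] at this
  have hs1 : 1 ≤ sk t N := by
    unfold sk
    exact Nat.mul_pos (by omega) (by omega)
  have hsr : (sk t N : ℝ) = (kk t N : ℝ) * (8 * (kk t N : ℝ) + 1) := by
    unfold sk
    push_cast
    ring
  -- the three inputs
  have hU := U_le (kk t N) (sk t N) (YY N) hs1 hY1 (aa (kk t N) t n)
  have hJ' := hJ (kk t N) (YY N) hk3 hY1
  have hP' := hP t N n hN1 hNt hn1 hn2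
  have hskJ : J (kk t N) (kk t N * (8 * kk t N + 1)) (YY N) = J (kk t N) (sk t N) (YY N) := rfl
  rw [hskJ] at hJ'
  set x := Real.log (YY N : ℝ) with hxdef
  set ν := Real.log (N : ℝ) with hνdef
  set k : ℝ := (kk t N : ℝ) with hkdef
  have hYexp : (YY N : ℝ) = Real.exp x := (Real.exp_log hYpos).symm
  have hNexp : (N : ℝ) = Real.exp ν := (Real.exp_log hNpos).symm
  -- the first factor
  have hf1 : (YY N : ℝ) ^ (8 * sk t N ^ 2 - 4 * sk t N) =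
      Real.exp ((8 * (k * (8 * k + 1)) ^ 2 - 4 * (k * (8 * k + 1))) * x) := by
    have hle : 4 * sk t N ≤ 8 * sk t N ^ 2 := by nlinarith
    rw [hYexp, ← Real.exp_nat_mul, Nat.cast_sub hle]
    push_cast
    rw [hsr]
  -- J
  have hf2 : (J (kk t N) (sk t N) (YY N) : ℝ) ^ 2 ≤
      Real.exp (2 * (C * k ^ 4 + (2 * k * (8 * k + 1) - k * (k + 1) / 2 * (1 - Real.exp (-8))) * x)) := by
    have h1 : (J (kk t N) (sk t N) (YY N) : ℝ) ≤
        Real.exp (C * k ^ 4 + (2 * k * (8 * k + 1) - k * (k + 1) / 2 * (1 - Real.exp (-8))) * x) := by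
      refine hJ'.trans (le_of_eq ?_)
      rw [hYexp, ← Real.exp_mul, ← Real.exp_add]
      congr 1
      ring
    have h2 := pow_le_pow_left₀ (Nat.cast_nonneg _) h1 2
    refine h2.trans (le_of_eq ?_)
    rw [← Real.exp_nat_mul]
    norm_num
  -- the product
  have hf3 : ∏ j : Fin (kk t N), VV (aa (kk t N) t n j) (sk t N * YY N ^ (j.val + 1)) ≤
      Real.exp (C₂ * k ^ 2 + k * (k + 1) * x + (-(LL t N ^ 2 / 125)) * ν) := by
    refine hP'.trans (le_of_eq ?_)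
    rw [hYexp, hNexp, ← Real.exp_nat_mul, ← Real.exp_mul, ← Real.exp_add, ← Real.exp_add]
    congr 1
    push_cast
    ring
  have hprod0 : 0 ≤ ∏ j : Fin (kk t N), VV (aa (kk t N) t n j) (sk t N * YY N ^ (j.val + 1)) :=
    Finset.prod_nonneg fun j _ => VV_nonneg _ _
  -- the right hand side
  have hR : (Real.exp (2 * C + C₂) * (YY N : ℝ) ^ 2 * (N : ℝ) ^ (-(1 / (10 ^ 8 * LL t N ^ 2)))) =
      Real.exp ((2 * C + C₂) + 2 * x + (-(1 / (10 ^ 8 * LL t N ^ 2))) * ν) := by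
    rw [hYexp, hNexp, ← Real.exp_nat_mul, ← Real.exp_mul, ← Real.exp_add, ← Real.exp_add]
    congr 1
    push_cast
    ring
  have hn0 : 4 * sk t N ^ 2 ≠ 0 := by positivity
  refine (pow_le_pow_iff_left₀ (norm_nonneg _) (by positivity) hn0).1 ?_
  rw [hR, ← Real.exp_nat_mul]
  calc ‖U (kk t N) (YY N) (aa (kk t N) t n)‖ ^ (4 * sk t N ^ 2)
      ≤ (YY N : ℝ) ^ (8 * sk t N ^ 2 - 4 * sk t N) * (J (kk t N) (sk t N) (YY N) : ℝ) ^ 2 *
        ∏ j : Fin (kk t N), VV (aa (kk t N) t n j) (sk t N * YY N ^ (j.val + 1)) := hU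
    _ ≤ Real.exp ((8 * (k * (8 * k + 1)) ^ 2 - 4 * (k * (8 * k + 1))) * x) *
        Real.exp (2 * (C * k ^ 4 +
          (2 * k * (8 * k + 1) - k * (k + 1) / 2 * (1 - Real.exp (-8))) * x)) *
        Real.exp (C₂ * k ^ 2 + k * (k + 1) * x + (-(LL t N ^ 2 / 125)) * ν) := by
        rw [hf1]
        exact mul_le_mul (mul_le_mul_of_nonneg_left hf2 (Real.exp_pos _).le) hf3 hprod0
          (by positivity)
    _ ≤ Real.exp (((4 * sk t N ^ 2 : ℕ) : ℝ) *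
          ((2 * C + C₂) + 2 * x + (-(1 / (10 ^ 8 * LL t N ^ 2))) * ν)) := by
        rw [← Real.exp_add, ← Real.exp_add]
        apply Real.exp_le_exp.2
        have hcast : ((4 * sk t N ^ 2 : ℕ) : ℝ) = 4 * (k * (8 * k + 1)) ^ 2 := by
          push_cast
          rw [hsr]
        rw [hcast]
        exact b10_exponent k (LL t N) ν x C C₂ hL hk1 hk2 hlogN.le hx0 hx hC hC₂

end Pool.Agent.Lib.H31V
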