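import Pool.Agent.Lib.H31V.Defs

/-!
# B11: Taylor expansion of `(n + xy)^(it)`
-/

open Finset

namespace Pool.Agent.Lib.H31V

/-- `|log(1+z) - ∑_{m ≤ k} (-1)^(m-1) z^m/m| ≤ z^(k+1)` for `0 ≤ z ≤ 1/2`.
Proof: `Real.abs_log_sub_add_sum_range_le` (with `x = -z`): the error is
`≤ |z|^(k+1)/(1 - |z|)`; that is only `2 z^(k+1)`; so the statement is with the factor `2`. -/
theorem log_taylor (k : ℕ) (z : ℝ) (h0 : 0 ≤ z) (h1 : z ≤ 1 / 2) :
    |Real.log (1 + z) - ∑ j : Fin k, (-1) ^ j.val * z ^ (j.val + 1) / (j.val + 1)| ≤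
      2 * z ^ (k + 1) := by
  have habs : |(-z)| = z := by rw [abs_neg, abs_of_nonneg h0]
  have h := Real.abs_log_sub_add_sum_range_le (x := -z) (by rw [habs]; linarith) k
  rw [habs] at h
  have hs : (∑ i ∈ range k, (-z) ^ (i + 1) / ((i : ℝ) + 1)) =
      -∑ j : Fin k, (-1) ^ j.val * z ^ (j.val + 1) / ((j.val : ℝ) + 1) := by
    rw [Fin.sum_univ_eq_sum_range (fun i => (-1 : ℝ) ^ i * z ^ (i + 1) / ((i : ℝ) + 1)) k,
      ← Finset.sum_neg_distrib]
    refine Finset.sum_congr rfl fun i _ => ?_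
    rw [neg_pow z (i + 1), pow_succ (-1 : ℝ) i]
    ring
  rw [hs, sub_neg_eq_add] at h
  have e1 : |Real.log (1 + z) - ∑ j : Fin k, (-1) ^ j.val * z ^ (j.val + 1) / ((j.val : ℝ) + 1)| =
      |-∑ j : Fin k, (-1) ^ j.val * z ^ (j.val + 1) / ((j.val : ℝ) + 1) + Real.log (1 + z)| := by
    congr 1; ring
  rw [e1]
  refine h.trans ?_
  rw [div_le_iff₀ (by linarith)]
  nlinarith [pow_nonneg h0 (k + 1)]

private theorem B11_exp (a b : ℝ) :
    ‖Complex.exp ((a : ℂ) * Complex.I) - Complex.exp ((b : ℂ) * Complex.I)‖ ≤ |a - b| := by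
  have h : Complex.exp ((a : ℂ) * Complex.I) - Complex.exp ((b : ℂ) * Complex.I) =
      Complex.exp ((b : ℂ) * Complex.I) * (Complex.exp (Complex.I * ((a - b : ℝ) : ℂ)) - 1) := by
    rw [mul_sub, ← Complex.exp_add, mul_one]
    congr 2
    push_cast
    ring
  rw [h, norm_mul, Complex.norm_exp_ofReal_mul_I, one_mul]
  exact Real.norm_exp_I_mul_ofReal_sub_one_le

/-- Proof: `(n + xy)^(it) = n^(it) exp(it log(1 + xy/n))`, and
`2π ∑_j α_j x^(j+1) y^(j+1) = t ∑_j (-1)^j (xy/n)^(j+1)/(j+1)`; `|exp(iA) - exp(iB)| ≤ |A - B|`;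
`log_taylor` with `z = xy/n ≤ Y^2/n ≤ 1/2`. Sum over `x, y ≤ Y`: -/
theorem taylor_sum (k Y n : ℕ) (t : ℝ) (ht : 0 ≤ t) (hn : 1 ≤ n) (hY : 2 * Y ^ 2 ≤ n) :
    ‖∑ x ∈ Icc 1 Y, ∑ y ∈ Icc 1 Y, ((n + x * y : ℕ) : ℂ) ^ ((t : ℂ) * Complex.I)‖ ≤
      ‖U k Y (aa k t n)‖ + (Y : ℝ) ^ 2 * (2 * t * ((Y : ℝ) ^ 2 / n) ^ (k + 1)) := by
  have hnR : (1 : ℝ) ≤ n := by exact_mod_cast hn
  have hn0 : (0 : ℝ) < n := by linarith
  have hYR : 2 * (Y : ℝ) ^ 2 ≤ n := by exact_mod_cast hY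
  have hpow : ∀ m : ℕ, 1 ≤ m → ((m : ℕ) : ℂ) ^ ((t : ℂ) * Complex.I) =
      Complex.exp (((t * Real.log m : ℝ) : ℂ) * Complex.I) := by
    intro m hm
    have hm0 : ((m : ℕ) : ℂ) ≠ 0 := by exact_mod_cast (by omega : m ≠ 0)
    rw [Complex.cpow_def_of_ne_zero hm0, ← Complex.natCast_log]
    congr 1
    push_cast
    ring
  have key : ∀ x ∈ Icc 1 Y, ∀ y ∈ Icc 1 Y,
      ‖Complex.exp (((t * Real.log (n + x * y : ℕ) : ℝ) : ℂ) * Complex.I) -
        Complex.exp (((t * Real.log n : ℝ) : ℂ) * Complex.I) *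
        e (∑ j : Fin k, aa k t n j * (x : ℝ) ^ (j.val + 1) * (y : ℝ) ^ (j.val + 1))‖ ≤
      2 * t * ((Y : ℝ) ^ 2 / n) ^ (k + 1) := by
    intro x hx y hy
    rw [Finset.mem_Icc] at hx hy
    have hxR : (x : ℝ) ≤ Y := by exact_mod_cast hx.2
    have hyR : (y : ℝ) ≤ Y := by exact_mod_cast hy.2
    have hx0 : (0 : ℝ) ≤ x := Nat.cast_nonneg x
    have hy0 : (0 : ℝ) ≤ y := Nat.cast_nonneg y
    have hxy : (x : ℝ) * y ≤ (Y : ℝ) ^ 2 := by
      rw [pow_two]; exact mul_le_mul hxR hyR hy0 (by linarith)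
    set z : ℝ := (x : ℝ) * y / n with hz
    have hz0 : 0 ≤ z := by positivity
    have hzY : z ≤ (Y : ℝ) ^ 2 / n := by
      rw [hz]; exact div_le_div_of_nonneg_right hxy hn0.le
    have hz2 : z ≤ 1 / 2 := by
      refine hzY.trans ?_
      rw [div_le_iff₀ hn0]; linarith
    have hlog : Real.log (n + x * y : ℕ) = Real.log n + Real.log (1 + z) := by
      rw [← Real.log_mul (by positivity) (by positivity)]
      congr 1
      push_cast
      rw [hz]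
      field_simp
    have hsum : ∑ j : Fin k, aa k t n j * (x : ℝ) ^ (j.val + 1) * (y : ℝ) ^ (j.val + 1) =
        t * (∑ j : Fin k, (-1) ^ j.val * z ^ (j.val + 1) / ((j.val : ℝ) + 1)) /
          (2 * Real.pi) := by
      rw [Finset.mul_sum, Finset.sum_div]
      refine Finset.sum_congr rfl fun j _ => ?_
      unfold aa
      rw [hz, div_pow, mul_pow]
      have hpi : Real.pi ≠ 0 := Real.pi_ne_zero
      have hj : ((j.val : ℝ) + 1) ≠ 0 := by positivity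
      field_simp
    have he : e (∑ j : Fin k, aa k t n j * (x : ℝ) ^ (j.val + 1) * (y : ℝ) ^ (j.val + 1)) =
        Complex.exp (((t * ∑ j : Fin k, (-1) ^ j.val * z ^ (j.val + 1) / ((j.val : ℝ) + 1) : ℝ)
          : ℂ) * Complex.I) := by
      rw [hsum]
      unfold e
      congr 1
      have hpi : (Real.pi : ℂ) ≠ 0 := by exact_mod_cast Real.pi_ne_zero
      push_cast
      field_simp
    rw [he, ← Complex.exp_add, ← add_mul, ← Complex.ofReal_add]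
    refine (B11_exp _ _).trans ?_
    rw [hlog]
    have e2 : t * (Real.log n + Real.log (1 + z)) - (t * Real.log n +
        t * ∑ j : Fin k, (-1) ^ j.val * z ^ (j.val + 1) / ((j.val : ℝ) + 1)) =
        t * (Real.log (1 + z) -
          ∑ j : Fin k, (-1) ^ j.val * z ^ (j.val + 1) / ((j.val : ℝ) + 1)) := by ring
    rw [e2, abs_mul, abs_of_nonneg ht]
    have h3 := log_taylor k z hz0 hz2
    have h4 : z ^ (k + 1) ≤ ((Y : ℝ) ^ 2 / n) ^ (k + 1) := pow_le_pow_left₀ hz0 hzY _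
    calc t * |Real.log (1 + z) -
          ∑ j : Fin k, (-1) ^ j.val * z ^ (j.val + 1) / ((j.val : ℝ) + 1)|
        ≤ t * (2 * z ^ (k + 1)) := mul_le_mul_of_nonneg_left h3 ht
      _ ≤ t * (2 * ((Y : ℝ) ^ 2 / n) ^ (k + 1)) := by gcongr
      _ = 2 * t * ((Y : ℝ) ^ 2 / n) ^ (k + 1) := by ring
  have hsplit : ∑ x ∈ Icc 1 Y, ∑ y ∈ Icc 1 Y, ((n + x * y : ℕ) : ℂ) ^ ((t : ℂ) * Complex.I) =
      Complex.exp (((t * Real.log n : ℝ) : ℂ) * Complex.I) * U k Y (aa k t n) +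
      ∑ x ∈ Icc 1 Y, ∑ y ∈ Icc 1 Y,
        (Complex.exp (((t * Real.log (n + x * y : ℕ) : ℝ) : ℂ) * Complex.I) -
        Complex.exp (((t * Real.log n : ℝ) : ℂ) * Complex.I) *
        e (∑ j : Fin k, aa k t n j * (x : ℝ) ^ (j.val + 1) * (y : ℝ) ^ (j.val + 1))) := by
    unfold U
    rw [Finset.mul_sum, ← Finset.sum_add_distrib]
    refine Finset.sum_congr rfl fun x _ => ?_
    rw [Finset.mul_sum, ← Finset.sum_add_distrib]
    refine Finset.sum_congr rfl fun y _ => ?_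
    rw [hpow (n + x * y) (by omega)]
    ring
  rw [hsplit]
  refine (norm_add_le _ _).trans ?_
  refine add_le_add ?_ ?_
  · rw [norm_mul, Complex.norm_exp_ofReal_mul_I, one_mul]
  · refine (norm_sum_le _ _).trans ?_
    have h5 : ∀ x ∈ Icc 1 Y, ‖∑ y ∈ Icc 1 Y,
        (Complex.exp (((t * Real.log (n + x * y : ℕ) : ℝ) : ℂ) * Complex.I) -
        Complex.exp (((t * Real.log n : ℝ) : ℂ) * Complex.I) *
        e (∑ j : Fin k, aa k t n j * (x : ℝ) ^ (j.val + 1) * (y : ℝ) ^ (j.val + 1)))‖ ≤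
        (Y : ℝ) * (2 * t * ((Y : ℝ) ^ 2 / n) ^ (k + 1)) := by
      intro x hx
      refine (norm_sum_le _ _).trans ?_
      refine (Finset.sum_le_sum fun y hy => key x hx y hy).trans ?_
      rw [Finset.sum_const, Nat.card_Icc, nsmul_eq_mul]
      simp
    refine (Finset.sum_le_sum h5).trans ?_
    rw [Finset.sum_const, Nat.card_Icc, nsmul_eq_mul]
    simp only [Nat.add_sub_cancel]
    apply le_of_eq
    ring

end Pool.Agent.Lib.H31V
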