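import Pool.Agent.Lib.H31V.Defs

/-!
# B12: averaging over shifts
-/

open Finset

namespace Pool.Agent.Lib.H31V

private theorem B12_tel (f : ℕ → ℂ) (N N' a : ℕ) (h : N ≤ N') :
    (∑ n ∈ Ioc N N', f (n + (a + 1))) - ∑ n ∈ Ioc N N', f (n + a) =
      f (N' + (a + 1)) - f (N + (a + 1)) := by
  induction N', h using Nat.le_induction with
  | base => simp
  | succ m hm ih =>
    rw [Finset.sum_Ioc_succ_top (by omega), Finset.sum_Ioc_succ_top (by omega)]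
    have h1 : m + 1 + a = m + (a + 1) := by omega
    rw [h1]
    linear_combination ih

private theorem B12_shift (f : ℕ → ℂ) (hf : ∀ n, ‖f n‖ ≤ 1) (N N' : ℕ) (h : N ≤ N') (a : ℕ) :
    ‖(∑ n ∈ Ioc N N', f n) - ∑ n ∈ Ioc N N', f (n + a)‖ ≤ 2 * (a : ℝ) := by
  induction a with
  | zero => simp
  | succ a ih =>
    have h1 := B12_tel f N N' a h
    have h2 : (∑ n ∈ Ioc N N', f n) - ∑ n ∈ Ioc N N', f (n + (a + 1)) =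
        ((∑ n ∈ Ioc N N', f n) - ∑ n ∈ Ioc N N', f (n + a)) -
          (f (N' + (a + 1)) - f (N + (a + 1))) := by
      rw [← h1]
      ring
    rw [h2]
    have h3 := norm_sub_le ((∑ n ∈ Ioc N N', f n) - ∑ n ∈ Ioc N N', f (n + a))
      (f (N' + (a + 1)) - f (N + (a + 1)))
    have h4 := norm_sub_le (f (N' + (a + 1))) (f (N + (a + 1)))
    have h5 := hf (N' + (a + 1))
    have h6 := hf (N + (a + 1))
    push_cast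
    linarith

/-- Proof: for each `x, y ∈ [1, Y]` the sums `∑_{N < n ≤ N'} f(n)` and `∑_{N < n ≤ N'} f(n + xy)`
differ by at most `2xy ≤ 2Y^2` terms of norm `≤ 1`. Average over the `Y^2` pairs and exchange the
sums. -/
theorem shift_average (f : ℕ → ℂ) (hf : ∀ n, ‖f n‖ ≤ 1) (N N' Y : ℕ) (hY : 1 ≤ Y) (h : N ≤ N') :
    ‖∑ n ∈ Ioc N N', f n‖ ≤ (1 / (Y : ℝ) ^ 2) * ∑ n ∈ Ioc N N',
      ‖∑ x ∈ Icc 1 Y, ∑ y ∈ Icc 1 Y, f (n + x * y)‖ + 2 * (Y : ℝ) ^ 2 := by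
  have hY0 : (0 : ℝ) < Y := by exact_mod_cast hY
  have hY2 : (0 : ℝ) < (Y : ℝ) ^ 2 := by positivity
  obtain ⟨F, hF⟩ : ∃ F : ℂ, F = ∑ n ∈ Ioc N N', f n := ⟨_, rfl⟩
  rw [← hF]
  have h1 : ∑ x ∈ Icc 1 Y, ∑ y ∈ Icc 1 Y, F = ((Y : ℂ) ^ 2) * F := by
    simp only [Finset.sum_const, Nat.card_Icc, Nat.add_sub_cancel, nsmul_eq_mul]
    ring
  have h2 : ∑ x ∈ Icc 1 Y, ∑ y ∈ Icc 1 Y, ∑ n ∈ Ioc N N', f (n + x * y) =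
      ∑ n ∈ Ioc N N', ∑ x ∈ Icc 1 Y, ∑ y ∈ Icc 1 Y, f (n + x * y) := by
    rw [Finset.sum_comm]
    rw [Finset.sum_comm]
    simp only [Finset.sum_comm (s := Icc 1 Y) (t := Ioc N N')]
  have h3 : ‖(∑ x ∈ Icc 1 Y, ∑ y ∈ Icc 1 Y, F) -
      ∑ x ∈ Icc 1 Y, ∑ y ∈ Icc 1 Y, ∑ n ∈ Ioc N N', f (n + x * y)‖ ≤
        (Y : ℝ) ^ 2 * (2 * (Y : ℝ) ^ 2) := by
    rw [← Finset.sum_sub_distrib]
    have h4 : ∀ x ∈ Icc 1 Y, ‖(∑ y ∈ Icc 1 Y, F) - ∑ y ∈ Icc 1 Y, ∑ n ∈ Ioc N N', f (n + x * y)‖ ≤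
        (Y : ℝ) * (2 * (Y : ℝ) ^ 2) := by
      intro x hx
      rw [← Finset.sum_sub_distrib]
      have h5 : ∀ y ∈ Icc 1 Y, ‖F - ∑ n ∈ Ioc N N', f (n + x * y)‖ ≤ 2 * (Y : ℝ) ^ 2 := by
        intro y hy
        rw [hF]
        refine (B12_shift f hf N N' h (x * y)).trans ?_
        have hx1 : (x : ℝ) ≤ Y := by exact_mod_cast (Finset.mem_Icc.1 hx).2
        have hy1 : (y : ℝ) ≤ Y := by exact_mod_cast (Finset.mem_Icc.1 hy).2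
        have h6 : (x : ℝ) * y ≤ Y * Y := mul_le_mul hx1 hy1 (Nat.cast_nonneg _) hY0.le
        push_cast
        nlinarith
      refine (Finset.sum_le_card_nsmul _ _ _ h5 |> (norm_sum_le _ _).trans).trans ?_
      simp
    refine (Finset.sum_le_card_nsmul _ _ _ h4 |> (norm_sum_le _ _).trans).trans ?_
    simp only [Nat.card_Icc, Nat.add_sub_cancel, nsmul_eq_mul]
    apply le_of_eq
    ring
  rw [h1, h2] at h3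
  have h7 : ‖((Y : ℂ) ^ 2) * F‖ = (Y : ℝ) ^ 2 * ‖F‖ := by
    rw [norm_mul, norm_pow, Complex.norm_natCast]
  have h8 : ‖∑ n ∈ Ioc N N', ∑ x ∈ Icc 1 Y, ∑ y ∈ Icc 1 Y, f (n + x * y)‖ ≤
      ∑ n ∈ Ioc N N', ‖∑ x ∈ Icc 1 Y, ∑ y ∈ Icc 1 Y, f (n + x * y)‖ := norm_sum_le _ _
  have h9 : (Y : ℝ) ^ 2 * ‖F‖ ≤ (∑ n ∈ Ioc N N', ‖∑ x ∈ Icc 1 Y, ∑ y ∈ Icc 1 Y, f (n + x * y)‖) +
      (Y : ℝ) ^ 2 * (2 * (Y : ℝ) ^ 2) := by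
    rw [← h7]
    have h10 := norm_le_norm_sub_add (((Y : ℂ) ^ 2) * F)
      (∑ n ∈ Ioc N N', ∑ x ∈ Icc 1 Y, ∑ y ∈ Icc 1 Y, f (n + x * y))
    linarith
  have h11 : ‖F‖ = (1 / (Y : ℝ) ^ 2) * ((Y : ℝ) ^ 2 * ‖F‖) := by
    field_simp
  rw [h11]
  calc (1 / (Y : ℝ) ^ 2) * ((Y : ℝ) ^ 2 * ‖F‖)
      ≤ (1 / (Y : ℝ) ^ 2) * ((∑ n ∈ Ioc N N', ‖∑ x ∈ Icc 1 Y, ∑ y ∈ Icc 1 Y, f (n + x * y)‖) +
        (Y : ℝ) ^ 2 * (2 * (Y : ℝ) ^ 2)) := mul_le_mul_of_nonneg_left h9 (by positivity)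
    _ = _ := by
      field_simp

end Pool.Agent.Lib.H31V
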