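import Pool.Agent.Lib.H31V.B1
import Pool.Agent.Lib.H31V.A2

/-!
# B2: the representation numbers `R(μ)` of the differences of power sums
-/

open Finset

namespace Pool.Agent.Lib.H31V

open Classical in
/-- Number of pairs `(y, y')` of `s`-tuples with `ps y - ps y' = μ`. -/
noncomputable def R (k s Y : ℕ) (μ : Fin k → ℤ) : ℕ :=
  ((tup s (Icc (1 : ℤ) Y) ×ˢ tup s (Icc (1 : ℤ) Y)).filter
    (fun z => ps k z.1 - ps k z.2 = μ)).card

/-- The box `|μ_j| ≤ s Y^(j+1)`. -/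
noncomputable def bx (k s Y : ℕ) : Finset (Fin k → ℤ) :=
  Fintype.piFinset (fun j => Icc (-((s * Y ^ (j.val + 1) : ℕ) : ℤ)) ((s * Y ^ (j.val + 1) : ℕ) : ℤ))

/-- `h(μ) = ∑_x e(∑_j α_j μ_j x^(j+1))`. -/
noncomputable def hh (k Y : ℕ) (α : Fin k → ℝ) (μ : Fin k → ℤ) : ℂ :=
  ∑ x ∈ Icc 1 Y, e (∑ j : Fin k, α j * (μ j : ℝ) * (x : ℝ) ^ (j.val + 1))

theorem b2_ps {k s Y : ℕ} {z : Fin s → ℤ} (hz : z ∈ tup s (Icc (1 : ℤ) Y)) (j : Fin k) :
    0 ≤ ps k z j ∧ ps k z j ≤ ((s * Y ^ (j.val + 1) : ℕ) : ℤ) := by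
  unfold tup at hz
  rw [Fintype.mem_piFinset] at hz
  unfold ps
  constructor
  · apply Finset.sum_nonneg
    intro i _
    have h1 := (Finset.mem_Icc.1 (hz i)).1
    exact pow_nonneg (by omega) _
  · have h2 : ∑ i : Fin s, z i ^ (j.val + 1) ≤ ∑ _i : Fin s, (Y : ℤ) ^ (j.val + 1) := by
      apply Finset.sum_le_sum
      intro i _
      have h1 := Finset.mem_Icc.1 (hz i)
      exact pow_le_pow_left₀ (by omega) h1.2 _
    refine h2.trans (le_of_eq ?_)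
    rw [Finset.sum_const, Finset.card_univ, Fintype.card_fin, nsmul_eq_mul]
    push_cast
    rfl

/-- `ps k z.1 - ps k z.2` lies in the box. -/
theorem ps_sub_mem (k s Y : ℕ) (z : (Fin s → ℤ) × (Fin s → ℤ))
    (hz : z ∈ tup s (Icc (1 : ℤ) Y) ×ˢ tup s (Icc (1 : ℤ) Y)) : ps k z.1 - ps k z.2 ∈ bx k s Y := by
  rw [Finset.mem_product] at hz
  unfold bx
  rw [Fintype.mem_piFinset]
  intro j
  rw [Finset.mem_Icc, Pi.sub_apply]
  have h1 := b2_ps (k := k) hz.1 j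
  have h2 := b2_ps (k := k) hz.2 j
  constructor <;> omega

/-- `∑ R = Y^(2s)` (fibres over the box). -/
theorem sum_R (k s Y : ℕ) : ∑ μ ∈ bx k s Y, R k s Y μ = Y ^ (2 * s) := by
  classical
  have h1 := Finset.card_eq_sum_card_fiberwise
    (f := fun z : (Fin s → ℤ) × (Fin s → ℤ) => ps k z.1 - ps k z.2)
    (s := tup s (Icc (1 : ℤ) Y) ×ˢ tup s (Icc (1 : ℤ) Y)) (t := bx k s Y)
    (fun z hz => ps_sub_mem k s Y z hz)
  have h2 : (tup s (Icc (1 : ℤ) Y) ×ˢ tup s (Icc (1 : ℤ) Y)).card = Y ^ (2 * s) := by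
    rw [Finset.card_product]
    unfold tup
    rw [Fintype.card_piFinset]
    simp
    ring
  rw [← h2, h1]
  apply Finset.sum_congr rfl
  intro μ _
  unfold R
  congr

/-- `R ≤ J` (`JB_shift`). -/
theorem R_le (k s Y : ℕ) (μ : Fin k → ℤ) : R k s Y μ ≤ J k s Y := by
  classical
  refine le_trans ?_ (JB_shift k s (Icc (1 : ℤ) Y) μ)
  unfold R
  apply Finset.card_le_card
  intro z hz
  rw [Finset.mem_filter] at hz ⊢
  exact ⟨hz.1, by rw [← hz.2]; abel⟩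

/-- Sums over pairs, sorted by the difference of the power sums. -/
theorem sum_pairs (k s Y : ℕ) (F : (Fin k → ℤ) → ℂ) :
    ∑ z ∈ tup s (Icc (1 : ℤ) Y) ×ˢ tup s (Icc (1 : ℤ) Y), F (ps k z.1 - ps k z.2) =
      ∑ μ ∈ bx k s Y, (R k s Y μ : ℂ) * F μ := by
  classical
  rw [← Finset.sum_fiberwise_of_maps_to
    (g := fun z : (Fin s → ℤ) × (Fin s → ℤ) => ps k z.1 - ps k z.2) (t := bx k s Y)
    (fun z hz => ps_sub_mem k s Y z hz)]
  apply Finset.sum_congr rfl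
  intro μ _
  have h1 : ∀ z ∈ (tup s (Icc (1 : ℤ) Y) ×ˢ tup s (Icc (1 : ℤ) Y)).filter
      (fun z => ps k z.1 - ps k z.2 = μ), F (ps k z.1 - ps k z.2) = F μ := by
    intro z hz
    rw [(Finset.mem_filter.1 hz).2]
  rw [Finset.sum_congr rfl h1, Finset.sum_const, nsmul_eq_mul]
  unfold R
  congr

end Pool.Agent.Lib.H31V
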