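import Pool.Agent.Lib.H31V.B2

/-!
# B3: first Hölder step
-/

open Finset

namespace Pool.Agent.Lib.H31V

/-- Proof: `‖U‖ ≤ ∑_x ‖g_x‖`, `g_x = ∑_y e(∑_j (α_j x^(j+1)) y^(j+1))`, so
`‖U‖^(2s) ≤ Y^(2s-1) ∑_x ‖g_x‖^(2s)` (power mean). By `norm_pow_eq` (`b_j = α_j x^(j+1)`) and
`sum_pairs`: `‖g_x‖^(2s) = ∑_μ R(μ) e(∑_j α_j x^(j+1) μ_j)`; sum over `x`:
`∑_x ‖g_x‖^(2s) = ∑_μ R(μ) hh(μ)`, whose norm is at most `∑ R(μ) ‖hh(μ)‖`. -/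
theorem step_one (k s Y : ℕ) (hs : 1 ≤ s) (hY : 1 ≤ Y) (α : Fin k → ℝ) :
    ‖U k Y α‖ ^ (2 * s) ≤ (Y : ℝ) ^ (2 * s - 1) *
      ∑ μ ∈ bx k s Y, (R k s Y μ : ℝ) * ‖hh k Y α μ‖ := by
  obtain ⟨g, hg⟩ : ∃ g : ℕ → ℂ, g = fun x : ℕ => ∑ y ∈ Icc 1 Y,
      e (∑ j : Fin k, (α j * (x : ℝ) ^ (j.val + 1)) * (y : ℝ) ^ (j.val + 1)) := ⟨_, rfl⟩
  have hU : U k Y α = ∑ x ∈ Icc 1 Y, g x := by
    rw [hg]
    rfl
  have h1 : ‖U k Y α‖ ≤ ∑ x ∈ Icc 1 Y, ‖g x‖ := by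
    rw [hU]
    exact norm_sum_le _ _
  have h2 := pow_sum_div_card_le_sum_pow (s := Icc 1 Y) (f := fun x => ‖g x‖)
    (fun x _ => norm_nonneg _) (2 * s - 1)
  have e1 : 2 * s - 1 + 1 = 2 * s := by omega
  rw [e1, Nat.card_Icc, Nat.add_sub_cancel] at h2
  have hYp : (0 : ℝ) < (Y : ℝ) ^ (2 * s - 1) := by
    have : (0 : ℝ) < (Y : ℝ) := by exact_mod_cast hY
    positivity
  rw [div_le_iff₀ hYp] at h2
  have h3 : ∑ x ∈ Icc 1 Y, ‖g x‖ ^ (2 * s) ≤ ∑ μ ∈ bx k s Y, (R k s Y μ : ℝ) * ‖hh k Y α μ‖ := by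
    have h4 : ((∑ x ∈ Icc 1 Y, ‖g x‖ ^ (2 * s) : ℝ) : ℂ) =
        ∑ μ ∈ bx k s Y, (R k s Y μ : ℂ) * hh k Y α μ := by
      rw [Complex.ofReal_sum]
      have h5 : ∀ x ∈ Icc 1 Y, ((‖g x‖ ^ (2 * s) : ℝ) : ℂ) = ∑ μ ∈ bx k s Y, (R k s Y μ : ℂ) *
          e (∑ j : Fin k, α j * (μ j : ℝ) * (x : ℝ) ^ (j.val + 1)) := by
        intro x _
        rw [hg]
        dsimp only
        rw [norm_pow_eq k s Y (fun j => α j * (x : ℝ) ^ (j.val + 1)),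
          ← sum_pairs k s Y (fun μ => e (∑ j : Fin k, α j * (μ j : ℝ) * (x : ℝ) ^ (j.val + 1)))]
        apply Finset.sum_congr rfl
        intro z _
        congr 1
        apply Finset.sum_congr rfl
        intro j _
        rw [Pi.sub_apply]
        push_cast
        ring
      rw [Finset.sum_congr rfl h5, Finset.sum_comm]
      apply Finset.sum_congr rfl
      intro μ _
      rw [← Finset.mul_sum]
      rfl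
    have h6 : ∑ x ∈ Icc 1 Y, ‖g x‖ ^ (2 * s) =
        ‖((∑ x ∈ Icc 1 Y, ‖g x‖ ^ (2 * s) : ℝ) : ℂ)‖ := by
      rw [Complex.norm_real, Real.norm_of_nonneg]
      exact Finset.sum_nonneg fun x _ => by positivity
    rw [h6, h4]
    refine (norm_sum_le _ _).trans (Finset.sum_le_sum fun μ _ => ?_)
    rw [norm_mul, Complex.norm_natCast]
  calc ‖U k Y α‖ ^ (2 * s) ≤ (∑ x ∈ Icc 1 Y, ‖g x‖) ^ (2 * s) :=
        pow_le_pow_left₀ (norm_nonneg _) h1 _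
    _ ≤ (∑ x ∈ Icc 1 Y, ‖g x‖ ^ (2 * s)) * (Y : ℝ) ^ (2 * s - 1) := h2
    _ ≤ (∑ μ ∈ bx k s Y, (R k s Y μ : ℝ) * ‖hh k Y α μ‖) * (Y : ℝ) ^ (2 * s - 1) :=
        mul_le_mul_of_nonneg_right h3 hYp.le
    _ = _ := mul_comm _ _

end Pool.Agent.Lib.H31V
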