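import Pool.Agent.Lib.H31V.B1

/-!
# B7: the sums `VV`
-/

open Finset

namespace Pool.Agent.Lib.H31V

theorem VV_nonneg (a : ℝ) (M : ℕ) : 0 ≤ VV a M :=
  Finset.sum_nonneg fun _ _ => norm_nonneg _

private lemma B7_card (M : ℕ) : ((Icc (-(M : ℤ)) M).card : ℝ) = 2 * (M : ℝ) + 1 := by
  have h : (Icc (-(M : ℤ)) M).card = 2 * M + 1 := by
    rw [Int.card_Icc]; omega
  rw [h]; push_cast; ring

private lemma B7_inner (M : ℕ) (f : ℤ → ℝ) :
    ‖∑ μ ∈ Icc (-(M : ℤ)) M, e (f μ)‖ ≤ 2 * (M : ℝ) + 1 := by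
  refine (norm_sum_le _ _).trans ?_
  simp only [norm_e, Finset.sum_const, nsmul_eq_mul, mul_one]
  exact (B7_card M).le

theorem VV_trivial (a : ℝ) (M : ℕ) : VV a M ≤ (2 * (M : ℝ) + 1) ^ 2 := by
  unfold VV
  refine (Finset.sum_le_sum (g := fun _ => 2 * (M : ℝ) + 1) fun ν _ => ?_).trans ?_
  · exact B7_inner M fun μ => a * μ * ν
  · simp only [Finset.sum_const, nsmul_eq_mul]
    rw [B7_card, sq]

private lemma B7_e_sub_one (θ : ℝ) (h : |θ| ≤ 1 / 2) : 4 * |θ| ≤ ‖e θ - 1‖ := by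
  have h1 : ‖e θ - 1‖ = 2 * |Real.sin (Real.pi * θ)| := by
    have h2 : e θ - 1 = e (θ / 2) * (e (θ / 2) - e (-(θ / 2))) := by
      rw [mul_sub, ← e_add, ← e_add]
      have : (1 : ℂ) = e 0 := by simp [e]
      rw [this]
      congr 2 <;> ring
    have h3 : e (θ / 2) - e (-(θ / 2)) = 2 * Complex.I * (Real.sin (Real.pi * θ) : ℂ) := by
      unfold e
      rw [Complex.ofReal_sin, Complex.sin]
      push_cast
      have e1 : (2 * (Real.pi : ℂ) * ((θ : ℂ) / 2) * Complex.I) = (Real.pi * θ : ℂ) * Complex.I := by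
        ring
      have e2 : (2 * (Real.pi : ℂ) * (-((θ : ℂ) / 2)) * Complex.I) =
          -(Real.pi * θ : ℂ) * Complex.I := by
        ring
      rw [e1, e2]
      have hI : Complex.I * Complex.I = -1 := Complex.I_mul_I
      linear_combination (Complex.exp (Real.pi * θ * Complex.I) -
        Complex.exp (-(Real.pi * θ) * Complex.I)) * hI
    rw [h2, h3, norm_mul, norm_e, one_mul, norm_mul, norm_mul, Complex.norm_I, mul_one,
      Complex.norm_real, Real.norm_eq_abs]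
    simp
  rw [h1]
  have hpi := Real.pi_pos
  have h4 : |Real.sin (Real.pi * θ)| = Real.sin (Real.pi * |θ|) := by
    rcases abs_cases θ with ⟨h5, h6⟩ | ⟨h5, h6⟩
    · rw [h5]
      refine abs_of_nonneg (Real.sin_nonneg_of_nonneg_of_le_pi (by positivity) ?_)
      rw [h5] at h
      nlinarith
    · rw [h5, mul_neg, Real.sin_neg]
      refine abs_of_nonpos (Real.sin_nonpos_of_nonpos_of_neg_pi_le ?_ ?_)
      · nlinarith
      · rw [h5] at h
        nlinarith
  rw [h4]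
  have h7 := Real.mul_le_sin (x := Real.pi * |θ|) (by positivity) (by nlinarith [abs_nonneg θ])
  have h8 : 2 / Real.pi * (Real.pi * |θ|) = 2 * |θ| := by
    field_simp
  linarith

/-- Geometric sum: `|∑_{|μ| ≤ M} e(θ μ)| ≤ 1/(2|θ|)` for `0 < |θ| ≤ 1/2`.
Proof: `(e(θ) - 1) ∑ = e(θ(M+1)) - e(-θM)` has norm `≤ 2`, and `|e(θ) - 1| = 2|sin πθ| ≥ 4|θ|`
(`Real.mul_le_sin`, `2/π x ≤ sin x` on `[0, π/2]`). -/
theorem geom_bound (θ : ℝ) (M : ℕ) (h0 : θ ≠ 0) (h : |θ| ≤ 1 / 2) :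
    ‖∑ μ ∈ Icc (-(M : ℤ)) M, e (θ * μ)‖ ≤ 1 / (2 * |θ|) := by
  have htel : ∀ K : ℕ, (e θ - 1) * ∑ μ ∈ Icc (-(K : ℤ)) K, e (θ * μ) =
      e (θ * (K + 1)) - e (-(θ * K)) := by
    intro K
    induction K with
    | zero => simp [e]
    | succ K ih =>
      have hs : Icc (-((K + 1 : ℕ) : ℤ)) ((K + 1 : ℕ) : ℤ) =
          insert ((K : ℤ) + 1) (insert (-((K : ℤ) + 1)) (Icc (-(K : ℤ)) K)) := by
        ext x
        simp only [mem_Icc, mem_insert]
        push_cast
        omega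
      have hn1 : (-((K : ℤ) + 1)) ∉ Icc (-(K : ℤ)) K := by
        simp only [mem_Icc]; omega
      have hn2 : ((K : ℤ) + 1) ∉ insert (-((K : ℤ) + 1)) (Icc (-(K : ℤ)) K) := by
        simp only [mem_Icc, mem_insert]; omega
      rw [hs, Finset.sum_insert hn2, Finset.sum_insert hn1, mul_add, mul_add, ih]
      push_cast
      have e1 : e (θ * (K + 1 + 1)) = e θ * e (θ * (K + 1)) := by
        rw [← e_add]; congr 1; ring
      have e2 : e (-(θ * K)) = e θ * e (θ * (-1 + -K)) := by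
        rw [← e_add]; congr 1; ring
      have e3 : e (θ * -(K + 1 : ℝ)) = e (θ * (-1 + -K)) := by
        congr 1; ring
      have e4 : e (-(θ * (K + 1))) = e (θ * (-1 + -K)) := by
        congr 1; ring
      simp only [e3, e4]
      rw [e1, e2]
      ring
  have h1 := congrArg norm (htel M)
  rw [norm_mul] at h1
  have h2 : ‖e (θ * (M + 1)) - e (-(θ * M))‖ ≤ 2 := by
    refine (norm_sub_le _ _).trans ?_
    rw [norm_e, norm_e]; norm_num
  have h3 := B7_e_sub_one θ h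
  have h4 : 0 < |θ| := abs_pos.mpr h0
  rw [le_div_iff₀ (by positivity)]
  have h5 : 0 ≤ ‖∑ μ ∈ Icc (-(M : ℤ)) M, e (θ * μ)‖ := norm_nonneg _
  nlinarith

/-- Proof: `ν = 0` contributes `2M + 1`; `ν` and `-ν` (`1 ≤ ν ≤ M`, `|aν| ≤ 1/2`) together at most
`1/(|a| ν)` (`geom_bound` with `θ = a ν`), and `∑_{ν ≤ M} 1/ν ≤ 1 + log M`
(`harmonic_le_one_add_log`). -/
theorem VV_small (a : ℝ) (M : ℕ) (hM : 1 ≤ M) (ha : a ≠ 0) (h : |a| * M ≤ 1 / 2) :
    VV a M ≤ (2 * (M : ℝ) + 1) + (1 + Real.log M) / |a| := by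
  have ha0 : 0 < |a| := abs_pos.mpr ha
  have key : ∀ K : ℕ, K ≤ M →
      ∑ ν ∈ Icc (-(K : ℤ)) K, ‖∑ μ ∈ Icc (-(M : ℤ)) M, e (a * μ * ν)‖ ≤
        (2 * (M : ℝ) + 1) + (harmonic K : ℝ) / |a| := by
    intro K
    induction K with
    | zero =>
      intro _
      have hz := B7_inner M fun μ => a * μ * (0 : ℤ)
      simpa using hz
    | succ K ih =>
      intro hK
      have hs : Icc (-((K + 1 : ℕ) : ℤ)) ((K + 1 : ℕ) : ℤ) =
          insert ((K : ℤ) + 1) (insert (-((K : ℤ) + 1)) (Icc (-(K : ℤ)) K)) := by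
        ext x
        simp only [mem_Icc, mem_insert]
        push_cast
        omega
      have hn1 : (-((K : ℤ) + 1)) ∉ Icc (-(K : ℤ)) K := by
        simp only [mem_Icc]; omega
      have hn2 : ((K : ℤ) + 1) ∉ insert (-((K : ℤ) + 1)) (Icc (-(K : ℤ)) K) := by
        simp only [mem_Icc, mem_insert]; omega
      have hgen : ∀ ν : ℤ, |(ν : ℝ)| = (K : ℝ) + 1 →
          ‖∑ μ ∈ Icc (-(M : ℤ)) M, e (a * μ * ν)‖ ≤ 1 / (2 * (|a| * (K + 1))) := by
        intro ν hν
        have hKM : ((K : ℝ) + 1) ≤ M := by exact_mod_cast hK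
        have hpos : (0 : ℝ) < (K : ℝ) + 1 := by positivity
        have hν0 : (ν : ℝ) ≠ 0 := by
          intro h0; rw [h0, abs_zero] at hν; linarith
        have hθ : |a * ν| = |a| * (K + 1) := by rw [abs_mul, hν]
        have hb := geom_bound (a * ν) M (mul_ne_zero ha hν0) (by
          rw [hθ]; nlinarith)
        rw [hθ] at hb
        have hrew : ∀ μ : ℤ, a * μ * ν = a * ν * μ := fun μ => by ring
        simp only [hrew]
        exact hb
      have hb1 := hgen ((K : ℤ) + 1) (by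
        push_cast; exact abs_of_nonneg (by positivity))
      have hb2 := hgen (-((K : ℤ) + 1)) (by
        push_cast; rw [abs_neg]; exact abs_of_nonneg (by positivity))
      rw [hs, Finset.sum_insert hn2, Finset.sum_insert hn1]
      have ih' := ih (by omega)
      have hh : ((harmonic (K + 1) : ℚ) : ℝ) = (harmonic K : ℝ) + 1 / ((K : ℝ) + 1) := by
        rw [harmonic_succ]; push_cast; rw [one_div]
      rw [hh, add_div]
      have hsum : 1 / (2 * (|a| * ((K : ℝ) + 1))) + 1 / (2 * (|a| * ((K : ℝ) + 1))) =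
          1 / ((K : ℝ) + 1) / |a| := by
        field_simp
        norm_num
      linarith
  have h1 := key M le_rfl
  have h2 : ((harmonic M : ℚ) : ℝ) ≤ 1 + Real.log M := harmonic_le_one_add_log M
  have h3 : (harmonic M : ℝ) / |a| ≤ (1 + Real.log M) / |a| :=
    div_le_div_of_nonneg_right h2 ha0.le
  unfold VV
  linarith

end Pool.Agent.Lib.H31V
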