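import Pool.Agent.Lib.H31V.B7

/-!
# B8: the middle factors

Throughout `L = log t / log N ≥ 1`, `k = ⌈3L⌉`, `s = k(8k+1)`, `Y = ⌊N^(3/10)⌋`.
-/

open Finset

namespace Pool.Agent.Lib.H31V

/-- The parameters. -/
noncomputable def LL (t : ℝ) (N : ℕ) : ℝ := Real.log t / Real.log N
noncomputable def kk (t : ℝ) (N : ℕ) : ℕ := ⌈3 * LL t N⌉₊
noncomputable def sk (t : ℝ) (N : ℕ) : ℕ := kk t N * (8 * kk t N + 1)
noncomputable def YY (N : ℕ) : ℕ := ⌊(N : ℝ) ^ (3 / 10 : ℝ)⌋₊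

private theorem B8_exp_ge (c : ℝ) (n : ℕ) (h : (n : ℝ) ≤ c) : (2 : ℝ) ^ n ≤ Real.exp c := by
  have h1 : (2 : ℝ) ≤ Real.exp 1 := by
    have := Real.add_one_le_exp (1 : ℝ)
    linarith
  calc (2 : ℝ) ^ n ≤ Real.exp 1 ^ n := by gcongr
    _ = Real.exp n := by rw [← Real.exp_nat_mul, mul_one]
    _ ≤ Real.exp c := Real.exp_le_exp.mpr h

private theorem B8_pow_le_exp (b : ℝ) (c : ℝ) (m : ℕ) (hb : 0 ≤ b) (h : b ≤ Real.exp c) :
    b ^ m ≤ Real.exp (c * m) := by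
  calc b ^ m ≤ Real.exp c ^ m := by gcongr
    _ = Real.exp (c * m) := by rw [← Real.exp_nat_mul]; congr 1; ring

private theorem B8_core (α L ℓ M S x Y V : ℝ) (m : ℕ) (t nm : ℝ)
    (hL : 1 ≤ L) (hℓ : 2000 ≤ ℓ) (hm1 : 3 / 2 * L ≤ m) (hm2 : (m : ℝ) ≤ 12 / 5 * L)
    (hS1 : 1 ≤ S) (hS2 : S ≤ 144 * L ^ 2) (ht : t = Real.exp (L * ℓ))
    (hn1 : Real.exp (m * ℓ) ≤ nm) (hn2 : nm ≤ 2 ^ m * Real.exp (m * ℓ))
    (hx : x = Real.exp (3 / 10 * ℓ)) (hY1 : Y ≤ x) (hY2 : x / 2 ≤ Y) (hM : M = S * Y ^ m)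
    (hM1 : 1 ≤ M) (hα : α = t / (2 * Real.pi * m * nm))
    (hV : |α| * M ≤ 1 / 2 → V ≤ (2 * M + 1) + (1 + Real.log M) / |α|) :
    V ≤ Y ^ (2 * m) * Real.exp (-(L * ℓ / 50)) := by
  have hm0 : (1 : ℝ) ≤ m := by linarith
  have hmpos : (0 : ℝ) < m := by linarith
  have hxpos : 0 < x := by rw [hx]; exact Real.exp_pos _
  have hYpos : 0 < Y := by linarith
  have hu : 2000 * L ≤ L * ℓ := by nlinarith
  have hpi := Real.pi_gt_three
  have hpi2 := Real.pi_lt_d2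
  have hpipos := Real.pi_pos
  have hnpos : 0 < nm := lt_of_lt_of_le (Real.exp_pos _) hn1
  have hαpos : 0 < α := by rw [hα, ht]; positivity
  have hL2 : L ^ 2 ≤ 2 * Real.exp L := by
    have := Real.quadratic_le_exp_of_nonneg (show 0 ≤ L by linarith)
    nlinarith
  have hLe : L ≤ Real.exp L := by
    have := Real.add_one_le_exp L
    linarith
  have hmℓ : 3 / 2 * (L * ℓ) ≤ m * ℓ := by nlinarith
  have hmℓ2 : m * ℓ ≤ 12 / 5 * (L * ℓ) := by nlinarith
  have hYm : Y ^ m ≤ Real.exp (3 / 10 * (m * ℓ)) := by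
    calc Y ^ m ≤ x ^ m := by gcongr
      _ = Real.exp (3 / 10 * (m * ℓ)) := by
        rw [hx, ← Real.exp_nat_mul]; congr 1; ring
  have h2m : (2 : ℝ) ^ m ≤ Real.exp m := B8_exp_ge _ _ le_rfl
  have hYm2 : Real.exp (3 / 10 * (m * ℓ) - m) ≤ Y ^ m := by
    calc Real.exp (3 / 10 * (m * ℓ) - m) = Real.exp (3 / 10 * (m * ℓ)) / Real.exp m := by
          rw [Real.exp_sub]
      _ ≤ Real.exp (3 / 10 * (m * ℓ)) / 2 ^ m := by gcongr
      _ = (x / 2) ^ m := by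
        rw [div_pow, hx, ← Real.exp_nat_mul]; congr 2; ring
      _ ≤ Y ^ m := by gcongr
  -- small
  have hsmall : |α| * M ≤ 1 / 2 := by
    rw [abs_of_pos hαpos, hα, hM, ht]
    have h1 : Real.exp (L * ℓ) / (2 * Real.pi * m * nm) ≤ Real.exp (L * ℓ) / Real.exp (m * ℓ) := by
      gcongr
      calc Real.exp (m * ℓ) ≤ nm := hn1
        _ = 1 * 1 * 1 * nm := by ring
        _ ≤ 2 * Real.pi * m * nm := by gcongr <;> linarith
    calc Real.exp (L * ℓ) / (2 * Real.pi * m * nm) * (S * Y ^ m)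
        ≤ Real.exp (L * ℓ) / Real.exp (m * ℓ) *
          (144 * (2 * Real.exp L) * Real.exp (3 / 10 * (m * ℓ))) := by
          gcongr
          exact hS2.trans (by gcongr)
      _ = 288 * Real.exp (L * ℓ - m * ℓ + L + 3 / 10 * (m * ℓ)) := by
          rw [Real.exp_add, Real.exp_add, Real.exp_sub]; ring
      _ ≤ 288 * Real.exp (-10) := by
          gcongr
          linarith
      _ ≤ 1 / 2 := by
          rw [Real.exp_neg, ← div_eq_mul_inv, div_le_div_iff₀ (Real.exp_pos _) (by norm_num)]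
          have := B8_exp_ge 10 10 (by norm_num)
          norm_num at this ⊢
          linarith
  have hV' := hV hsmall
  rw [abs_of_pos hαpos] at hV'
  -- log M
  have hlogM : Real.log M ≤ 144 * L ^ 2 + L * ℓ := by
    have h1 : Real.log M ≤ Real.log (S * Real.exp (3 / 10 * (m * ℓ))) := by
      apply Real.log_le_log (by linarith)
      rw [hM]
      gcongr
    rw [Real.log_mul (by linarith) (Real.exp_pos _).ne', Real.log_exp] at h1
    have h2 : Real.log S ≤ S := (Real.log_le_sub_one_of_pos (by linarith)).trans (by linarith)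
    linarith
  have hlogM2 : 1 + Real.log M ≤ 490 * Real.exp (L + L * ℓ / 200) := by
    have h1 : 1 + 144 * L ^ 2 ≤ 290 * Real.exp L := by nlinarith
    have h2 : L * ℓ ≤ 200 * Real.exp (L * ℓ / 200) := by
      have := Real.add_one_le_exp (L * ℓ / 200)
      linarith
    have h3 : Real.exp L ≤ Real.exp (L + L * ℓ / 200) := Real.exp_le_exp.mpr (by linarith)
    have h4 : Real.exp (L * ℓ / 200) ≤ Real.exp (L + L * ℓ / 200) :=
      Real.exp_le_exp.mpr (by linarith)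
    linarith
  -- first part
  have hA : 2 * M + 1 ≤ 1 / 2 * (Y ^ (2 * m) * Real.exp (-(L * ℓ / 50))) := by
    have h1 : 2 * M + 1 ≤ 3 * (S * Y ^ m) := by rw [← hM]; linarith
    refine h1.trans ?_
    have h2 : 6 * S * Real.exp (L * ℓ / 50) ≤ Y ^ m := by
      calc 6 * S * Real.exp (L * ℓ / 50) ≤ 6 * (144 * (2 * Real.exp L)) * Real.exp (L * ℓ / 50) := by
            gcongr
            exact hS2.trans (by gcongr)
        _ = 1728 * Real.exp (L + L * ℓ / 50) := by rw [Real.exp_add]; ring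
        _ ≤ Real.exp 11 * Real.exp (L + L * ℓ / 50) := by
            gcongr
            have := B8_exp_ge 11 11 (by norm_num)
            norm_num at this ⊢
            linarith
        _ = Real.exp (11 + (L + L * ℓ / 50)) := by rw [← Real.exp_add]
        _ ≤ Real.exp (3 / 10 * (m * ℓ) - m) := Real.exp_le_exp.mpr (by linarith)
        _ ≤ Y ^ m := hYm2
    have h3 : 3 * (S * Y ^ m) =
        1 / 2 * ((6 * S * Real.exp (L * ℓ / 50)) * Y ^ m * Real.exp (-(L * ℓ / 50))) := by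
      rw [Real.exp_neg]
      have := (Real.exp_pos (L * ℓ / 50)).ne'
      field_simp
      ring
    rw [h3, two_mul m, pow_add]
    gcongr
  -- second part
  have hB : (1 + Real.log M) / α ≤ 1 / 2 * (Y ^ (2 * m) * Real.exp (-(L * ℓ / 50))) := by
    have h1 : 1 / α ≤ 17 * Real.exp L * Real.exp m * Real.exp (m * ℓ - L * ℓ) := by
      rw [hα, ht, one_div_div, Real.exp_sub, mul_div_assoc']
      gcongr ?_ / _
      have h17 : 2 * Real.pi * m ≤ 17 * Real.exp L := by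
        have : 2 * Real.pi * m ≤ 2 * 3.15 * (12 / 5 * L) := by gcongr
        linarith
      calc 2 * Real.pi * m * nm ≤ 17 * Real.exp L * (2 ^ m * Real.exp (m * ℓ)) := by gcongr
        _ ≤ 17 * Real.exp L * (Real.exp m * Real.exp (m * ℓ)) := by gcongr
        _ = 17 * Real.exp L * Real.exp m * Real.exp (m * ℓ) := by ring
    have h0 : 0 ≤ 1 + Real.log M := by
      have := Real.log_nonneg hM1
      linarith
    have h2 : Real.exp (3 / 10 * (m * ℓ) - m) * Real.exp (3 / 10 * (m * ℓ) - m) ≤ Y ^ (2 * m) := by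
      rw [two_mul m, pow_add]
      gcongr
    calc (1 + Real.log M) / α = (1 + Real.log M) * (1 / α) := by ring
      _ ≤ (490 * Real.exp (L + L * ℓ / 200)) *
          (17 * Real.exp L * Real.exp m * Real.exp (m * ℓ - L * ℓ)) := by gcongr
      _ = 1 / 2 * (16660 * Real.exp (L + L * ℓ / 200 + L + m + (m * ℓ - L * ℓ))) := by
          rw [Real.exp_add _ (m * ℓ - L * ℓ), Real.exp_add _ (m : ℝ), Real.exp_add _ L]
          ring
      _ ≤ 1 / 2 * (Real.exp 15 * Real.exp (L + L * ℓ / 200 + L + m + (m * ℓ - L * ℓ))) := by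
          gcongr
          have := B8_exp_ge 15 15 (by norm_num)
          norm_num at this ⊢
          linarith
      _ = 1 / 2 * Real.exp (15 + (L + L * ℓ / 200 + L + m + (m * ℓ - L * ℓ))) := by
          rw [← Real.exp_add]
      _ ≤ 1 / 2 * Real.exp ((3 / 10 * (m * ℓ) - m) + (3 / 10 * (m * ℓ) - m) +
            (-(L * ℓ / 50))) := by
          apply mul_le_mul_of_nonneg_left (Real.exp_le_exp.mpr _) (by norm_num)
          linarith
      _ = 1 / 2 * (Real.exp (3 / 10 * (m * ℓ) - m) * Real.exp (3 / 10 * (m * ℓ) - m) *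
            Real.exp (-(L * ℓ / 50))) := by
          rw [Real.exp_add, Real.exp_add]
      _ ≤ 1 / 2 * (Y ^ (2 * m) * Real.exp (-(L * ℓ / 50))) := by gcongr
  linarith

/-- For `1.5 L ≤ m ≤ 2.4 L` (`m = j + 1`), `N < n ≤ 2N`:
`VV (α_j) (s Y^m) ≤ Y^(2m) N^(-L/50)` if `N ≥ N₀`.
Proof: `|α| = t/(2π m n^m) ≤ t/(2π m N^m)`, `M = s Y^m ≤ s N^(3m/10)`, so
`|α| M ≤ s N^(L - 7m/10) ≤ s N^(-L/20) ≤ 1/2` since `s ≤ 9k^2 ≤ 144 L^2` and `N^(1/20)` is large
(`(N^(1/20))^L ≥ 288 L^2` for all `L ≥ 1`). `VV_small` and `1/|α| ≤ 2π m (2N)^m / t = 2π m 2^m N^(m-L)`,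
`Y ≥ N^(3/10)/2`, so `Y^(-m) ≤ 2^m N^(-3m/10)`, `Y^(-2m) ≤ 4^m N^(-6m/10)`:
`VV Y^(-2m) ≤ 3 s 2^m N^(-3m/10) + (1 + log M) 2π m 8^m N^(4m/10 - L)`, with `3m/10 ≥ 0.45 L` and
`4m/10 - L ≤ -0.04 L`; `log M ≤ log s + L log N`, and `N^(L/50)` beats the factors
`1000 L^3 9^(2.4 L) (1 + log N)` for `N ≥ N₀`. -/
theorem middle : ∃ N₀ : ℕ, ∀ (t : ℝ) (N n m : ℕ), N₀ ≤ N → (N : ℝ) ≤ t → N < n → n ≤ 2 * N →
    3 / 2 * LL t N ≤ m → (m : ℝ) ≤ 12 / 5 * LL t N →
    VV (t / (2 * Real.pi * m * (n : ℝ) ^ m)) (sk t N * YY N ^ m) ≤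
      (YY N : ℝ) ^ (2 * m) * (N : ℝ) ^ (-(LL t N / 50)) := by
  refine ⟨⌈Real.exp 2000⌉₊, fun t N n m hN ht hn1 hn2 hm1 hm2 => ?_⟩
  have hN1 : Real.exp 2000 ≤ (N : ℝ) := (Nat.le_ceil _).trans (by exact_mod_cast hN)
  have hNpos : (0 : ℝ) < N := lt_of_lt_of_le (Real.exp_pos _) hN1
  set ℓ := Real.log N with hℓdef
  have hℓ : 2000 ≤ ℓ := by
    rw [hℓdef, Real.le_log_iff_exp_le hNpos]
    exact hN1
  have hℓpos : 0 < ℓ := by linarith
  have hNexp : (N : ℝ) = Real.exp ℓ := by rw [hℓdef, Real.exp_log hNpos]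
  have htpos : 0 < t := by linarith
  set L := LL t N with hLdef
  have hL : 1 ≤ L := by
    rw [hLdef, LL, le_div_iff₀ hℓpos, one_mul]
    exact Real.log_le_log hNpos ht
  have hLℓ : L * ℓ = Real.log t := by
    rw [hLdef, LL, hℓdef, div_mul_cancel₀ _ hℓpos.ne']
  have hm0 : (1 : ℝ) ≤ m := by linarith
  have hm : m ≠ 0 := by
    rintro rfl
    norm_num at hm0
  -- k and s
  have hk1 : 3 * L ≤ (kk t N : ℝ) := Nat.le_ceil _
  have hk2 : (kk t N : ℝ) ≤ 4 * L := by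
    have := (Nat.ceil_lt_add_one (show 0 ≤ 3 * LL t N by rw [← hLdef]; linarith)).le
    rw [← hLdef] at this
    have h2 : (kk t N : ℝ) ≤ 3 * L + 1 := this
    linarith
  have hS : ((sk t N : ℕ) : ℝ) = kk t N * (8 * kk t N + 1) := by
    unfold sk; push_cast; ring
  have hS1 : (1 : ℝ) ≤ (sk t N : ℕ) := by
    rw [hS]
    nlinarith
  have hS2 : ((sk t N : ℕ) : ℝ) ≤ 144 * L ^ 2 := by
    rw [hS]
    nlinarith
  -- Y
  set x : ℝ := (N : ℝ) ^ (3 / 10 : ℝ) with hxdef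
  have hx : x = Real.exp (3 / 10 * ℓ) := by
    rw [hxdef, Real.rpow_def_of_pos hNpos]; congr 1; ring
  have hx2 : 2 ≤ x := by
    rw [hx]
    have := Real.add_one_le_exp (3 / 10 * ℓ)
    linarith
  have hY1 : (YY N : ℝ) ≤ x := Nat.floor_le (by linarith)
  have hY2 : x / 2 ≤ (YY N : ℝ) := by
    have : x - 1 < (YY N : ℝ) := Nat.sub_one_lt_floor _
    linarith
  have hYpos : (1 : ℝ) ≤ (YY N : ℝ) := by linarith
  have hY1' : 1 ≤ YY N := by exact_mod_cast hYpos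
  have hS1' : 1 ≤ sk t N := by exact_mod_cast hS1
  have hM1 : 1 ≤ sk t N * YY N ^ m := Nat.one_le_iff_ne_zero.mpr (by positivity)
  have hMc : ((sk t N * YY N ^ m : ℕ) : ℝ) = (sk t N : ℕ) * (YY N : ℝ) ^ m := by push_cast; ring
  -- n
  have hn1' : (N : ℝ) ≤ n := by exact_mod_cast hn1.le
  have hn2' : (n : ℝ) ≤ 2 * N := by exact_mod_cast hn2
  have hnm1 : Real.exp (m * ℓ) ≤ (n : ℝ) ^ m := by
    rw [Real.exp_nat_mul, ← hNexp]
    gcongr
  have hnm2 : (n : ℝ) ^ m ≤ 2 ^ m * Real.exp (m * ℓ) := by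
    rw [Real.exp_nat_mul, ← hNexp, ← mul_pow]
    gcongr
  have hfin : (N : ℝ) ^ (-(L / 50)) = Real.exp (-(L * ℓ / 50)) := by
    rw [Real.rpow_def_of_pos hNpos, ← hℓdef]; congr 1; ring
  rw [hfin]
  have hnpos : (0 : ℝ) < (n : ℝ) ^ m := lt_of_lt_of_le (Real.exp_pos _) hnm1
  have hα0 : t / (2 * Real.pi * m * (n : ℝ) ^ m) ≠ 0 := by
    have := Real.pi_pos
    have : (0 : ℝ) < m := by linarith
    positivity
  refine B8_core (t / (2 * Real.pi * m * (n : ℝ) ^ m)) L ℓ ((sk t N * YY N ^ m : ℕ) : ℝ)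
    (sk t N : ℕ) x (YY N) _ m t ((n : ℝ) ^ m) hL hℓ hm1 hm2 hS1 hS2 ?_ hnm1 hnm2 hx hY1 hY2 hMc
    (by exact_mod_cast hM1) rfl ?_
  · rw [hLℓ, Real.exp_log htpos]
  · intro hsm
    exact VV_small _ _ hM1 hα0 hsm

/-- `VV` is even in `a` (complex conjugation or `ν → -ν`). -/
theorem VV_neg (a : ℝ) (M : ℕ) : VV (-a) M = VV a M := by
  unfold VV
  apply Finset.sum_equiv (Equiv.neg ℤ)
  · intro ν
    simp only [Finset.mem_Icc, Equiv.neg_apply]
    constructor <;> intro h <;> constructor <;> omega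
  · intro ν _
    congr 1
    apply Finset.sum_congr rfl
    intro μ _
    congr 1
    simp only [Equiv.neg_apply]
    push_cast
    ring

end Pool.Agent.Lib.H31V
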