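import Mathlib

/-!
# H31V: Vinogradov's mean value theorem and zeta sums (definitions)

Used for `MP_da1588_nt`: a zero free region of Vinogradov-Korobov type for zeta.
All counts are in natural numbers, all tuples have integer entries.
-/

open Finset

namespace Pool.Agent.Lib.H31V

/-- Power sums of degrees `1, ..., k` of a tuple of integers. -/
def ps (k : ℕ) {ι : Type*} [Fintype ι] (x : ι → ℤ) : Fin k → ℤ :=
  fun j => ∑ i, x i ^ (j.val + 1)

/-- The tuples (indexed by `Fin s`) with entries in `B`. -/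
def tup (s : ℕ) (B : Finset ℤ) : Finset (Fin s → ℤ) := Fintype.piFinset (fun _ => B)

open Classical in
/-- Number of pairs of `s`-tuples from `B` with the same power sums of degrees `1, ..., k`. -/
noncomputable def JB (k s : ℕ) (B : Finset ℤ) : ℕ :=
  ((tup s B ×ˢ tup s B).filter (fun z => ps k z.1 = ps k z.2)).card

/-- Vinogradov's `J_{s,k}(P)`. -/
noncomputable def J (k s P : ℕ) : ℕ := JB k s (Icc (1 : ℤ) P)

open Classical in
/-- Pairs `(x, u)`, `(y, v)`, `x, y` injective `k`-tuples, `u, v` arbitrary `s`-tuples from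
`[1, P]`, with `ps x + ps u = ps y + ps v`. -/
noncomputable def J1 (k s P : ℕ) : ℕ :=
  (((tup k (Icc (1 : ℤ) P) ×ˢ tup s (Icc (1 : ℤ) P)) ×ˢ
    (tup k (Icc (1 : ℤ) P) ×ˢ tup s (Icc (1 : ℤ) P))).filter
      (fun z => Function.Injective z.1.1 ∧ Function.Injective z.2.1 ∧
        ps k z.1.1 + ps k z.1.2 = ps k z.2.1 + ps k z.2.2)).card

/-- The entries of `x` are pairwise different modulo `p`. -/
def DistMod (p : ℕ) {k : ℕ} (x : Fin k → ℤ) : Prop := ∀ i j, i ≠ j → ¬ (p : ℤ) ∣ x i - x j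

open Classical in
/-- The same as `J1` with `x` and `y` distinct modulo `p`. -/
noncomputable def Jp (k s P p : ℕ) : ℕ :=
  (((tup k (Icc (1 : ℤ) P) ×ˢ tup s (Icc (1 : ℤ) P)) ×ˢ
    (tup k (Icc (1 : ℤ) P) ×ˢ tup s (Icc (1 : ℤ) P))).filter
      (fun z => DistMod p z.1.1 ∧ DistMod p z.2.1 ∧
        ps k z.1.1 + ps k z.1.2 = ps k z.2.1 + ps k z.2.2)).card

open Classical in
/-- The part of `Jp` where all entries of `u` and `v` are `≡ a` modulo `p`. -/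
noncomputable def Jpa (k s P p : ℕ) (a : ℕ) : ℕ :=
  (((tup k (Icc (1 : ℤ) P) ×ˢ tup s ((Icc (1 : ℤ) P).filter (fun n => (p : ℤ) ∣ n - a))) ×ˢ
    (tup k (Icc (1 : ℤ) P) ×ˢ tup s ((Icc (1 : ℤ) P).filter (fun n => (p : ℤ) ∣ n - a)))).filter
      (fun z => DistMod p z.1.1 ∧ DistMod p z.2.1 ∧
        ps k z.1.1 + ps k z.1.2 = ps k z.2.1 + ps k z.2.2)).card

/-- `e(x) = exp(2 π i x)`. -/
noncomputable def e (x : ℝ) : ℂ := Complex.exp (2 * Real.pi * x * Complex.I)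

/-- The bilinear exponential sum of Vinogradov's method. -/
noncomputable def U (k Y : ℕ) (α : Fin k → ℝ) : ℂ :=
  ∑ x ∈ Icc 1 Y, ∑ y ∈ Icc 1 Y, e (∑ j : Fin k, α j * (x : ℝ) ^ (j.val + 1) * (y : ℝ) ^ (j.val + 1))

/-- `∑_{|ν| ≤ M} |∑_{|μ| ≤ M} e(a μ ν)|`. -/
noncomputable def VV (a : ℝ) (M : ℕ) : ℝ :=
  ∑ ν ∈ Icc (-(M : ℤ)) M, ‖∑ μ ∈ Icc (-(M : ℤ)) M, e (a * μ * ν)‖

/-- The Taylor coefficients of `t log(1 + z/n) / (2π)`. -/
noncomputable def aa (k : ℕ) (t : ℝ) (n : ℕ) : Fin k → ℝ :=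
  fun j => (-1) ^ j.val * t / (2 * Real.pi * (j.val + 1) * (n : ℝ) ^ (j.val + 1))

/-- The zeta sum over `(N, N']`. -/
noncomputable def S (t : ℝ) (N N' : ℕ) : ℂ := ∑ n ∈ Ioc N N', (n : ℂ) ^ ((t : ℂ) * Complex.I)

end Pool.Agent.Lib.H31V
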