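import Pool.Agent.Lib.H31V.B10
import Pool.Agent.Lib.H31V.B11
import Pool.Agent.Lib.H31V.B12

/-!
# Fin1: zeta sums
-/

open Finset

namespace Pool.Agent.Lib.H31V

private theorem fin1_norm_le (t : ℝ) (ht : 2 ≤ t) (n : ℕ) :
    ‖((n : ℕ) : ℂ) ^ ((t : ℂ) * Complex.I)‖ ≤ 1 := by
  rcases Nat.eq_zero_or_pos n with h0 | h0
  · subst h0
    have h1 : ((t : ℂ) * Complex.I) ≠ 0 := by
      apply mul_ne_zero _ Complex.I_ne_zero
      have : t ≠ 0 := by linarith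
      exact_mod_cast this
    rw [Nat.cast_zero, Complex.zero_cpow h1, norm_zero]
    exact zero_le_one
  · rw [Complex.norm_natCast_cpow_of_pos h0]
    simp

private theorem fin1_trivial (t : ℝ) (ht : 2 ≤ t) (N N' : ℕ) (h : N ≤ N') (h2 : N' ≤ 2 * N) :
    ‖S t N N'‖ ≤ N := by
  rw [S]
  refine (norm_sum_le _ _).trans ?_
  refine (Finset.sum_le_card_nsmul _ _ 1 (fun n _ => fin1_norm_le t ht n)).trans ?_
  rw [Nat.card_Ioc, nsmul_eq_mul, mul_one]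
  have : N' - N ≤ N := by omega
  exact_mod_cast this

private theorem fin1_Y2 (N : ℕ) (hN : 1 ≤ N) : (YY N : ℝ) ^ 2 ≤ (N : ℝ) ^ (3 / 5 : ℝ) := by
  have hN0 : (0 : ℝ) ≤ N := Nat.cast_nonneg _
  have h1 : (YY N : ℝ) ≤ (N : ℝ) ^ (3 / 10 : ℝ) := by
    rw [YY]
    exact Nat.floor_le (by positivity)
  have h2 : (N : ℝ) ^ (3 / 5 : ℝ) = ((N : ℝ) ^ (3 / 10 : ℝ)) ^ 2 := by
    rw [← Real.rpow_natCast, ← Real.rpow_mul hN0]
    norm_num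
  rw [h2]
  exact pow_le_pow_left₀ (Nat.cast_nonneg _) h1 2

private theorem fin1_Y1 (N : ℕ) (hN : 1 ≤ N) : 1 ≤ YY N := by
  rw [YY]
  apply Nat.le_floor
  have hN1 : (1 : ℝ) ≤ N := by exact_mod_cast hN
  rw [Nat.cast_one]
  exact Real.one_le_rpow hN1 (by norm_num)

private theorem fin1_two (N : ℕ) (hN : 6 ≤ N) : 2 * (YY N : ℝ) ^ 2 ≤ N := by
  have hN0 : (0 : ℝ) < N := by
    have : 0 < N := by omega
    exact_mod_cast this
  have h1 := fin1_Y2 N (by omega)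
  have h2 : (2 : ℝ) ≤ (N : ℝ) ^ (2 / 5 : ℝ) := by
    have h3 : (6 : ℝ) ≤ N := by exact_mod_cast hN
    have h4 : (2 : ℝ) = ((2 : ℝ) ^ (5 / 2 : ℝ)) ^ (2 / 5 : ℝ) := by
      rw [← Real.rpow_mul (by norm_num)]
      norm_num
    have h5 : ((2 : ℝ) ^ (5 / 2 : ℝ)) ^ 2 = 32 := by
      rw [← Real.rpow_natCast, ← Real.rpow_mul (by norm_num)]
      norm_num
    have h6 : (0 : ℝ) ≤ (2 : ℝ) ^ (5 / 2 : ℝ) := by positivity
    refine h4.le.trans ?_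
    apply Real.rpow_le_rpow h6 _ (by norm_num)
    nlinarith
  have h3 : (N : ℝ) = (N : ℝ) ^ (3 / 5 : ℝ) * (N : ℝ) ^ (2 / 5 : ℝ) := by
    rw [← Real.rpow_add hN0]
    norm_num
  have h4 : (0 : ℝ) ≤ (N : ℝ) ^ (3 / 5 : ℝ) := by positivity
  nlinarith

private theorem fin1_tail (t : ℝ) (N n : ℕ) (ht : 2 ≤ t) (hN : 2 ≤ N) (hNt : (N : ℝ) ≤ t)
    (hn : N < n) :
    t * ((YY N : ℝ) ^ 2 / n) ^ (kk t N + 1) ≤ (N : ℝ) ^ (-(2 / 5) : ℝ) := by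
  have hN1 : (1 : ℝ) < N := by exact_mod_cast hN
  have hN0 : (0 : ℝ) < N := by linarith
  have ht0 : (0 : ℝ) < t := by linarith
  have hlN : 0 < Real.log N := Real.log_pos hN1
  have hL : t = (N : ℝ) ^ (LL t N) := by
    rw [LL, Real.rpow_def_of_pos hN0, mul_div_cancel₀ _ hlN.ne', Real.exp_log ht0]
  have hL1 : 1 ≤ LL t N := by
    rw [LL, le_div_iff₀ hlN, one_mul]
    exact Real.log_le_log hN0 hNt
  have hnN : (N : ℝ) ≤ n := by exact_mod_cast hn.le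
  have hn0 : (0 : ℝ) < n := by linarith
  have h1 : (YY N : ℝ) ^ 2 / n ≤ (N : ℝ) ^ (-(2 / 5) : ℝ) := by
    rw [div_le_iff₀ hn0]
    calc (YY N : ℝ) ^ 2 ≤ (N : ℝ) ^ (3 / 5 : ℝ) := fin1_Y2 N (by omega)
      _ = (N : ℝ) ^ (-(2 / 5) : ℝ) * N := by
        nth_rewrite 3 [← Real.rpow_one (N : ℝ)]
        rw [← Real.rpow_add hN0]
        norm_num
      _ ≤ (N : ℝ) ^ (-(2 / 5) : ℝ) * n := mul_le_mul_of_nonneg_left hnN (by positivity)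
  have h2 : ((YY N : ℝ) ^ 2 / n) ^ (kk t N + 1) ≤
      (N : ℝ) ^ (-(2 / 5) * ((kk t N : ℝ) + 1) : ℝ) := by
    refine (pow_le_pow_left₀ (by positivity) h1 _).trans ?_
    rw [← Real.rpow_natCast, ← Real.rpow_mul hN0.le]
    push_cast
    exact le_rfl
  have h3 : 3 * LL t N ≤ (kk t N : ℝ) := by
    rw [kk]
    exact Nat.le_ceil _
  calc t * ((YY N : ℝ) ^ 2 / n) ^ (kk t N + 1)
      ≤ t * (N : ℝ) ^ (-(2 / 5) * ((kk t N : ℝ) + 1) : ℝ) := mul_le_mul_of_nonneg_left h2 ht0.le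
    _ = (N : ℝ) ^ (LL t N) * (N : ℝ) ^ (-(2 / 5) * ((kk t N : ℝ) + 1) : ℝ) := by rw [← hL]
    _ = (N : ℝ) ^ (LL t N + (-(2 / 5) * ((kk t N : ℝ) + 1)) : ℝ) := by rw [← Real.rpow_add hN0]
    _ ≤ (N : ℝ) ^ (-(2 / 5) : ℝ) := by
      apply Real.rpow_le_rpow_of_exponent_le hN1.le
      linarith

/-- **Zeta sums by Vinogradov's method.** Proof: let `N ≥ N₀` (otherwise `‖S‖ ≤ N ≤ C N^(3/4)`
with `C = N₀`, as `c ≤ 1/4` and `log N/log t ≤ 1`). `Y = YY N`, `k = kk t N`, `L = LL t N ≥ 1`,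
`f(n) = n^(it)`, `‖f n‖ ≤ 1` (also for `n = 0`: `0^(it)` is `0` or `1`). `shift_average`,
`taylor_sum` (`2Y^2 ≤ 2N^(3/5) ≤ N < n`) and `U_small`:
`‖S‖ ≤ N (C N^(-1/(10^8 L^2)) + 2 t (Y^2/N)^(k+1)) + 2 Y^2`, and
`t (Y^2/N)^(k+1) ≤ N^(L - (2/5)(3L + 1)) ≤ N^(-2/5)`, `Y^2 ≤ N^(3/5)`, `log N/log t = 1/L`. So
`c = 10^(-8)` works. -/
theorem zeta_sum : ∃ c C : ℝ, 0 < c ∧ c ≤ 1 / 4 ∧ 1 ≤ C ∧ ∀ (t : ℝ) (N N' : ℕ), 2 ≤ t → 2 ≤ N →
    (N : ℝ) ≤ t → N ≤ N' → N' ≤ 2 * N →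
    ‖S t N N'‖ ≤ C * (N : ℝ) ^ (1 - c * (Real.log N / Real.log t) ^ 2) := by
  obtain ⟨N₀, C, hC, hU⟩ := U_small
  refine ⟨1 / 10 ^ 8, C + 4 + N₀ + 6, by norm_num, by norm_num, ?_, ?_⟩
  · have : (0 : ℝ) ≤ N₀ := Nat.cast_nonneg _
    linarith
  intro t N N' ht hN hNt h h2
  have hN1 : (1 : ℝ) < N := by exact_mod_cast hN
  have hN0 : (0 : ℝ) < N := by linarith
  have hlN : 0 < Real.log N := Real.log_pos hN1
  have hlt : Real.log N ≤ Real.log t := Real.log_le_log hN0 hNt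
  have hlt0 : 0 < Real.log t := lt_of_lt_of_le hlN hlt
  have hx0 : 0 ≤ Real.log N / Real.log t := by positivity
  have hx1 : Real.log N / Real.log t ≤ 1 := by
    rw [div_le_one hlt0]
    exact hlt
  have hxs : (Real.log N / Real.log t) ^ 2 ≤ 1 := pow_le_one₀ hx0 hx1
  have hN₀ : (0 : ℝ) ≤ N₀ := Nat.cast_nonneg _
  have hpow0 : (0 : ℝ) ≤ (N : ℝ) ^ (1 - 1 / 10 ^ 8 * (Real.log N / Real.log t) ^ 2) := by positivity
  by_cases hcase : N < N₀ + 6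
  · have h3 := fin1_trivial t ht N N' h h2
    have h4 : (1 : ℝ) ≤ (N : ℝ) ^ (1 - 1 / 10 ^ 8 * (Real.log N / Real.log t) ^ 2) := by
      apply Real.one_le_rpow hN1.le
      nlinarith
    have h5 : (N : ℝ) ≤ N₀ + 6 := by exact_mod_cast hcase.le
    calc ‖S t N N'‖ ≤ N := h3
      _ ≤ (C + 4 + N₀ + 6) * 1 := by linarith
      _ ≤ _ := mul_le_mul_of_nonneg_left h4 (by linarith)
  have hcase' : N₀ + 6 ≤ N := not_lt.1 hcase
  have hY1 := fin1_Y1 N (by omega)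
  have hY2 := fin1_Y2 N (by omega)
  have hYpos : (0 : ℝ) < (YY N : ℝ) ^ 2 := by
    have : (0 : ℝ) < YY N := by exact_mod_cast hY1
    positivity
  have htwo := fin1_two N (by omega)
  obtain ⟨E, hE⟩ : ∃ E : ℝ, E = (N : ℝ) ^ (-(1 / (10 ^ 8 * LL t N ^ 2)) : ℝ) := ⟨_, rfl⟩
  have hE0 : 0 ≤ E := by rw [hE]; positivity
  have hLx : 1 / (10 ^ 8 * LL t N ^ 2) = 1 / 10 ^ 8 * (Real.log N / Real.log t) ^ 2 := by
    rw [LL]
    field_simp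
  have hE25 : (N : ℝ) ^ (-(2 / 5) : ℝ) ≤ E := by
    rw [hE, hLx]
    apply Real.rpow_le_rpow_of_exponent_le hN1.le
    nlinarith
  have hav := shift_average (fun n : ℕ => ((n : ℕ) : ℂ) ^ ((t : ℂ) * Complex.I))
    (fun n => fin1_norm_le t ht n) N N' (YY N) hY1 h
  have hterm : ∀ n ∈ Ioc N N', ‖∑ x ∈ Icc 1 (YY N), ∑ y ∈ Icc 1 (YY N),
      ((n + x * y : ℕ) : ℂ) ^ ((t : ℂ) * Complex.I)‖ ≤ (YY N : ℝ) ^ 2 * ((C + 2) * E) := by
    intro n hn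
    rw [Finset.mem_Ioc] at hn
    have h3 : 2 * YY N ^ 2 ≤ n := by
      have h4 : (2 * (YY N) ^ 2 : ℕ) ≤ N := by
        have := htwo
        exact_mod_cast this
      omega
    have h5 := taylor_sum (kk t N) (YY N) n t (by linarith) (by omega) h3
    have h6 := hU t N n (by omega) hNt hn.1 (by omega)
    have h7 := fin1_tail t N n ht hN hNt hn.1
    rw [← hE] at h6
    have h8 : (YY N : ℝ) ^ 2 * (2 * t * ((YY N : ℝ) ^ 2 / n) ^ (kk t N + 1)) ≤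
        (YY N : ℝ) ^ 2 * (2 * E) := by
      apply mul_le_mul_of_nonneg_left _ hYpos.le
      have h9 := h7.trans hE25
      nlinarith
    calc _ ≤ _ := h5
      _ ≤ C * (YY N : ℝ) ^ 2 * E + (YY N : ℝ) ^ 2 * (2 * E) := add_le_add h6 h8
      _ = (YY N : ℝ) ^ 2 * ((C + 2) * E) := by ring
  have hsum : ∑ n ∈ Ioc N N', ‖∑ x ∈ Icc 1 (YY N), ∑ y ∈ Icc 1 (YY N),
      ((n + x * y : ℕ) : ℂ) ^ ((t : ℂ) * Complex.I)‖ ≤ N * ((YY N : ℝ) ^ 2 * ((C + 2) * E)) := by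
    refine (Finset.sum_le_card_nsmul _ _ _ hterm).trans ?_
    rw [Nat.card_Ioc, nsmul_eq_mul]
    have h3 : ((N' - N : ℕ) : ℝ) ≤ N := by
      have : N' - N ≤ N := by omega
      exact_mod_cast this
    exact mul_le_mul_of_nonneg_right h3 (by positivity)
  have hN35 : (YY N : ℝ) ^ 2 ≤ N * E := by
    have h3 : (N : ℝ) ^ (3 / 5 : ℝ) = N * (N : ℝ) ^ (-(2 / 5) : ℝ) := by
      nth_rewrite 2 [← Real.rpow_one (N : ℝ)]
      rw [← Real.rpow_add hN0]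
      norm_num
    rw [h3] at hY2
    exact hY2.trans (mul_le_mul_of_nonneg_left hE25 hN0.le)
  have hNE : (N : ℝ) ^ (1 - 1 / 10 ^ 8 * (Real.log N / Real.log t) ^ 2) = N * E := by
    rw [hE, hLx, sub_eq_add_neg, Real.rpow_add hN0, Real.rpow_one]
  rw [hNE]
  have hNE0 : 0 ≤ (N : ℝ) * E := by positivity
  calc ‖S t N N'‖ ≤ (1 / (YY N : ℝ) ^ 2) * (N * ((YY N : ℝ) ^ 2 * ((C + 2) * E))) +
        2 * (YY N : ℝ) ^ 2 := by
        refine hav.trans ?_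
        exact add_le_add (mul_le_mul_of_nonneg_left hsum (by positivity)) le_rfl
    _ = (C + 2) * (N * E) + 2 * (YY N : ℝ) ^ 2 := by
        field_simp
    _ ≤ (C + 4 + N₀ + 6) * (N * E) := by nlinarith

end Pool.Agent.Lib.H31V
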